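import Pool.Agent.Lib.MP_1a3fd7_lc.Comb

namespace Pool.Agent.Lib.MP_1a3fd7_lc

open Relation

theorem c0_true {J : Finset Pt} {p : Pt} :
    (p, true) ∈ sidesF J ↔ p ∈ J ∨ (p.1, p.2 - 1) ∈ J := by
  rw [mem_sidesF]
  constructor
  · rintro ⟨q, hq, d, h⟩
    fin_cases d <;> simp [side] at h
    · subst h
      exact Or.inr (by simpa using hq)
    · exact Or.inl (h ▸ hq)
  · rintro (h | h)
    · exact ⟨_, h, 2, rfl⟩
    · exact ⟨_, h, 0, by simp [side]⟩

theorem c0_false {J : Finset Pt} {p : Pt} :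
    (p, false) ∈ sidesF J ↔ p ∈ J ∨ (p.1 - 1, p.2) ∈ J := by
  rw [mem_sidesF]
  constructor
  · rintro ⟨q, hq, d, h⟩
    fin_cases d <;> simp [side] at h
    · subst h
      exact Or.inr (by simpa using hq)
    · exact Or.inl (h ▸ hq)
  · rintro (h | h)
    · exact ⟨_, h, 3, rfl⟩
    · exact ⟨_, h, 1, by simp [side]⟩

theorem c0_cor {q p : Pt} : p ∈ corners q ↔
    q = p ∨ q = (p.1 - 1, p.2) ∨ q = (p.1, p.2 - 1) ∨ q = (p.1 - 1, p.2 - 1) := by
  simp only [mem_corners, Prod.ext_iff]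
  omega

theorem c0_cnt {α β : Type} [DecidableEq β] (S : Finset α) (T : Finset β) (g : α → β)
    (hg : Function.Injective g) (h : ∀ t ∈ T, ∃ p ∈ S, g p = t) :
    ∑ p ∈ S, (if g p ∈ T then 1 else 0) = T.card := by
  rw [← Finset.card_filter]
  refine Finset.card_bij (fun p _ => g p) (fun p hp => (Finset.mem_filter.1 hp).2)
    (fun _ _ _ _ e => hg e) fun t ht => ?_
  obtain ⟨p, hp, rfl⟩ := h t ht
  exact ⟨p, Finset.mem_filter.2 ⟨hp, ht⟩, rfl⟩

theorem mem_ends_sides {J : Finset Pt} {p : Pt} :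
    p ∈ ends (sidesF J) ↔ ∃ q ∈ J, p ∈ corners q := by
  rw [mem_ends]
  constructor
  · rintro ⟨e, he, h⟩
    obtain ⟨q, hq, d, rfl⟩ := mem_sidesF.1 he
    refine ⟨q, hq, mem_corners.2 ?_⟩
    fin_cases d <;> rcases h with rfl | rfl <;> simp [side, tip]
  · rintro ⟨q, hq, h⟩
    rcases mem_corners.1 h with rfl | rfl | rfl | rfl
    · exact ⟨_, mem_sidesF.2 ⟨_, hq, 2, rfl⟩, Or.inl rfl⟩
    · exact ⟨_, mem_sidesF.2 ⟨_, hq, 1, rfl⟩, Or.inl rfl⟩
    · exact ⟨_, mem_sidesF.2 ⟨_, hq, 0, rfl⟩, Or.inl rfl⟩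
    · exact ⟨_, mem_sidesF.2 ⟨_, hq, 0, rfl⟩, Or.inr rfl⟩

theorem two_sides (J : Finset Pt) (hok : ∀ p ∈ ends (sidesF J), Ok J p) :
    2 * (sidesF J).card = 4 * J.card + (ends (sidesF J)).card := by
  have hF := Finset.card_filter_add_card_filter_not (s := sidesF J) fun e => e.2 = true
  have a1 := c0_cnt (ends (sidesF J)) ((sidesF J).filter fun e => e.2 = true) (fun p => (p, true))
    (fun _ _ h => congrArg Prod.fst h) fun t ht => by
      obtain ⟨h1, h2⟩ := Finset.mem_filter.1 ht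
      exact ⟨_, mem_ends.2 ⟨t, h1, Or.inl rfl⟩, Prod.ext rfl h2.symm⟩
  have a2 := c0_cnt (ends (sidesF J)) ((sidesF J).filter fun e => e.2 = true)
    (fun p => ((p.1 - 1, p.2), true)) (fun _ _ h => by simpa [Prod.ext_iff] using h) fun t ht => by
      obtain ⟨h1, h2⟩ := Finset.mem_filter.1 ht
      exact ⟨_, mem_ends.2 ⟨t, h1, Or.inr rfl⟩, Prod.ext (by simp [tip, h2]) h2.symm⟩
  have a3 := c0_cnt (ends (sidesF J)) ((sidesF J).filter fun e => ¬ e.2 = true)
    (fun p => (p, false)) (fun _ _ h => congrArg Prod.fst h) fun t ht => by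
      obtain ⟨h1, h2⟩ := Finset.mem_filter.1 ht
      exact ⟨_, mem_ends.2 ⟨t, h1, Or.inl rfl⟩, Prod.ext rfl (by simpa using h2)⟩
  have a4 := c0_cnt (ends (sidesF J)) ((sidesF J).filter fun e => ¬ e.2 = true)
    (fun p => ((p.1, p.2 - 1), false)) (fun _ _ h => by simpa [Prod.ext_iff] using h)
    fun t ht => by
      obtain ⟨h1, h2⟩ := Finset.mem_filter.1 ht
      exact ⟨_, mem_ends.2 ⟨t, h1, Or.inr rfl⟩, Prod.ext (by simp [tip, h2]) (by simpa using h2)⟩
  have b1 := c0_cnt (ends (sidesF J)) J (fun p => p) (fun _ _ h => h) fun t ht =>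
    ⟨t, mem_ends_sides.2 ⟨t, ht, by simp [corners]⟩, rfl⟩
  have b2 := c0_cnt (ends (sidesF J)) J (fun p => (p.1 - 1, p.2))
    (fun _ _ h => by simpa [Prod.ext_iff] using h) fun t ht =>
    ⟨(t.1 + 1, t.2), mem_ends_sides.2 ⟨t, ht, by simp [corners]⟩, by simp⟩
  have b3 := c0_cnt (ends (sidesF J)) J (fun p => (p.1 - 1, p.2 - 1))
    (fun _ _ h => by simpa [Prod.ext_iff] using h) fun t ht =>
    ⟨(t.1 + 1, t.2 + 1), mem_ends_sides.2 ⟨t, ht, by simp [corners]⟩, by simp⟩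
  have b4 := c0_cnt (ends (sidesF J)) J (fun p => (p.1, p.2 - 1))
    (fun _ _ h => by simpa [Prod.ext_iff] using h) fun t ht =>
    ⟨(t.1, t.2 + 1), mem_ends_sides.2 ⟨t, ht, by simp [corners]⟩, by simp⟩
  have key : ∑ p ∈ ends (sidesF J),
      ((if (p, true) ∈ (sidesF J).filter fun e => e.2 = true then 1 else 0) +
      (if ((p.1 - 1, p.2), true) ∈ (sidesF J).filter fun e => e.2 = true then 1 else 0) +
      (if (p, false) ∈ (sidesF J).filter fun e => ¬ e.2 = true then 1 else 0) +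
      (if ((p.1, p.2 - 1), false) ∈ (sidesF J).filter fun e => ¬ e.2 = true then 1 else 0)) =
      ∑ p ∈ ends (sidesF J), ((if p ∈ J then 1 else 0) + (if (p.1 - 1, p.2) ∈ J then 1 else 0) +
      (if (p.1 - 1, p.2 - 1) ∈ J then 1 else 0) + (if (p.1, p.2 - 1) ∈ J then 1 else 0) + 1) := by
    refine Finset.sum_congr rfl fun p hp => ?_
    have := hok p hp
    unfold Ok at this
    simp only [Finset.mem_filter, c0_true, c0_false]
    by_cases h1 : p ∈ J <;> by_cases h2 : (p.1 - 1, p.2) ∈ J <;>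
      by_cases h3 : (p.1 - 1, p.2 - 1) ∈ J <;> by_cases h4 : (p.1, p.2 - 1) ∈ J <;>
      simp [h1, h2, h3, h4, okb] at this ⊢
  simp only [Finset.sum_add_distrib, a1, a2, a3, a4, b1, b2, b3, b4, Finset.sum_const,
    smul_eq_mul, mul_one] at key
  omega

theorem Poly.ends_eq {S I : Finset Pt} (h : Poly S I) : ends (sidesF I) = S := by
  ext p
  rw [mem_ends_sides]
  refine ⟨fun ⟨q, hq, hp⟩ => h.cor q hq hp, fun hp => ?_⟩
  have := h.ok p hp
  unfold Ok at this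
  by_contra c
  have k : ∀ q, p ∈ corners q → q ∉ I := fun q a b => c ⟨q, b, a⟩
  simp [k p (c0_cor.2 (by simp)), k (p.1 - 1, p.2) (c0_cor.2 (by simp)),
    k (p.1, p.2 - 1) (c0_cor.2 (by simp)), k (p.1 - 1, p.2 - 1) (c0_cor.2 (by simp)), okb] at this

theorem c0_side {I : Finset Pt} {q : Pt} {d : Fin 4} (h : side q d ∈ sidesF I) :
    q ∈ I ∨ nb q d ∈ I := by
  fin_cases d <;> simp [side, nb, c0_true, c0_false] at h ⊢ <;> tauto

theorem Poly.c0_outer {S I : Finset Pt} (h : Poly S I) {q : Pt} (hq : q ∉ I) :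
    Outer (sidesF I) q := by
  obtain ⟨o, h1, h2⟩ := h.out
  have ho : Outer (sidesF I) o := outer_of_col fun y hy hm => by
    rcases c0_true.1 hm with a | a
    · refine h1 (y - o.2).toNat ?_
      rwa [show o.2 + ((y - o.2).toNat : ℤ) = y by omega]
    · refine h1 (y - 1 - o.2).toNat ?_
      rwa [show o.2 + ((y - 1 - o.2).toNat : ℤ) = y - 1 by omega]
  have h3 := h2 q hq
  clear hq
  induction h3 using ReflTransGen.head_induction_on with
  | refl => exact ho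
  | head a _ ih =>
    obtain ⟨a1, a2, d, rfl⟩ := a
    exact Outer.of_free ⟨d, rfl, fun m => (c0_side m).elim a1 a2⟩ ih

theorem Poly.touch {S I : Finset Pt} (h : Poly S I) : ∀ p ∈ S, Touch (sidesF I) p := by
  intro p hp
  have := h.ok p hp
  unfold Ok at this
  by_contra c
  simp only [Touch, not_or] at c
  have k : ∀ q, ¬ Outer (sidesF I) q → q ∈ I := fun q a => by_contra fun b => a (h.c0_outer b)
  simp [k _ c.1, k _ c.2.1, k _ c.2.2.1, k _ c.2.2.2, okb] at this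

end Pool.Agent.Lib.MP_1a3fd7_lc
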