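import Pool.Agent.Lib.MP_1a3fd7_lc.CL

namespace Pool.Agent.Lib.MP_1a3fd7_lc

open Relation

theorem cd_corner {c p : Pt} (h : p ∈ corners c) :
    c = (p.1 - 1, p.2) ∨ c = p ∨ c = (p.1 - 1, p.2 - 1) ∨ c = (p.1, p.2 - 1) := by
  rcases mem_corners.1 h with rfl | rfl | rfl | rfl <;> simp

theorem cd_graph {J : Finset Pt} {e : Sym2 Pt} :
    e ∈ graph J ↔ ∃ c ∈ J, (∃ d, ue (side c d) = e) ∨ diag c = e := by
  simp only [graph, Finset.mem_union, Finset.mem_image, mem_sidesF]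
  constructor
  · rintro (⟨_, ⟨c, hc, d, rfl⟩, h⟩ | ⟨c, hc, h⟩)
    exacts [⟨c, hc, .inl ⟨d, h⟩⟩, ⟨c, hc, .inr h⟩]
  · rintro ⟨c, hc, ⟨d, h⟩ | h⟩
    exacts [.inl ⟨_, ⟨c, hc, d, rfl⟩, h⟩, .inr ⟨c, hc, h⟩]

theorem cd_edge {c u w : Pt} (h : (∃ d, ue (side c d) = s(u, w)) ∨ diag c = s(u, w)) :
    u ∈ corners c ∧ w ∈ corners c ∧ u ≠ w ∧
      (w ≠ c → w ≠ (c.1 + 1, c.2 + 1) → u = c ∨ u = (c.1 + 1, c.2 + 1)) := by
  obtain ⟨x, y⟩ := c
  obtain ⟨u1, u2⟩ := u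
  obtain ⟨w1, w2⟩ := w
  simp only [mem_corners, ne_eq, Prod.mk.injEq]
  rcases h with ⟨d, h⟩ | h
  · fin_cases d <;> simp [ue, side, tip] at h <;> omega
  · simp [diag] at h
    omega

theorem cd_ok {J : Finset Pt} {q p : Pt} (hq : q ∈ J)
    (hl : ∀ d d', nb q d ∈ J → nb q d' ∈ J → d = d') (h : Ok J p)
    (hc : ∃ c ∈ J.erase q, p ∈ corners c) : Ok (J.erase q) p := by
  obtain ⟨c, hc, hp⟩ := hc
  have h0 : (p.1 - 1, p.2) ∈ J.erase q ∨ p ∈ J.erase q ∨ (p.1 - 1, p.2 - 1) ∈ J.erase q ∨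
      (p.1, p.2 - 1) ∈ J.erase q := by
    rcases cd_corner hp with e | e | e | e <;> rw [e] at hc <;> tauto
  have h1 : nb q 0 ∈ J → nb q 1 ∉ J := fun a b => absurd (hl _ _ a b) (by decide)
  have h2 : nb q 1 ∈ J → nb q 2 ∉ J := fun a b => absurd (hl _ _ a b) (by decide)
  have h3 : nb q 2 ∈ J → nb q 3 ∉ J := fun a b => absurd (hl _ _ a b) (by decide)
  have h4 : nb q 3 ∈ J → nb q 0 ∉ J := fun a b => absurd (hl _ _ a b) (by decide)
  clear hl hc hp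
  obtain ⟨x, y⟩ := p
  by_cases e1 : (x - 1, y) = q
  · subst e1
    have n1 : x ≠ x - 1 := by omega
    by_cases a : (x, y) ∈ J <;> by_cases b : (x - 1, y - 1) ∈ J <;> by_cases c : (x, y - 1) ∈ J <;>
      simp_all [Ok, okb, nb]
  by_cases e2 : (x, y) = q
  · subst e2
    by_cases a : (x - 1, y) ∈ J <;> by_cases b : (x - 1, y - 1) ∈ J <;>
      by_cases c : (x, y - 1) ∈ J <;> simp_all [Ok, okb, nb]
  by_cases e3 : (x - 1, y - 1) = q
  · subst e3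
    have n1 : x ≠ x - 1 := by omega
    by_cases a : (x - 1, y) ∈ J <;> by_cases b : (x, y) ∈ J <;> by_cases c : (x, y - 1) ∈ J <;>
      simp_all [Ok, okb, nb]
  by_cases e4 : (x, y - 1) = q
  · subst e4
    by_cases a : (x - 1, y) ∈ J <;> by_cases b : (x, y) ∈ J <;>
      by_cases c : (x - 1, y - 1) ∈ J <;> simp_all [Ok, okb, nb]
  simpa only [Ok, Finset.mem_erase, ne_eq, e1, e2, e3, e4, not_false_eq_true, true_and] using h

/-- A corner whose two sides have no cell of `J` behind them lies in one cell only. -/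
theorem cd_priv {J : Finset Pt} {q p : Pt} (hq : q ∈ J) (h : Ok J p) (hp : p ∈ corners q)
    (hn : ∀ d, p ∈ ue (side q d) → nb q d ∉ J) {c : Pt} (hc : c ∈ J) (hpc : p ∈ corners c) :
    c = q := by
  have h0 := hn 0
  have h1 := hn 1
  have h2 := hn 2
  have h3 := hn 3
  clear hn
  obtain ⟨x, y⟩ := q
  rcases mem_corners.1 hp with rfl | rfl | rfl | rfl <;>
    rcases cd_corner hpc with rfl | rfl | rfl | rfl <;>
    simp_all [Ok, okb, nb, ue, side, tip]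

theorem degen (J : Finset Pt) (hok : ∀ p ∈ ends (sidesF J), Ok J p)
    (ht : ∀ p ∈ ends (sidesF J), Touch (sidesF J) p) (X : Finset Pt) (hX : X.Nonempty) :
    ∃ w ∈ X, (X.filter fun u => s(u, w) ∈ graph J).card ≤ 2 := by
  induction hn : J.card generalizing J with
  | zero =>
    obtain rfl := Finset.card_eq_zero.1 hn
    obtain ⟨w, hw⟩ := hX
    exact ⟨w, hw, by simp [graph, sidesF]⟩
  | succ n ih =>
  obtain ⟨q, hq, hl⟩ := leaf J (Finset.card_pos.1 (by omega)) hok ht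
  obtain ⟨d0, hd0⟩ : ∃ d0, ∀ d, nb q d ∈ J → d = d0 := by
    by_cases h : ∃ d, nb q d ∈ J
    · obtain ⟨d, h⟩ := h
      exact ⟨d, fun d' h' => hl _ _ h' h⟩
    · exact ⟨0, fun d h' => absurd ⟨d, h'⟩ h⟩
  have hpv : ∀ p ∈ corners q, (p ∈ ue (side q d0) → nb q d0 ∉ J) → ∀ c ∈ J, p ∈ corners c →
      c = q := fun p hp h c hc hpc =>
    cd_priv hq (hok p (mem_ends_sides.2 ⟨q, hq, hp⟩)) hp
      (fun d h1 h2 => by obtain rfl := hd0 d h2; exact h h1 h2) hc hpc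
  obtain ⟨b, hb, hb1, hb2, hb3⟩ : ∃ b ∈ corners q, b ∉ ue (side q d0) ∧ b ≠ q ∧
      b ≠ (q.1 + 1, q.2 + 1) := by
    fin_cases d0
    exacts [⟨(q.1 + 1, q.2), by simp [corners], by simp [ue, side, tip, Prod.ext_iff]⟩,
      ⟨(q.1, q.2 + 1), by simp [corners], by simp [ue, side, tip, Prod.ext_iff]⟩,
      ⟨(q.1, q.2 + 1), by simp [corners], by simp [ue, side, tip, Prod.ext_iff]⟩,
      ⟨(q.1 + 1, q.2), by simp [corners], by simp [ue, side, tip, Prod.ext_iff]⟩]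
  by_cases hbX : b ∈ X
  · refine ⟨b, hbX, (Finset.card_le_card (t := {q, (q.1 + 1, q.2 + 1)}) fun u hu => ?_).trans
      Finset.card_le_two⟩
    obtain ⟨c, hc, h⟩ := cd_graph.1 (Finset.mem_filter.1 hu).2
    obtain rfl := hpv b hb (fun h => absurd h hb1) c hc (cd_edge h).2.1
    simpa using (cd_edge h).2.2.2 hb2 hb3
  by_cases hw : ∃ w ∈ X, w ∈ corners q ∧ (w ∈ ue (side q d0) → nb q d0 ∉ J)
  · obtain ⟨w, hw, h1, h2⟩ := hw
    have hwb : b ≠ w := fun e => hbX (e ▸ hw)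
    refine ⟨w, hw, (Finset.card_le_card (t := ((corners q).erase w).erase b) fun u hu => ?_).trans
      ?_⟩
    · obtain ⟨hu, hu'⟩ := Finset.mem_filter.1 hu
      obtain ⟨c, hc, h⟩ := cd_graph.1 hu'
      obtain rfl := hpv w h1 h2 c hc (cd_edge h).2.1
      exact Finset.mem_erase.2 ⟨fun e => hbX (e ▸ hu),
        Finset.mem_erase.2 ⟨(cd_edge h).2.2.1, (cd_edge h).1⟩⟩
    · rw [Finset.card_erase_of_mem (Finset.mem_erase.2 ⟨hwb, hb⟩), Finset.card_erase_of_mem h1]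
      have : (corners q).card ≤ 4 := Finset.card_le_four
      omega
  have hsub : sidesF (J.erase q) ⊆ sidesF J := fun e he => by
    obtain ⟨c, hc, h⟩ := mem_sidesF.1 he
    exact mem_sidesF.2 ⟨c, Finset.mem_of_mem_erase hc, h⟩
  have hend : ∀ p ∈ ends (sidesF (J.erase q)), p ∈ ends (sidesF J) := fun p hp => by
    obtain ⟨c, hc, h⟩ := mem_ends_sides.1 hp
    exact mem_ends_sides.2 ⟨c, Finset.mem_of_mem_erase hc, h⟩
  obtain ⟨w, hwX, h⟩ := ih (J.erase q)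
    (fun p hp => cd_ok hq hl (hok p (hend p hp)) (mem_ends_sides.1 hp))
    (fun p hp => (ht p (hend p hp)).mono hsub) (by rw [Finset.card_erase_of_mem hq]; omega)
  refine ⟨w, hwX, (Finset.card_le_card fun u hu => ?_).trans h⟩
  obtain ⟨hu, hu'⟩ := Finset.mem_filter.1 hu
  obtain ⟨c, hc, hg⟩ := cd_graph.1 hu'
  refine Finset.mem_filter.2 ⟨hu, cd_graph.2 ?_⟩
  by_cases e : c = q
  · subst e
    obtain ⟨h1, h2, h3, -⟩ := cd_edge hg
    push Not at hw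
    obtain ⟨a1, a2⟩ := hw u hu h1
    obtain ⟨a3, -⟩ := hw w hwX h2
    refine ⟨nb c d0, Finset.mem_erase.2 ⟨?_, a2⟩, .inl ⟨d0 + 2, ?_⟩⟩
    · fin_cases d0 <;> simp [nb, Prod.ext_iff]
    · rw [side_nb]
      exact (Sym2.mem_and_mem_iff h3).1 ⟨a1, a3⟩
  · exact ⟨c, Finset.mem_erase.2 ⟨e, hc⟩, hg⟩

end Pool.Agent.Lib.MP_1a3fd7_lc
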