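import Pool.Agent.Lib.MP_1a3fd7_lc.Comb

/-! Counting of outer incidences. -/

namespace Pool.Agent.Lib.MP_1a3fd7_lc

open Relation

theorem ed_zero {F : Finset UE} {e : UE} (h : e ∉ F) : oc F e = 0 := by
  simp [oc, h]

theorem ed_mem_tops {F : Finset UE} {d : Fin 4} {e : UE} :
    e ∈ tops F d ↔ e ∈ F ∧ ∃ q, ¬ Outer F q ∧ side q d = e := by
  simp [tops]

theorem ed_top_iff {F : Finset UE} {d : Fin 4} {q : Pt} (h : side q d ∈ F) :
    side q d ∈ tops F d ↔ ¬ Outer F q := by
  rw [ed_mem_tops]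
  refine ⟨fun ⟨_, r, h1, h2⟩ => ?_, fun h1 => ⟨h, q, h1, rfl⟩⟩
  rwa [← side_inj d h2]

theorem ed_top_not {F : Finset UE} {d : Fin 4} {e : UE} (h : ∀ q, (side q d).2 ≠ e.2) :
    e ∉ tops F d := by
  rw [ed_mem_tops]
  rintro ⟨_, q, _, rfl⟩
  exact h q rfl

/-- The two cells beside an edge of `F`. -/
theorem ed_two {F : Finset UE} {e : UE} (he : e ∈ F) :
    oc F e + ∑ d : Fin 4, (if e ∈ tops F d then 1 else 0) = 2 := by
  obtain ⟨⟨x, y⟩, b⟩ := e
  rw [Fin.sum_univ_four]
  cases b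
  · have e1 : side (x - 1, y) 1 = ((x, y), false) := by simp [side]
    have e3 : side (x, y) 3 = ((x, y), false) := by simp [side]
    have h1 := ed_top_iff (F := F) (q := (x - 1, y)) (d := 1) (by rwa [e1])
    have h3 := ed_top_iff (F := F) (q := (x, y)) (d := 3) (by rwa [e3])
    rw [e1] at h1
    rw [e3] at h3
    have h0 : ((x, y), false) ∉ tops F 0 := ed_top_not fun q => by simp [side]
    have h2 : ((x, y), false) ∉ tops F 2 := ed_top_not fun q => by simp [side]
    by_cases a : Outer F (x, y) <;> by_cases c : Outer F (x - 1, y) <;>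
      simp [oc, he, h0, h1, h2, h3, a, c]
  · have e0 : side (x, y - 1) 0 = ((x, y), true) := by simp [side]
    have e2 : side (x, y) 2 = ((x, y), true) := by simp [side]
    have h0 := ed_top_iff (F := F) (q := (x, y - 1)) (d := 0) (by rwa [e0])
    have h2 := ed_top_iff (F := F) (q := (x, y)) (d := 2) (by rwa [e2])
    rw [e0] at h0
    rw [e2] at h2
    have h1 : ((x, y), true) ∉ tops F 1 := ed_top_not fun q => by simp [side]
    have h3 : ((x, y), true) ∉ tops F 3 := ed_top_not fun q => by simp [side]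
    by_cases a : Outer F (x, y) <;> by_cases c : Outer F (x, y - 1) <;>
      simp [oc, he, h0, h1, h2, h3, a, c]

/-- Every edge of `F` is counted once. -/
theorem ed_sum (F : Finset UE) (g : UE → UE) (hg : Function.Injective g)
    (h : ∀ e ∈ F, ∃ p ∈ ends F, ∃ b, g (p, b) = e) :
    ∑ p ∈ ends F, (oc F (g (p, true)) + oc F (g (p, false))) = ∑ e ∈ F, oc F e := by
  have h1 : ∑ e ∈ F, oc F e = ∑ e ∈ (ends F ×ˢ (Finset.univ : Finset Bool)).image g, oc F e := by
    refine Finset.sum_subset (fun e he => ?_) fun e _ he => ed_zero he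
    obtain ⟨p, hp, b, rfl⟩ := h e he
    exact Finset.mem_image_of_mem g (Finset.mem_product.2 ⟨hp, Finset.mem_univ _⟩)
  rw [h1, Finset.sum_image fun a _ b _ hab => hg hab, Finset.sum_product]
  exact Finset.sum_congr rfl fun p _ => by rw [Fintype.sum_bool]

/-- The unit edge with a given second end. -/
def edBack (e : UE) : UE := (if e.2 then (e.1.1 - 1, e.1.2) else (e.1.1, e.1.2 - 1), e.2)

theorem ed_back_inj : Function.Injective edBack := by
  rintro ⟨⟨x, y⟩, b⟩ ⟨⟨x', y'⟩, b'⟩ h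
  cases b <;> cases b' <;> simp [edBack] at h ⊢ <;> exact h

theorem ed_back_tip (e : UE) : edBack (tip e, e.2) = e := by
  obtain ⟨⟨x, y⟩, b⟩ := e
  cases b <;> simp [edBack, tip]

theorem ed_inc (F : Finset UE) : ∑ p ∈ ends F, inc F p = 2 * ∑ e ∈ F, oc F e := by
  have h1 := ed_sum F id Function.injective_id fun e he =>
    ⟨e.1, mem_ends.2 ⟨e, he, Or.inl rfl⟩, e.2, rfl⟩
  have h2 := ed_sum F edBack ed_back_inj fun e he =>
    ⟨tip e, mem_ends.2 ⟨e, he, Or.inr rfl⟩, e.2, ed_back_tip e⟩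
  rw [two_mul]
  nth_rewrite 1 [← h1]
  rw [← h2, ← Finset.sum_add_distrib]
  refine Finset.sum_congr rfl fun p _ => ?_
  simp [inc, edBack, add_assoc]

theorem incid (F : Finset UE) :
    ∑ p ∈ ends F, inc F p + 2 * ∑ d, (tops F d).card = 4 * F.card := by
  have h1 : ∀ d, (tops F d).card = ∑ e ∈ F, if e ∈ tops F d then 1 else 0 := by
    intro d
    rw [← Finset.card_filter]
    refine congrArg Finset.card ?_
    ext e
    simp only [Finset.mem_filter]
    exact ⟨fun h => ⟨(ed_mem_tops.1 h).1, h⟩, fun h => h.2⟩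
  have h2 : ∑ e ∈ F, oc F e + ∑ d, (tops F d).card = 2 * F.card := by
    rw [Finset.sum_congr rfl fun d _ => h1 d, Finset.sum_comm, ← Finset.sum_add_distrib,
      Finset.sum_congr rfl fun e he => ed_two he]
    simp [mul_comm]
  rw [ed_inc]
  omega

theorem ed_cases {a b c d A B C D : Prop} {_ : Decidable a} {_ : Decidable b} {_ : Decidable c}
    {_ : Decidable d} {i1 i1' : Decidable A} {i2 i2' : Decidable B} {i3 i3' : Decidable C}
    {i4 i4' : Decidable D} (h : a ∨ b ∨ c ∨ d) (h' : A ∨ B ∨ C ∨ D) (ha : ¬ a → (D ↔ A))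
    (hb : ¬ b → (B ↔ A)) (hc : ¬ c → (C ↔ B)) (hd : ¬ d → (C ↔ D)) :
    2 ≤ (if a then @ite ℕ A i1 1 0 + @ite ℕ D i4 1 0 else 0) +
      (if b then @ite ℕ A i1' 1 0 + @ite ℕ B i2 1 0 else 0) +
      (if c then @ite ℕ B i2' 1 0 + @ite ℕ C i3 1 0 else 0) +
      (if d then @ite ℕ D i4' 1 0 + @ite ℕ C i3' 1 0 else 0) := by
  by_cases a <;> by_cases b <;> by_cases c <;> by_cases d <;> by_cases A <;> by_cases B <;>
    by_cases C <;> by_cases D <;> simp_all

theorem inc_ge {F : Finset UE} {p : Pt} (hp : p ∈ ends F) (ht : Touch F p) : 2 ≤ inc F p := by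
  obtain ⟨x, y⟩ := p
  have h : ((x, y), true) ∈ F ∨ ((x, y), false) ∈ F ∨ ((x - 1, y), true) ∈ F ∨
      ((x, y - 1), false) ∈ F := by
    obtain ⟨⟨⟨u, v⟩, b⟩, he, h⟩ := mem_ends.1 hp
    cases b
    · rcases h with h | h
      · obtain ⟨rfl, rfl⟩ : u = x ∧ v = y := by simpa using h
        exact Or.inr (Or.inl he)
      · obtain ⟨rfl, rfl⟩ : u = x ∧ v + 1 = y := by simpa [tip] using h
        exact Or.inr (Or.inr (Or.inr (by simpa using he)))
    · rcases h with h | h
      · obtain ⟨rfl, rfl⟩ : u = x ∧ v = y := by simpa using h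
        exact Or.inl he
      · obtain ⟨rfl, rfl⟩ : u + 1 = x ∧ v = y := by simpa [tip] using h
        exact Or.inr (Or.inr (Or.inl (by simpa using he)))
  exact ed_cases h ht (fun n => outer_nb (q := (x, y)) (d := 2) n)
    (fun n => outer_nb (q := (x, y)) (d := 3) n) (fun n => outer_nb (q := (x - 1, y)) (d := 2) n)
    (fun n => outer_nb (q := (x, y - 1)) (d := 3) n)

end Pool.Agent.Lib.MP_1a3fd7_lc
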