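import Pool.Agent.Lib.MP_1a3fd7_lc.EC
import Pool.Agent.Lib.MP_1a3fd7_lc.ED

/-! The Euler inequality and the structure of the extremal sets of unit edges. -/

namespace Pool.Agent.Lib.MP_1a3fd7_lc

open Relation

theorem euler_le (F : Finset UE) (hne : F.Nonempty) (h : ∀ p ∈ ends F, Touch F p) :
    2 * F.card + 4 ≤ 3 * (ends F).card := by
  have h1 := incid F
  have h2 : (ends F).card • 2 ≤ ∑ p ∈ ends F, inc F p :=
    Finset.card_nsmul_le_sum _ _ _ fun p hp => inc_ge hp (h p hp)
  have h3 := tops_bound F hne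
  rw [Fin.sum_univ_four] at h1
  rw [smul_eq_mul] at h2
  have := h3 0
  have := h3 1
  have := h3 2
  have := h3 3
  omega

/-- Two parts without a common end. -/
theorem es_split (F : Finset UE) (h : ∀ p ∈ ends F, Touch F p) (P : UE → Prop) {e f : UE}
    (he : e ∈ F) (hf : f ∈ F) (h1 : P e) (h2 : ¬ P f)
    (hd : ∀ e ∈ F, ∀ f ∈ F, ∀ p, (e.1 = p ∨ tip e = p) → (f.1 = p ∨ tip f = p) → P e → P f) :
    2 * F.card + 8 ≤ 3 * (ends F).card := by
  classical
  have key : ∀ G ⊆ F, ends G ⊆ ends F := fun G hG p hp => by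
    obtain ⟨e, he, h⟩ := mem_ends.1 hp
    exact mem_ends.2 ⟨e, hG he, h⟩
  have s1 := Finset.filter_subset P F
  have s2 := Finset.filter_subset (fun e => ¬ P e) F
  have a1 := euler_le _ ⟨e, Finset.mem_filter.2 ⟨he, h1⟩⟩ fun p hp => (h p (key _ s1 hp)).mono s1
  have a2 := euler_le (F.filter fun e => ¬ P e) ⟨f, Finset.mem_filter.2 ⟨hf, h2⟩⟩
    fun p hp => (h p (key _ s2 hp)).mono s2
  have a3 := Finset.card_filter_add_card_filter_not (s := F) P
  have a4 : Disjoint (ends (F.filter P)) (ends (F.filter fun e => ¬ P e)) :=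
    Finset.disjoint_left.2 fun p hp hp' => by
      obtain ⟨e, he, h⟩ := mem_ends.1 hp
      obtain ⟨f, hf, h'⟩ := mem_ends.1 hp'
      rw [Finset.mem_filter] at he hf
      exact hf.2 (hd e he.1 f hf.1 p h h' he.2)
  have a5 := Finset.card_le_card (Finset.union_subset (key _ s1) (key _ s2))
  rw [Finset.card_union_of_disjoint a4] at a5
  omega

open Classical in
/-- The four cells and the four edges at a point with two outer incidences. -/
theorem es_prop {a b c d r u l n : Prop} (h1 : ¬ r → a ∧ d) (h2 : ¬ u → a ∧ b) (h3 : ¬ l → b ∧ c)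
    (h4 : ¬ n → d ∧ c)
    (h : (if r then (if a then 1 else 0) + (if d then 1 else 0) else 0) +
      (if u then (if a then 1 else 0) + (if b then 1 else 0) else 0) +
      (if l then (if b then 1 else 0) + (if c then 1 else 0) else 0) +
      (if n then (if d then 1 else 0) + (if c then 1 else 0) else 0) = 2) :
    ((r → a → d → ¬ u ∧ ¬ l ∧ ¬ n) ∧ (u → a → b → ¬ r ∧ ¬ l ∧ ¬ n) ∧
      (l → b → c → ¬ r ∧ ¬ u ∧ ¬ n) ∧ (n → d → c → ¬ r ∧ ¬ u ∧ ¬ l)) ∧
    ((r → a → ¬ d) → (u → a → ¬ b) → (l → b → ¬ c) → (n → d → ¬ c) →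
      okb (decide (¬ b)) (decide (¬ a)) (decide (¬ c)) (decide (¬ d)) = true) := by
  by_cases a <;> by_cases b <;> by_cases c <;> by_cases d <;> by_cases r <;> by_cases u <;>
    by_cases l <;> by_cases n <;> simp_all [okb]

/-- The second cell beside a unit edge. -/
def esO (e : UE) : Pt := if e.2 then (e.1.1, e.1.2 - 1) else (e.1.1 - 1, e.1.2)

theorem es_side (e : UE) : (∃ d, side e.1 d = e) ∧ ∃ d, side (esO e) d = e := by
  obtain ⟨p, b⟩ := e
  cases b
  · exact ⟨⟨3, rfl⟩, 1, by simp [side, esO]⟩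
  · exact ⟨⟨2, rfl⟩, 0, by simp [side, esO]⟩

theorem es_at {e : UE} {p : Pt} (h : e.1 = p ∨ tip e = p) : e = (p, true) ∨ e = (p, false) ∨
    e = ((p.1 - 1, p.2), true) ∨ e = ((p.1, p.2 - 1), false) := by
  obtain ⟨q, b⟩ := e
  cases b <;> rcases h with rfl | rfl <;> simp [tip]

theorem es_corner (q : Pt) (d : Fin 4) : (side q d).1 ∈ corners q ∧ tip (side q d) ∈ corners q := by
  fin_cases d <;> simp [side, tip, corners]

theorem struct (S : Finset Pt) (F : Finset UE) (hS : ends F ⊆ S) (h : ∀ p ∈ S, Touch F p)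
    (h3 : 3 ≤ S.card) (heq : 3 * S.card ≤ 2 * F.card + 4) : Sol S := by
  classical
  have hne : F.Nonempty := Finset.card_pos.1 (by omega)
  have h' : ∀ p ∈ ends F, Touch F p := fun p hp => h p (hS hp)
  have e1 := euler_le F hne h'
  obtain rfl : ends F = S := Finset.eq_of_subset_of_card_le hS (by omega)
  have i1 := incid F
  have i2 : (ends F).card • 2 ≤ ∑ p ∈ ends F, inc F p :=
    Finset.card_nsmul_le_sum _ _ _ fun p hp => inc_ge hp (h p hp)
  have i3 := tops_bound F hne
  rw [Fin.sum_univ_four] at i1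
  rw [smul_eq_mul] at i2
  have t0 := i3 0
  have t1 := i3 1
  have t2 := i3 2
  have t3 := i3 3
  have hin : ∀ q, ¬ Outer F q → ∀ d, side q d ∈ F := fun q hq d => by_contra fun hs => by
    have t := tops_strict F hne (d + 1) d (Or.inr (by fin_cases d <;> rfl)) hq hs
    generalize d + 1 = d' at t
    fin_cases d' <;> simp only [Fin.zero_eta, Fin.mk_one, Fin.reduceFinMk] at t <;> omega
  have hinc : ∀ p ∈ ends F, inc F p = 2 := fun p hp => by
    refine ((Finset.sum_eq_sum_iff_of_le (g := fun p => inc F p)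
      fun p hp => inc_ge hp (h p hp)).1 ?_ p hp).symm
    rw [Finset.sum_const, smul_eq_mul]
    omega
  have hout : ∀ e, e ∉ F → Outer F e.1 ∧ Outer F (esO e) := fun e he => by
    obtain ⟨⟨d, h1⟩, d', h2⟩ := es_side e
    exact ⟨by_contra fun c => he (h1 ▸ hin _ c d), by_contra fun c => he (h2 ▸ hin _ c d')⟩
  have loc := fun p (hp : p ∈ ends F) => es_prop (a := Outer F p) (b := Outer F (p.1 - 1, p.2))
    (c := Outer F (p.1 - 1, p.2 - 1)) (d := Outer F (p.1, p.2 - 1)) (hout (p, true))
    (hout (p, false)) (hout ((p.1 - 1, p.2), true)) (hout ((p.1, p.2 - 1), false)) (by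
      have := hinc p hp
      simp only [inc, oc, if_true, Bool.false_eq_true, if_false] at this
      convert this)
  have hone : ∀ e ∈ F, Outer F e.1 → ¬ Outer F (esO e) := fun e he o1 o2 => by
    obtain ⟨f, hf, hfe⟩ := Finset.exists_mem_ne (show 1 < F.card by omega) e
    have := es_split F h (· = e) he hf rfl hfe fun e' _ f hf p p1 p2 k => by
      subst k
      obtain ⟨l1, l2, l3, l4⟩ := (loc p (mem_ends.2 ⟨_, he, p1⟩)).1
      rcases es_at p1 with rfl | rfl | rfl | rfl <;> rcases es_at p2 with rfl | rfl | rfl | rfl <;>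
        first
        | rfl
        | exact absurd hf (by simp only [l1 he o1 o2, not_false_eq_true])
        | exact absurd hf (by simp only [l2 he o1 o2, not_false_eq_true])
        | exact absurd hf (by simp only [l3 he o1 o2, not_false_eq_true])
        | exact absurd hf (by simp only [l4 he o1 o2, not_false_eq_true])
    omega
  refine ⟨(inner_fin F).toFinset, fun q hq p hp => ?_, fun p hp => ?_, fun s hs p hp p' hp' => ?_⟩
  · have hq' := hin q (by simpa using hq)
    rcases mem_corners.1 hp with rfl | rfl | rfl | rfl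
    · exact mem_ends.2 ⟨_, hq' 2, Or.inl rfl⟩
    · exact mem_ends.2 ⟨_, hq' 1, Or.inl rfl⟩
    · exact mem_ends.2 ⟨_, hq' 0, Or.inl rfl⟩
    · exact mem_ends.2 ⟨_, hq' 0, Or.inr rfl⟩
  · have := (loc p hp).2 (hone _) (hone _) (hone _) (hone _)
    simp only [Ok, Set.Finite.mem_toFinset, Set.mem_ofPred_eq]
    convert this
  · have hs' : ∀ e ∈ F, ∀ p, e.1 = p ∨ tip e = p → s p = s e.1 := fun e he p hp => by
      obtain ⟨q, hq, d, rfl⟩ : ∃ q, ¬ Outer F q ∧ ∃ d, side q d = e := by
        by_cases o : Outer F e.1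
        · exact ⟨_, hone e he o, (es_side e).2⟩
        · exact ⟨_, o, (es_side e).1⟩
      have k := hs q (by simpa using hq)
      rcases hp with rfl | rfl
      · rfl
      · rw [k _ (es_corner q d).1, k _ (es_corner q d).2]
    obtain ⟨e, he, k⟩ := mem_ends.1 hp
    obtain ⟨f, hf, k'⟩ := mem_ends.1 hp'
    by_contra c
    have := es_split F h (fun e => s e.1 = s p) he hf (hs' e he p k).symm
      (fun c' => c (c'.symm.trans (hs' f hf p' k').symm))
      fun e he f hf x x1 x2 k => (hs' f hf x x2).symm.trans ((hs' e he x x1).trans k)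
    omega

end Pool.Agent.Lib.MP_1a3fd7_lc
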