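import Pool.Agent.Lib.MP_1a3fd7_lc.C0
import Pool.Agent.Lib.MP_1a3fd7_lc.ES

namespace Pool.Agent.Lib.MP_1a3fd7_lc

open Relation

/-- If every cell has two neighbours in `J`, then `J` has at most three sides per cell. -/
theorem cl_sides_le (J : Finset Pt)
    (h : ∀ q ∈ J, ∃ d d', nb q d ∈ J ∧ nb q d' ∈ J ∧ d ≠ d') :
    (sidesF J).card ≤ 3 * J.card := by
  set A : Finset (Pt × Fin 4) := J ×ˢ Finset.univ with hA
  set B : Finset (Pt × Fin 4) := A.filter fun x => nb x.1 x.2 ∈ J with hB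
  set P : Finset (Pt × Fin 4) := B.filter fun x => x.2.val < 2 with hP
  have mA : ∀ x, x ∈ A ↔ x.1 ∈ J := fun x => by simp [hA]
  have mB : ∀ x, x ∈ B ↔ x.1 ∈ J ∧ nb x.1 x.2 ∈ J := fun x => by
    rw [hB, Finset.mem_filter, mA]
  have mP : ∀ x, x ∈ P ↔ (x.1 ∈ J ∧ nb x.1 x.2 ∈ J) ∧ x.2.val < 2 := fun x => by
    rw [hP, Finset.mem_filter, mB]
  have cA : A.card = 4 * J.card := by simp [hA, mul_comm]
  have flip1 : ∀ d : Fin 4, ¬ d.val < 2 → (d + 2).val < 2 := by decide
  have flip2 : ∀ d : Fin 4, d.val < 2 → ¬ (d + 2).val < 2 := by decide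
  have c1 : 2 * J.card ≤ B.card := by
    refine Finset.mul_card_image_le_card_of_maps_to (f := Prod.fst)
      (fun a ha => ((mB a).1 ha).1) 2 fun q hq => ?_
    obtain ⟨d, d', h1, h2, h3⟩ := h q hq
    refine Finset.one_lt_card.2 ⟨(q, d), ?_, (q, d'), ?_, fun e => h3 (congrArg Prod.snd e)⟩
    · exact Finset.mem_filter.2 ⟨(mB _).2 ⟨hq, h1⟩, rfl⟩
    · exact Finset.mem_filter.2 ⟨(mB _).2 ⟨hq, h2⟩, rfl⟩
  have c2 : (B.filter fun x => ¬ x.2.val < 2).card ≤ P.card := by
    refine Finset.card_le_card_of_injOn (fun x => (nb x.1 x.2, x.2 + 2)) (fun x hx => ?_)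
      fun x _ y _ e => ?_
    · obtain ⟨hx1, hx2⟩ := Finset.mem_filter.1 (Finset.mem_coe.1 hx)
      obtain ⟨a, b⟩ := (mB x).1 hx1
      refine Finset.mem_coe.2 ((mP _).2 ⟨⟨b, ?_⟩, flip1 _ hx2⟩)
      simp only [nb_nb]
      exact a
    · obtain ⟨e1, e2⟩ := Prod.ext_iff.1 e
      simp only at e1 e2
      have e3 : x.2 = y.2 := add_right_cancel e2
      refine Prod.ext ?_ e3
      rw [← nb_nb x.1 x.2, e1, e3, nb_nb]
  have c3 : P.card + (B.filter fun x => ¬ x.2.val < 2).card = B.card :=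
    Finset.card_filter_add_card_filter_not _
  have c4 : P ⊆ A := fun x hx => (mA x).2 ((mP x).1 hx).1.1
  have c5 : sidesF J ⊆ (A \ P).image fun x => side x.1 x.2 := by
    intro e he
    obtain ⟨q, hq, d, rfl⟩ := mem_sidesF.1 he
    by_cases c : (q, d) ∈ P
    · obtain ⟨⟨_, b⟩, c'⟩ := (mP _).1 c
      exact Finset.mem_image.2 ⟨(nb q d, d + 2), Finset.mem_sdiff.2
        ⟨(mA _).2 b, fun m => flip2 d c' ((mP _).1 m).2⟩, side_nb q d⟩
    · exact Finset.mem_image.2 ⟨(q, d), Finset.mem_sdiff.2 ⟨(mA _).2 hq, c⟩, rfl⟩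
  have c6 := (Finset.card_le_card c5).trans Finset.card_image_le
  have c7 := Finset.card_sdiff_add_card_eq_card c4
  omega

theorem leaf (J : Finset Pt) (hne : J.Nonempty) (hok : ∀ p ∈ ends (sidesF J), Ok J p)
    (ht : ∀ p ∈ ends (sidesF J), Touch (sidesF J) p) :
    ∃ q ∈ J, ∀ d d', nb q d ∈ J → nb q d' ∈ J → d = d' := by
  by_contra c
  have h1 := cl_sides_le J fun q hq => by
    by_contra c'
    exact c ⟨q, hq, fun d d' a b => by
      by_contra n
      exact c' ⟨d, d', a, b, n⟩⟩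
  have h2 := two_sides J hok
  obtain ⟨q, hq⟩ := hne
  have h3 := euler_le (sidesF J) ⟨side q 0, mem_sidesF.2 ⟨q, hq, 0, rfl⟩⟩ ht
  omega

/-- A walk from outside `K` into `K` has a step that enters `K`. -/
theorem cl_cross {I K : Finset Pt} {q q0 : Pt} (h : ReflTransGen (AdjIn I) q q0) (h0 : q0 ∈ K)
    (hq : q ∉ K) : ∃ a b, a ∉ K ∧ b ∈ K ∧ AdjIn I a b := by
  induction h using ReflTransGen.head_induction_on with
  | refl => exact absurd h0 hq
  | @head a b hab _ ih =>
    by_cases c : b ∈ K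
    · exact ⟨a, b, hq, c, hab⟩
    · exact ih c

/-- Two neighbouring cells share two corners. -/
theorem cl_corner (a : Pt) (d : Fin 4) : (corners a \ corners (nb a d)).card ≤ 2 := by
  have key : ∃ u v : Pt, corners a \ corners (nb a d) ⊆ {u, v} := by
    obtain ⟨x, y⟩ := a
    fin_cases d
    · refine ⟨(x, y), (x + 1, y), fun p hp => ?_⟩
      obtain ⟨p1, p2⟩ := p
      simp [corners, nb] at hp ⊢
      omega
    · refine ⟨(x, y), (x, y + 1), fun p hp => ?_⟩
      obtain ⟨p1, p2⟩ := p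
      simp [corners, nb] at hp ⊢
      omega
    · refine ⟨(x, y + 1), (x + 1, y + 1), fun p hp => ?_⟩
      obtain ⟨p1, p2⟩ := p
      simp [corners, nb] at hp ⊢
      omega
    · refine ⟨(x + 1, y), (x + 1, y + 1), fun p hp => ?_⟩
      obtain ⟨p1, p2⟩ := p
      simp [corners, nb] at hp ⊢
      omega
  obtain ⟨u, v, h⟩ := key
  exact (Finset.card_le_card h).trans Finset.card_le_two

/-- A connected family of `n` cells has at most `2 n + 2` corners. -/
theorem cl_corners_le {I : Finset Pt} {q0 : Pt} (h0 : q0 ∈ I)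
    (h : ∀ q ∈ I, ReflTransGen (AdjIn I) q q0) : (I.biUnion corners).card ≤ 2 * I.card + 2 := by
  have key : ∀ k : ℕ, k + 1 ≤ I.card → ∃ K ⊆ I, q0 ∈ K ∧ K.card = k + 1 ∧
      (K.biUnion corners).card ≤ 2 * K.card + 2 := by
    intro k
    induction k with
    | zero =>
      intro _
      refine ⟨{q0}, Finset.singleton_subset_iff.2 h0, Finset.mem_singleton_self _, rfl, ?_⟩
      rw [Finset.singleton_biUnion, Finset.card_singleton]
      exact Finset.card_le_four
    | succ k ih =>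
      intro hk
      obtain ⟨K, hK, hq0, hc, hb⟩ := ih (by omega)
      obtain ⟨q, hqI, hqK⟩ := Finset.exists_mem_notMem_of_card_lt_card (s := K) (t := I) (by omega)
      obtain ⟨a, b, ha, hbK, haI, _, d, rfl⟩ := cl_cross (h q hqI) hq0 hqK
      refine ⟨insert a K, Finset.insert_subset haI hK, Finset.mem_insert_of_mem hq0,
        by rw [Finset.card_insert_of_notMem ha, hc], ?_⟩
      have sub : (insert a K).biUnion corners ⊆
          (corners a \ corners (nb a d)) ∪ K.biUnion corners := by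
        intro p hp
        rw [Finset.biUnion_insert, Finset.mem_union] at hp
        rcases hp with hp | hp
        · by_cases c : p ∈ corners (nb a d)
          · exact Finset.mem_union_right _ (Finset.mem_biUnion.2 ⟨_, hbK, c⟩)
          · exact Finset.mem_union_left _ (Finset.mem_sdiff.2 ⟨hp, c⟩)
        · exact Finset.mem_union_right _ hp
      have h1 := (Finset.card_le_card sub).trans (Finset.card_union_le _ _)
      have h2 := cl_corner a d
      rw [Finset.card_insert_of_notMem ha]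
      omega
  have hpos : 0 < I.card := Finset.card_pos.2 ⟨q0, h0⟩
  obtain ⟨K, hK, _, hc, hb⟩ := key (I.card - 1) (by omega)
  have : K = I := Finset.eq_of_subset_of_card_le hK (by omega)
  rwa [this] at hb

theorem Poly.counts {S I : Finset Pt} (h : Poly S I) :
    S.card = 2 * I.card + 2 ∧ (sidesF I).card = 3 * I.card + 1 := by
  obtain ⟨q0, h0, hc⟩ := h.conn
  have he := h.ends_eq
  have h1 := two_sides I fun p hp => h.ok p (he ▸ hp)
  have h2 := euler_le (sidesF I) ⟨side q0 0, mem_sidesF.2 ⟨q0, h0, 0, rfl⟩⟩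
    fun p hp => h.touch p (he ▸ hp)
  have h3 := cl_corners_le h0 hc
  have h4 : I.biUnion corners = S := by
    rw [← he]
    ext p
    rw [Finset.mem_biUnion, mem_ends_sides]
  rw [h4] at h3
  rw [he] at h1 h2
  omega

end Pool.Agent.Lib.MP_1a3fd7_lc
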