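import Pool.Agent.Lib.MP_1a3fd7_lc.Comb

namespace Pool.Agent.Lib.MP_1a3fd7_lc

open Relation Set

/-- The closed cell. -/
def CO_cl (q : Pt) : Set (ℝ × ℝ) := Icc (q.1 : ℝ) (q.1 + 1) ×ˢ Icc (q.2 : ℝ) (q.2 + 1)

/-- An open box with integer corners. -/
def CO_box (a b c d : ℤ) : Set (ℝ × ℝ) := Ioo (a : ℝ) b ×ˢ Ioo (c : ℝ) d

/-- The centre of a cell. -/
noncomputable def CO_ctr (q : Pt) : ℝ × ℝ := ((q.1 : ℝ) + 1 / 2, (q.2 : ℝ) + 1 / 2)

theorem CO_cor {q p : Pt} (h : p ∈ corners q) : toR p ∈ CO_cl q := by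
  rcases mem_corners.1 h with rfl | rfl | rfl | rfl <;> simp [toR, CO_cl]

theorem CO_sub {I : Finset Pt} {z : ℝ × ℝ} (h : z ∈ drawing (graph I)) :
    ∃ q ∈ I, z ∈ CO_cl q := by
  obtain ⟨e, he, u, w, rfl, hz⟩ := h
  have key : ∃ q ∈ I, ∀ p ∈ s(u, w), p ∈ corners q := by
    rcases Finset.mem_union.1 he with he | he
    · obtain ⟨f, hf, h⟩ := Finset.mem_image.1 he
      obtain ⟨q, hq, d, rfl⟩ := mem_sidesF.1 hf
      refine ⟨q, hq, fun p hp => mem_corners.2 ?_⟩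
      rw [← h, ue, Sym2.mem_iff] at hp
      fin_cases d <;> simp only [side, tip] at hp <;> rcases hp with rfl | rfl <;> simp
    · obtain ⟨q, hq, h⟩ := Finset.mem_image.1 he
      refine ⟨q, hq, fun p hp => mem_corners.2 ?_⟩
      rw [← h, diag, Sym2.mem_iff] at hp
      rcases hp with rfl | rfl <;> simp
  obtain ⟨q, hq, h⟩ := key
  exact ⟨q, hq, ((convex_Icc _ _).prod (convex_Icc _ _)).segment_subset
    (CO_cor (h u (by simp))) (CO_cor (h w (by simp))) hz⟩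

theorem CO_on {I : Finset Pt} {q p : Pt} (hq : q ∈ I) (h : p ∈ corners q) :
    toR p ∈ drawing (graph I) := by
  have key : ∃ e ∈ graph I, p ∈ e := by
    have h1 : diag q ∈ graph I := Finset.mem_union_right _ (Finset.mem_image_of_mem _ hq)
    have h2 : ∀ d, ue (side q d) ∈ graph I := fun d => Finset.mem_union_left _
      (Finset.mem_image_of_mem _ (mem_sidesF.2 ⟨q, hq, d, rfl⟩))
    rcases mem_corners.1 h with rfl | rfl | rfl | rfl
    exacts [⟨_, h1, by simp [diag]⟩, ⟨_, h2 1, by simp [ue, side]⟩,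
      ⟨_, h2 0, by simp [ue, side]⟩, ⟨_, h1, by simp [diag]⟩]
  obtain ⟨e, he, hp⟩ := key
  obtain ⟨y, rfl⟩ := Sym2.mem_iff_exists.1 hp
  exact ⟨_, he, p, y, rfl, left_mem_segment _ _ _⟩

theorem CO_ctr_mem {a b c d : ℤ} {q : Pt} (h1 : a ≤ q.1) (h2 : q.1 < b) (h3 : c ≤ q.2)
    (h4 : q.2 < d) : CO_ctr q ∈ CO_box a b c d := by
  have e1 : (a : ℝ) ≤ q.1 := by exact_mod_cast h1
  have e2 : (q.1 : ℝ) + 1 ≤ b := by exact_mod_cast h2
  have e3 : (c : ℝ) ≤ q.2 := by exact_mod_cast h3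
  have e4 : (q.2 : ℝ) + 1 ≤ d := by exact_mod_cast h4
  refine ⟨⟨?_, ?_⟩, ?_, ?_⟩ <;> simp only [CO_ctr] <;> linarith

theorem CO_face {I : Finset Pt} {a b c d : ℤ} {z : ℝ × ℝ} (hz : z ∈ CO_box a b c d)
    (h : ∀ x y, a ≤ x → x < b → c ≤ y → y < d → (x, y) ∉ I) :
    CO_box a b c d ⊆ face (graph I) z := by
  refine ((convex_Ioo _ _).prod (convex_Ioo _ _)).isPreconnected.subset_connectedComponentIn hz
    fun y ⟨⟨h1, h2⟩, h3, h4⟩ hy => ?_
  obtain ⟨q, hq, ⟨h5, h6⟩, h7, h8⟩ := CO_sub hy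
  have e1 : a < q.1 + 1 := by exact_mod_cast h1.trans_le h6
  have e2 : q.1 < b := by exact_mod_cast h5.trans_lt h2
  have e3 : c < q.2 + 1 := by exact_mod_cast h3.trans_le h8
  have e4 : q.2 < d := by exact_mod_cast h7.trans_lt h4
  exact h q.1 q.2 (by omega) e2 (by omega) e4 hq

theorem CO_cell {I : Finset Pt} {q : Pt} (h : q ∉ I) :
    CO_box q.1 (q.1 + 1) q.2 (q.2 + 1) ⊆ face (graph I) (CO_ctr q) :=
  CO_face (CO_ctr_mem le_rfl (by omega) le_rfl (by omega)) fun x y _ _ _ _ => by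
    rwa [show x = q.1 by omega, show y = q.2 by omega]

theorem CO_step {I : Finset Pt} {q q' : Pt} (h : AdjOut I q q') :
    face (graph I) (CO_ctr q) = face (graph I) (CO_ctr q') := by
  obtain ⟨h1, h2, d, hd⟩ := h
  have h3 : q'.1 = q.1 ∧ (q'.2 = q.2 + 1 ∨ q'.2 = q.2 - 1) ∨
      q'.2 = q.2 ∧ (q'.1 = q.1 + 1 ∨ q'.1 = q.1 - 1) := by
    subst hd
    fin_cases d <;> simp [nb]
  refine connectedComponentIn_eq (CO_face (a := min q.1 q'.1) (b := max q.1 q'.1 + 1)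
    (c := min q.2 q'.2) (d := max q.2 q'.2 + 1)
    (CO_ctr_mem (by omega) (by omega) (by omega) (by omega)) (fun x y _ _ _ _ => ?_)
    (CO_ctr_mem (by omega) (by omega) (by omega) (by omega)))
  have h4 : x = q.1 ∧ y = q.2 ∨ x = q'.1 ∧ y = q'.2 := by omega
  rcases h4 with ⟨rfl, rfl⟩ | ⟨rfl, rfl⟩
  exacts [h1, h2]

theorem CO_ok {I : Finset Pt} {p : Pt} (h : Ok I p) :
    (∃ q ∈ I, p ∈ corners q) ∧ ∃ q ∉ I, p ∈ corners q := by
  have c1 : p ∈ corners (p.1 - 1, p.2) := by simp [mem_corners]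
  have c2 : p ∈ corners p := by simp [mem_corners]
  have c3 : p ∈ corners (p.1 - 1, p.2 - 1) := by simp [mem_corners]
  have c4 : p ∈ corners (p.1, p.2 - 1) := by simp [mem_corners]
  constructor <;> by_contra hc <;> push Not at hc
  · have a1 := fun h => hc _ h c1
    have a2 := fun h => hc _ h c2
    have a3 := fun h => hc _ h c3
    have a4 := fun h => hc _ h c4
    simp [Ok, okb, eq_false a1, eq_false a2, eq_false a3, eq_false a4] at h
  · have a1 := not_not.1 fun h => hc _ h c1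
    have a2 := not_not.1 fun h => hc _ h c2
    have a3 := not_not.1 fun h => hc _ h c3
    have a4 := not_not.1 fun h => hc _ h c4
    simp [Ok, okb, a1, a2, a3, a4] at h

theorem Poly.outer {S I : Finset Pt} (h : Poly S I) : ∃ z, z ∉ drawing (graph I) ∧
    ¬ Bornology.IsBounded (face (graph I) z) ∧ ∀ p ∈ S, toR p ∈ frontier (face (graph I) z) := by
  obtain ⟨o, ho, hp⟩ := h.out
  have key : ∀ q ∉ I, CO_box q.1 (q.1 + 1) q.2 (q.2 + 1) ⊆ face (graph I) (CO_ctr o) := by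
    intro q hq
    have h1 : ∀ q, ReflTransGen (AdjOut I) q o →
        face (graph I) (CO_ctr q) = face (graph I) (CO_ctr o) := fun q hq => by
      induction hq using ReflTransGen.head_induction_on with
      | refl => rfl
      | head h _ ih => exact (CO_step h).trans ih
    exact h1 q (hp q hq) ▸ CO_cell hq
  have hc : ∀ k : ℕ, CO_ctr (o.1, o.2 + k) ∈ face (graph I) (CO_ctr o) := fun k =>
    key _ (ho k) (CO_ctr_mem le_rfl (by omega) le_rfl (by omega))
  have hs : face (graph I) (CO_ctr o) ⊆ (drawing (graph I))ᶜ := connectedComponentIn_subset _ _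
  refine ⟨CO_ctr o, by simpa using hs (hc 0), fun hb => ?_, fun p hpS => ?_⟩
  · obtain ⟨R, hR⟩ := hb.exists_norm_le
    obtain ⟨k, hk⟩ := exists_nat_gt (R - o.2)
    have h1 := (le_abs_self _).trans ((norm_snd_le _).trans (hR _ (hc k)))
    simp only [CO_ctr] at h1
    push_cast at h1
    linarith
  · obtain ⟨⟨q, hq, h1⟩, q', hq', h2⟩ := CO_ok (h.ok p hpS)
    refine ⟨closure_mono (key q' hq') ?_, fun hi => hs (interior_subset hi) (CO_on hq h1)⟩
    rw [CO_box, closure_prod_eq, closure_Ioo (by simp), closure_Ioo (by simp)]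
    simpa [CO_cl] using CO_cor h2

end Pool.Agent.Lib.MP_1a3fd7_lc
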