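import Pool.Agent.Lib.MP_1a3fd7_lc.Comb

/-!
The sides and diagonals of a set of cells form a plane drawing.
-/

namespace Pool.Agent.Lib.MP_1a3fd7_lc

open Relation

theorem CP_fst (p : Pt) : (toR p).1 = p.1 := rfl

theorem CP_snd (p : Pt) : (toR p).2 = p.2 := rfl

theorem CP_form {I : Finset Pt} {e : Sym2 Pt} (he : e ∈ graph I) :
    ∃ (p : Pt) (a b : ℤ), (a = 0 ∨ a = 1) ∧ (b = 0 ∨ b = 1) ∧ (a = 1 ∨ b = 1) ∧
      e = s(p, (p.1 + a, p.2 + b)) := by
  rcases Finset.mem_union.1 he with h | h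
  · obtain ⟨⟨p, c⟩, -, rfl⟩ := Finset.mem_image.1 h
    cases c
    · exact ⟨p, 0, 1, Or.inl rfl, Or.inr rfl, Or.inr rfl, by simp [ue, tip]⟩
    · exact ⟨p, 1, 0, Or.inr rfl, Or.inl rfl, Or.inl rfl, by simp [ue, tip]⟩
  · obtain ⟨p, -, rfl⟩ := Finset.mem_image.1 h
    exact ⟨p, 1, 1, Or.inr rfl, Or.inr rfl, Or.inl rfl, rfl⟩

theorem CP_seg {p : Pt} {a b : ℤ} {z : ℝ × ℝ} (hz : z ∈ seg s(p, (p.1 + a, p.2 + b))) :
    z = toR p ∨ z = toR (p.1 + a, p.2 + b) ∨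
      ∃ t : ℝ, 0 < t ∧ t < 1 ∧ z.1 = p.1 + t * a ∧ z.2 = p.2 + t * b := by
  have h : z ∈ segment ℝ (toR p) (toR (p.1 + a, p.2 + b)) := by
    obtain ⟨u, w, e, h⟩ := hz
    rcases Sym2.eq_iff.1 e with ⟨e1, e2⟩ | ⟨e1, e2⟩
    · rwa [e1, e2] at *
    · rw [segment_symm, e2, e1]
      exact h
  obtain ⟨s, t, hs, ht, hst, rfl⟩ := h
  obtain rfl : s = 1 - t := by linarith
  rcases ht.eq_or_lt with h0 | h0
  · left
    subst h0
    simp
  rcases hs.eq_or_lt with h1 | h1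
  · right
    left
    obtain rfl : t = 1 := by linarith
    simp
  refine Or.inr (Or.inr ⟨t, h0, by linarith, ?_, ?_⟩)
  · simp only [CP_fst, Prod.fst_add, Prod.smul_fst, smul_eq_mul]
    push_cast
    ring
  · simp only [CP_snd, Prod.snd_add, Prod.smul_snd, smul_eq_mul]
    push_cast
    ring

theorem CP_nonint (m n : ℤ) {t : ℝ} (h0 : 0 < t) (h1 : t < 1) : (n : ℝ) ≠ m + t := by
  intro h
  have a1 : m < n := by
    have : (m : ℝ) < n := by linarith
    exact_mod_cast this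
  have a2 : n < m + 1 := by
    have : (n : ℝ) < m + 1 := by linarith
    exact_mod_cast this
  omega

theorem CP_key {m n a c : ℤ} {t s : ℝ} (ha : a = 0 ∨ a = 1) (hc : c = 0 ∨ c = 1) (t0 : 0 < t)
    (t1 : t < 1) (s0 : 0 < s) (s1 : s < 1) (h : (m : ℝ) + t * a = n + s * c) :
    m = n ∧ a = c := by
  rcases ha with rfl | rfl <;> rcases hc with rfl | rfl
  · simpa using h
  · exact absurd (by simpa using h) (CP_nonint n m s0 s1)
  · exact absurd (by simpa using h.symm) (CP_nonint m n t0 t1)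
  · simp only [Int.cast_one, mul_one] at h
    have a1 : m < n + 1 := by
      have : (m : ℝ) < n + 1 := by linarith
      exact_mod_cast this
    have a2 : n < m + 1 := by
      have : (n : ℝ) < m + 1 := by linarith
      exact_mod_cast this
    exact ⟨by omega, rfl⟩

theorem CP_not_int {p r : Pt} {a b : ℤ} {t : ℝ} (hab : a = 1 ∨ b = 1) (t0 : 0 < t) (t1 : t < 1)
    (h1 : (toR r).1 = p.1 + t * a) (h2 : (toR r).2 = p.2 + t * b) : False := by
  rcases hab with rfl | rfl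
  · exact CP_nonint p.1 r.1 t0 t1 (by simpa [CP_fst] using h1)
  · exact CP_nonint p.2 r.2 t0 t1 (by simpa [CP_snd] using h2)

theorem CP_inj {p q : Pt} (h : toR p = toR q) : p = q := by
  simpa [CP_fst, CP_snd, Prod.ext_iff] using h

theorem plane_graph (I : Finset Pt) : ∀ e ∈ graph I, ∀ f ∈ graph I, e ≠ f →
    ∀ z ∈ seg e, z ∈ seg f → ∃ p ∈ e, p ∈ f ∧ z = toR p := by
  intro e he f hf hne z hze hzf
  obtain ⟨p, a, b, ha, hb, hab, rfl⟩ := CP_form he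
  obtain ⟨q, c, d, hc, hd, hcd, rfl⟩ := CP_form hf
  have ends : ∀ r : Pt, z = toR r → r ∈ s(q, (q.1 + c, q.2 + d)) := by
    rintro r rfl
    rcases CP_seg hzf with h | h | ⟨s, s0, s1, h1, h2⟩
    · rw [CP_inj h]
      exact Sym2.mem_mk_left _ _
    · rw [CP_inj h]
      exact Sym2.mem_mk_right _ _
    · exact (CP_not_int hcd s0 s1 h1 h2).elim
  rcases CP_seg hze with h | h | ⟨t, t0, t1, h1, h2⟩
  · exact ⟨_, Sym2.mem_mk_left _ _, ends _ h, h⟩
  · exact ⟨_, Sym2.mem_mk_right _ _, ends _ h, h⟩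
  rcases CP_seg hzf with h | h | ⟨s, s0, s1, g1, g2⟩
  · subst h
    exact (CP_not_int hab t0 t1 h1 h2).elim
  · subst h
    exact (CP_not_int hab t0 t1 h1 h2).elim
  obtain ⟨e1, e2⟩ := CP_key ha hc t0 t1 s0 s1 (h1.symm.trans g1)
  obtain ⟨e3, e4⟩ := CP_key hb hd t0 t1 s0 s1 (h2.symm.trans g2)
  exact absurd (by rw [Prod.ext e1 e3, e2, e4]) hne

end Pool.Agent.Lib.MP_1a3fd7_lc
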