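import Pool.Agent.Lib.MP_1a3fd7_lc.CD
import Pool.Agent.Lib.MP_1a3fd7_lc.CP
import Pool.Agent.Lib.MP_1a3fd7_lc.CO

namespace Pool.Agent.Lib.MP_1a3fd7_lc

open Relation

open Classical in
theorem sparse_of_degen (E : Finset (Sym2 Pt)) (hd : ∀ e ∈ E, ¬ e.IsDiag)
    (h : ∀ X : Finset Pt, X.Nonempty → ∃ w ∈ X, (X.filter fun u => s(u, w) ∈ E).card ≤ 2)
    (X : Finset Pt) (hX : 2 ≤ X.card) :
    (E.filter fun e => ∀ p ∈ e, p ∈ X).card + 3 ≤ 2 * X.card := by
  have key : ∀ (n : ℕ) (X : Finset Pt), X.card = n →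
      (E.filter fun e => ∀ p ∈ e, p ∈ X).card + 3 ≤ 2 * n ∨
        (n ≤ 1 ∧ (E.filter fun e => ∀ p ∈ e, p ∈ X).card = 0) := fun n => by
    induction n with
    | zero =>
      intro X h0
      refine .inr ⟨Nat.zero_le _, Finset.card_eq_zero.2 (Finset.filter_eq_empty_iff.2
        fun e _ he => ?_)⟩
      simpa [Finset.card_eq_zero.1 h0] using he _ e.out_fst_mem
    | succ n ih =>
      intro X h0
      obtain ⟨w, hw, h1⟩ := h X (Finset.card_pos.1 (by omega))
      have h2 : (X.erase w).card = n := by rw [Finset.card_erase_of_mem hw, h0]; rfl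
      have h3 : (X.filter fun u => s(u, w) ∈ E).card ≤ n := h2 ▸ Finset.card_le_card fun u hu =>
        Finset.mem_erase.2 ⟨fun e => hd _ (Finset.mem_filter.1 hu).2 (Sym2.mk_isDiag_iff.2 e),
          (Finset.mem_filter.1 hu).1⟩
      have h4 : (E.filter fun e => ∀ p ∈ e, p ∈ X) ⊆ (E.filter fun e => ∀ p ∈ e, p ∈ X.erase w) ∪
          (X.filter fun u => s(u, w) ∈ E).image fun u => s(u, w) := fun e he => by
        obtain ⟨a1, a2⟩ := Finset.mem_filter.1 he
        by_cases a3 : w ∈ e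
        · obtain ⟨u, rfl⟩ := Sym2.mem_iff_exists.1 a3
          rw [Sym2.eq_swap] at a1 a2 ⊢
          exact Finset.mem_union_right _ (Finset.mem_image_of_mem _
            (Finset.mem_filter.2 ⟨a2 u (Sym2.mem_mk_left _ _), a1⟩))
        · exact Finset.mem_union_left _ (Finset.mem_filter.2 ⟨a1, fun p hp =>
            Finset.mem_erase.2 ⟨fun e => a3 (e ▸ hp), a2 p hp⟩⟩)
      have h5 := (Finset.card_le_card h4).trans ((Finset.card_union_le _ _).trans
        (Nat.add_le_add_left Finset.card_image_le _))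
      have h6 := ih _ h2
      omega
  have := key _ X rfl
  omega

theorem cm_diag_inj : Function.Injective diag := fun q q' h => by
  obtain ⟨x, y⟩ := q
  obtain ⟨x', y'⟩ := q'
  simp [diag] at h ⊢
  omega

theorem cm_disj (I : Finset Pt) : Disjoint ((sidesF I).image ue) (I.image diag) := by
  refine Finset.disjoint_left.2 fun e h1 h2 => ?_
  obtain ⟨⟨⟨x, y⟩, b⟩, -, rfl⟩ := Finset.mem_image.1 h1
  obtain ⟨⟨x', y'⟩, -, h⟩ := Finset.mem_image.1 h2
  cases b <;> simp [ue, tip, diag] at h <;> omega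

theorem cm_len_ue (e : UE) : len (ue e) = 1 := by
  obtain ⟨⟨x, y⟩, b⟩ := e
  cases b <;> simp [len, ue, tip]

theorem cm_len_diag (q : Pt) : len (diag q) = √2 := by
  simp [len, diag, one_add_one_eq_two]

theorem Poly.complete {S I : Finset Pt} (h : Poly S I) :
    OuterLaman S (graph I) ∧ weight (graph I) = 3 * I.card + 1 + √2 * I.card := by
  have h1 : ∀ e ∈ graph I, ¬ e.IsDiag ∧ ∀ p ∈ e, p ∈ S := fun e he => by
    rcases Finset.mem_union.1 he with he | he
    · obtain ⟨f, hf, rfl⟩ := Finset.mem_image.1 he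
      refine ⟨?_, fun p hp => h.ends_eq ▸ mem_ends.2 ⟨f, hf, ?_⟩⟩
      · obtain ⟨⟨x, y⟩, b⟩ := f
        cases b <;> simp [ue, tip]
      · exact (Sym2.mem_iff.1 hp).imp Eq.symm Eq.symm
    · obtain ⟨q, hq, rfl⟩ := Finset.mem_image.1 he
      exact ⟨by simp [diag, Prod.ext_iff], fun p hp => h.cor q hq (mem_corners.2
        ((Sym2.mem_iff.1 hp).imp_right fun a => .inr (.inr a)))⟩
  obtain ⟨c1, c2⟩ := h.counts
  refine ⟨⟨h1, plane_graph I, h.outer, ?_, fun X _ hX => sparse_of_degen _ (fun e he => (h1 e he).1)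
    (degen I (h.ends_eq.symm ▸ h.ok) (h.ends_eq.symm ▸ h.touch)) X hX⟩, ?_⟩
  · rw [graph, Finset.card_union_of_disjoint (cm_disj I),
      Finset.card_image_of_injective _ fun _ _ => ue_inj,
      Finset.card_image_of_injective _ cm_diag_inj]
    omega
  · rw [weight, graph, Finset.sum_union (cm_disj I), Finset.sum_image fun _ _ _ _ => ue_inj,
      Finset.sum_image cm_diag_inj.injOn]
    simp only [cm_len_ue, cm_len_diag, Finset.sum_const, nsmul_eq_mul, c2]
    push_cast
    ring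

end Pool.Agent.Lib.MP_1a3fd7_lc
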