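import Pool.Agent.Lib.MP_1a3fd7_lc.Defs

/-!
Cells, unit edges, outer cells and tree polyominoes. A cell is named by its lower left corner.
A unit edge is a pair (p, b): from p to the right if b is true, from p upwards if b is false.
-/

namespace Pool.Agent.Lib.MP_1a3fd7_lc

open Relation

/-- Unit edges. -/
abbrev UE : Type := Pt × Bool

/-- The second end of a unit edge. -/
def tip (e : UE) : Pt := if e.2 then (e.1.1 + 1, e.1.2) else (e.1.1, e.1.2 + 1)

/-- A unit edge as an edge. -/
def ue (e : UE) : Sym2 Pt := s(e.1, tip e)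

/-- The diagonal of a cell. -/
def diag (q : Pt) : Sym2 Pt := s(q, (q.1 + 1, q.2 + 1))

/-- The neighbour of a cell in the direction up, right, down, left. -/
def nb (q : Pt) : Fin 4 → Pt :=
  ![(q.1, q.2 + 1), (q.1 + 1, q.2), (q.1, q.2 - 1), (q.1 - 1, q.2)]

/-- The side of a cell in the direction up, right, down, left. -/
def side (q : Pt) : Fin 4 → UE :=
  ![((q.1, q.2 + 1), true), ((q.1 + 1, q.2), false), (q, true), (q, false)]

/-- The corners of a cell. -/
def corners (q : Pt) : Finset Pt := {q, (q.1 + 1, q.2), (q.1, q.2 + 1), (q.1 + 1, q.2 + 1)}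

/-- The ends of a set of unit edges. -/
def ends (F : Finset UE) : Finset Pt := F.image Prod.fst ∪ F.image tip

/-- A step between cells across a side that is not in `F`. -/
def Free (F : Finset UE) (q q' : Pt) : Prop := ∃ d, q' = nb q d ∧ side q d ∉ F

/-- The cell is joined by free steps to a cell above all of `F`. -/
def Outer (F : Finset UE) (q : Pt) : Prop :=
  ∃ q', ReflTransGen (Free F) q q' ∧ ∀ e ∈ F, e.1.2 < q'.2

/-- One of the four cells at the point is outer. -/
def Touch (F : Finset UE) (p : Pt) : Prop :=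
  Outer F p ∨ Outer F (p.1 - 1, p.2) ∨ Outer F (p.1 - 1, p.2 - 1) ∨ Outer F (p.1, p.2 - 1)

/-- Every point has even degree in `z`. -/
def EvenSet (z : Finset UE) : Prop :=
  ∀ p, Even ((z.filter fun e => e.1 = p).card + (z.filter fun e => tip e = p).card)

open Classical in
/-- The sides in `F` of inner cells in the direction `d`. -/
noncomputable def tops (F : Finset UE) (d : Fin 4) : Finset UE :=
  F.filter fun e => ∃ q, ¬ Outer F q ∧ side q d = e

open Classical in
/-- The number of outer cells beside an edge of `F` (0 for other edges). -/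
noncomputable def oc (F : Finset UE) (e : UE) : ℕ :=
  if e ∈ F then (if Outer F e.1 then 1 else 0) +
    (if Outer F (if e.2 then (e.1.1, e.1.2 - 1) else (e.1.1 - 1, e.1.2)) then 1 else 0) else 0

/-- The number of outer incidences at a point. -/
noncomputable def inc (F : Finset UE) (p : Pt) : ℕ :=
  oc F (p, true) + oc F (p, false) + oc F ((p.1 - 1, p.2), true) + oc F ((p.1, p.2 - 1), false)

/-- One, three or two adjacent cells of the four. -/
def okb (nw ne sw se : Bool) : Bool :=
  (nw != ne).toNat + (ne != se).toNat + (se != sw).toNat + (sw != nw).toNat == 2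

/-- The pattern of `I` at the point `p` is allowed. -/
def Ok (I : Finset Pt) (p : Pt) : Prop :=
  okb (decide ((p.1 - 1, p.2) ∈ I)) (decide (p ∈ I)) (decide ((p.1 - 1, p.2 - 1) ∈ I))
    (decide ((p.1, p.2 - 1) ∈ I)) = true

/-- What soundness extracts from a light graph. -/
def Sol (S : Finset Pt) : Prop :=
  ∃ I : Finset Pt, (∀ q ∈ I, corners q ⊆ S) ∧ (∀ p ∈ S, Ok I p) ∧
    ∀ s : Pt → Bool, (∀ q ∈ I, ∀ p ∈ corners q, s p = s q) → ∀ p ∈ S, ∀ p' ∈ S, s p = s p'

/-- A step between cells of `I`. -/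
def AdjIn (I : Finset Pt) (q q' : Pt) : Prop := q ∈ I ∧ q' ∈ I ∧ ∃ d, q' = nb q d

/-- A step between cells outside `I`. -/
def AdjOut (I : Finset Pt) (q q' : Pt) : Prop := q ∉ I ∧ q' ∉ I ∧ ∃ d, q' = nb q d

/-- `I` is a tree polyomino with vertex set `S`. -/
structure Poly (S I : Finset Pt) : Prop where
  cor : ∀ q ∈ I, corners q ⊆ S
  ok : ∀ p ∈ S, Ok I p
  conn : ∃ q0 ∈ I, ∀ q ∈ I, ReflTransGen (AdjIn I) q q0
  out : ∃ o : Pt, (∀ k : ℕ, (o.1, o.2 + k) ∉ I) ∧ ∀ q ∉ I, ReflTransGen (AdjOut I) q o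

/-- The sides of the cells of `I`. -/
def sidesF (I : Finset Pt) : Finset UE := I.biUnion fun q => Finset.univ.image (side q)

/-- The sides and one diagonal of every cell of `I`. -/
def graph (I : Finset Pt) : Finset (Sym2 Pt) := (sidesF I).image ue ∪ I.image diag

theorem nb_nb (q : Pt) (d : Fin 4) : nb (nb q d) (d + 2) = q := by
  fin_cases d <;> simp [nb]

theorem side_nb (q : Pt) (d : Fin 4) : side (nb q d) (d + 2) = side q d := by
  fin_cases d <;> simp [nb, side]

theorem side_inj (d : Fin 4) {q q' : Pt} (h : side q d = side q' d) : q = q' := by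
  fin_cases d <;> simpa [side, Prod.ext_iff] using h

theorem Free.symm {F : Finset UE} {q q' : Pt} (h : Free F q q') : Free F q' q := by
  obtain ⟨d, rfl, h⟩ := h
  exact ⟨d + 2, (nb_nb q d).symm, by rwa [side_nb]⟩

theorem Outer.of_free {F : Finset UE} {q q' : Pt} (h : Free F q q') (h' : Outer F q') :
    Outer F q := by
  obtain ⟨r, h1, h2⟩ := h'
  exact ⟨r, ReflTransGen.head h h1, h2⟩

theorem outer_nb {F : Finset UE} {q : Pt} {d : Fin 4} (h : side q d ∉ F) :
    Outer F (nb q d) ↔ Outer F q :=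
  ⟨Outer.of_free ⟨d, rfl, h⟩, Outer.of_free (Free.symm ⟨d, rfl, h⟩)⟩

theorem Outer.mono {F G : Finset UE} (h : G ⊆ F) {q : Pt} (hq : Outer F q) : Outer G q := by
  obtain ⟨r, h1, h2⟩ := hq
  refine ⟨r, ?_, fun e he => h2 e (h he)⟩
  clear h2
  induction h1 with
  | refl => exact ReflTransGen.refl
  | tail _ hb ih =>
    obtain ⟨d, e, n⟩ := hb
    exact ih.tail ⟨d, e, fun m => n (h m)⟩

theorem Touch.mono {F G : Finset UE} (h : G ⊆ F) {p : Pt} (hp : Touch F p) : Touch G p :=
  hp.imp (Outer.mono h) (Or.imp (Outer.mono h) (Or.imp (Outer.mono h) (Outer.mono h)))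

theorem mem_ends {F : Finset UE} {p : Pt} : p ∈ ends F ↔ ∃ e ∈ F, e.1 = p ∨ tip e = p := by
  simp [ends, and_or_left, exists_or]

theorem mem_sidesF {I : Finset Pt} {e : UE} : e ∈ sidesF I ↔ ∃ q ∈ I, ∃ d, side q d = e := by
  simp [sidesF]

theorem mem_corners {q p : Pt} : p ∈ corners q ↔
    p = q ∨ p = (q.1 + 1, q.2) ∨ p = (q.1, q.2 + 1) ∨ p = (q.1 + 1, q.2 + 1) := by
  simp [corners]

theorem ue_inj {e f : UE} (h : ue e = ue f) : e = f := by
  obtain ⟨⟨x, y⟩, b⟩ := e
  obtain ⟨⟨x', y'⟩, b'⟩ := f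
  cases b <;> cases b' <;> simp [ue, tip] at h ⊢ <;> omega

/-- A cell whose column has no horizontal edge above it is outer. -/
theorem outer_of_col {F : Finset UE} {q : Pt} (h : ∀ y, q.2 < y → ((q.1, y), true) ∉ F) :
    Outer F q := by
  have key : ∀ k : ℕ, ReflTransGen (Free F) q (q.1, q.2 + k) := by
    intro k
    induction k with
    | zero => simpa using ReflTransGen.refl
    | succ k ih =>
      refine ih.tail ⟨0, by simp [nb, add_assoc], ?_⟩
      simpa [side] using h (q.2 + k + 1) (by omega)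
  obtain ⟨M, hM⟩ := (F.image fun e => e.1.2).bddAbove
  refine ⟨_, key (M + 1 - q.2).toNat, fun e he => ?_⟩
  have := hM (Finset.mem_coe.2 (Finset.mem_image_of_mem (fun e : UE => e.1.2) he))
  simp only at this ⊢
  omega

/-- Inner cells lie in a box. -/
theorem inner_bdd (F : Finset UE) : ∃ R : ℤ, ∀ q, ¬ Outer F q → |q.1| ≤ R ∧ |q.2| ≤ R := by
  obtain ⟨M, hM⟩ := (F.image fun e => |e.1.1| + |e.1.2|).bddAbove
  have hb : ∀ e ∈ F, |e.1.1| + |e.1.2| ≤ M := fun e he =>
    hM (Finset.mem_coe.2 (Finset.mem_image_of_mem (fun e : UE => |e.1.1| + |e.1.2|) he))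
  have h1 : ∀ q : Pt, M < |q.1| ∨ M < q.2 → Outer F q := fun q hq => outer_of_col fun y hy hm => by
    have := hb _ hm
    have a1 := abs_nonneg q.1
    have a2 := le_abs_self y
    have a3 := abs_nonneg y
    simp only at this
    omega
  refine ⟨M + 1, fun q hq => ⟨by by_contra c; exact hq (h1 q (by omega)), ?_⟩⟩
  by_contra c
  by_cases c2 : M < q.2
  · exact hq (h1 q (Or.inr c2))
  have c3 : q.2 < -M - 1 := by
    rcases abs_cases q.2 with a | a <;> omega
  have key : ∀ k : ℕ, Outer F (q.1 + k, q.2) → Outer F q := by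
    intro k
    induction k with
    | zero => simp
    | succ k ih =>
      intro h
      refine ih (Outer.of_free ⟨1, by simp [nb, add_assoc], fun hm => ?_⟩ h)
      have := hb _ hm
      have a1 := abs_nonneg (q.1 + k + 1)
      have a2 := neg_abs_le q.2
      simp only [side, Matrix.cons_val_one, Matrix.cons_val_zero] at this
      omega
  refine hq (key (M + 1 - q.1).toNat (h1 _ (Or.inl ?_)))
  have := le_abs_self (q.1 + ((M + 1 - q.1).toNat : ℕ))
  simp only
  omega

theorem inner_fin (F : Finset UE) : {q | ¬ Outer F q}.Finite := by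
  obtain ⟨R, h⟩ := inner_bdd F
  refine ((Set.finite_Icc (-R) R).prod (Set.finite_Icc (-R) R)).subset fun q hq => ?_
  obtain ⟨a, b⟩ := h q hq
  exact ⟨abs_le.1 a, abs_le.1 b⟩

end Pool.Agent.Lib.MP_1a3fd7_lc
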