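import Mathlib

/-!
Outerplane Laman graphs on sets of integer points and their weight.
-/

namespace Pool.Agent.Lib.MP_1a3fd7_lc

/-- Integer points of the plane. -/
abbrev Pt : Type := ℤ × ℤ

/-- An integer point as a point of the real plane. -/
def toR (p : Pt) : ℝ × ℝ := ((p.1 : ℝ), (p.2 : ℝ))

/-- The closed straight segment of an edge. -/
def seg (e : Sym2 Pt) : Set (ℝ × ℝ) := {z | ∃ u w, e = s(u, w) ∧ z ∈ segment ℝ (toR u) (toR w)}

/-- The Euclidean length of an edge. -/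
noncomputable def len (e : Sym2 Pt) : ℝ :=
  Sym2.lift ⟨fun u w => √(((u.1 : ℝ) - w.1) ^ 2 + ((u.2 : ℝ) - w.2) ^ 2),
    fun u w => congrArg Real.sqrt (by ring)⟩ e

/-- The union of the segments of a drawing. -/
def drawing (E : Finset (Sym2 Pt)) : Set (ℝ × ℝ) := {z | ∃ e ∈ E, z ∈ seg e}

/-- The face of the drawing that contains `z`. -/
def face (E : Finset (Sym2 Pt)) (z : ℝ × ℝ) : Set (ℝ × ℝ) := connectedComponentIn (drawing E)ᶜ z

open Classical in
/-- `E` is an outerplane Laman graph on `S`. -/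
structure OuterLaman (S : Finset Pt) (E : Finset (Sym2 Pt)) : Prop where
  edges : ∀ e ∈ E, ¬ e.IsDiag ∧ ∀ p ∈ e, p ∈ S
  plane : ∀ e ∈ E, ∀ f ∈ E, e ≠ f → ∀ z ∈ seg e, z ∈ seg f → ∃ p ∈ e, p ∈ f ∧ z = toR p
  outer : ∃ z, z ∉ drawing E ∧ ¬ Bornology.IsBounded (face E z) ∧
    ∀ p ∈ S, toR p ∈ frontier (face E z)
  count : E.card + 3 = 2 * S.card
  sparse : ∀ X ⊆ S, 2 ≤ X.card → (E.filter fun e => ∀ p ∈ e, p ∈ X).card + 3 ≤ 2 * X.card

/-- The weight of a drawing. -/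
noncomputable def weight (E : Finset (Sym2 Pt)) : ℝ := ∑ e ∈ E, len e

end Pool.Agent.Lib.MP_1a3fd7_lc
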