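import Pool.Agent.Lib.MP_1a3fd7_lc.Comb

namespace Pool.Agent.Lib.MP_1a3fd7_lc

open Relation

theorem indep (F G : Finset UE) (hG : G ⊆ F) (hne : F.Nonempty)
    (h : ∀ z ⊆ G, EvenSet z → z = ∅) : G.card + 1 ≤ (ends F).card := by
  obtain ⟨e₀, h₀⟩ := hne
  let v : Option G → ends F → ZMod 2 := fun o p => o.elim (if e₀.1 = p then 1 else 0) fun e =>
    (if e.1.1 = p then 1 else 0) + if tip e.1 = p then 1 else 0
  have s1 : ∀ q ∈ ends F, ∑ p : ends F, (if q = p then 1 else 0 : ZMod 2) = 1 := fun q hq => by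
    rw [Finset.sum_coe_sort (ends F) fun p => (if q = p then 1 else 0 : ZMod 2), Finset.sum_ite_eq,
      if_pos hq]
  have hv : LinearIndependent (ZMod 2) v := Fintype.linearIndependent_iff.2 fun c hc => by
    have h1 : ∀ p : ends F, c none * (if e₀.1 = p then 1 else 0) + ∑ e : G, c (some e) *
        ((if e.1.1 = p then 1 else 0) + if tip e.1 = p then 1 else 0) = 0 := fun p => by
      have h2 := congrFun hc p
      rwa [Finset.sum_apply, Fintype.sum_option] at h2
    have h2 : c none = 0 := by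
      have h3 := Finset.sum_eq_zero (s := Finset.univ) fun p _ => h1 p
      rw [Finset.sum_add_distrib, Finset.sum_comm, ← Finset.mul_sum,
        s1 _ (mem_ends.2 ⟨e₀, h₀, .inl rfl⟩), mul_one, Finset.sum_eq_zero fun e _ => by
          rw [← Finset.mul_sum, Finset.sum_add_distrib, s1 _ (mem_ends.2 ⟨e, hG e.2, .inl rfl⟩),
            s1 _ (mem_ends.2 ⟨e, hG e.2, .inr rfl⟩), CharTwo.add_self_eq_zero, mul_zero]] at h3
      rwa [add_zero] at h3
    have h3 : ∀ x : ZMod 2, x ≠ 0 → x = 1 := by decide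
    let z := G.filter fun e => ∃ he : e ∈ G, c (some ⟨e, he⟩) ≠ 0
    have h4 : z = ∅ := h z (Finset.filter_subset _ _) fun p => by
      by_cases hp : p ∈ ends F
      · have h5 := h1 ⟨p, hp⟩
        rw [h2, zero_mul, zero_add] at h5
        rw [← ZMod.natCast_eq_zero_iff_even, ← h5, Nat.cast_add, Finset.card_filter,
          Finset.card_filter, Nat.cast_sum, Nat.cast_sum, ← Finset.sum_add_distrib,
          Finset.sum_filter, ← Finset.sum_coe_sort G]
        refine Finset.sum_congr rfl fun e _ => ?_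
        by_cases he : c (some e) = 0
        · rw [he, zero_mul, if_neg fun k => k.2 he]
        · rw [h3 _ he, one_mul, if_pos ⟨e.2, he⟩]
          simp only [Nat.cast_ite, Nat.cast_one, Nat.cast_zero]
      · rw [Finset.filter_false_of_mem fun e he k => hp (mem_ends.2
          ⟨e, hG (Finset.mem_filter.1 he).1, .inl k⟩), Finset.filter_false_of_mem fun e he k =>
          hp (mem_ends.2 ⟨e, hG (Finset.mem_filter.1 he).1, .inr k⟩)]
        exact ⟨0, rfl⟩
    rintro (_ | e)
    · exact h2
    · exact not_not.1 fun he => Finset.notMem_empty e.1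
        (h4 ▸ Finset.mem_filter.2 ⟨e.2, e.2, he⟩)
  simpa using hv.fintype_card_le_finrank

end Pool.Agent.Lib.MP_1a3fd7_lc
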