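import Pool.Agent.Lib.MP_1a3fd7_lc.Comb

namespace Pool.Agent.Lib.MP_1a3fd7_lc

open Relation

/-- The number of horizontal edges of `z` in the column `x` above the height `y`. -/
def eb_cnt (z : Finset UE) (x y : ℤ) : ℕ :=
  (z.filter fun e => e.2 = true ∧ e.1.1 = x ∧ y < e.1.2).card

/-- The indicator of `z`. -/
def eb_ind (z : Finset UE) (e : UE) : ℕ := if e ∈ z then 1 else 0

theorem eb_card_two (z : Finset UE) (P : UE → Prop) [DecidablePred P] (a b : UE) (hab : a ≠ b)
    (h : ∀ e, P e ↔ e = a ∨ e = b) : (z.filter P).card = eb_ind z a + eb_ind z b := by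
  have e1 : z.filter P = (z.filter fun e => e = a) ∪ (z.filter fun e => e = b) := by
    ext e
    simp only [Finset.mem_filter, Finset.mem_union, h]
    tauto
  have d : Disjoint (z.filter fun e => e = a) (z.filter fun e => e = b) := by
    rw [Finset.disjoint_left]
    intro e h1 h2
    exact hab ((Finset.mem_filter.1 h1).2.symm.trans (Finset.mem_filter.1 h2).2)
  rw [e1, Finset.card_union_of_disjoint d, Finset.filter_eq', Finset.filter_eq']
  unfold eb_ind
  split_ifs <;> simp

theorem eb_step (z : Finset UE) (x y : ℤ) :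
    eb_cnt z x y = eb_cnt z x (y + 1) + eb_ind z ((x, y + 1), true) := by
  have e1 : (z.filter fun e => e.2 = true ∧ e.1.1 = x ∧ y < e.1.2) =
      (z.filter fun e => e.2 = true ∧ e.1.1 = x ∧ y + 1 < e.1.2) ∪
        (z.filter fun e => e = ((x, y + 1), true)) := by
    ext ⟨⟨a, b⟩, c⟩
    simp only [Finset.mem_filter, Finset.mem_union, Prod.mk.injEq]
    constructor
    · rintro ⟨h0, h1, h2, h3⟩
      by_cases hb : b = y + 1
      · exact Or.inr ⟨h0, ⟨h2, hb⟩, h1⟩
      · exact Or.inl ⟨h0, h1, h2, by omega⟩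
    · rintro (⟨h0, h1, h2, h3⟩ | ⟨h0, ⟨h2, h3⟩, h1⟩)
      · exact ⟨h0, h1, h2, by omega⟩
      · exact ⟨h0, h1, h2, by omega⟩
  have d : Disjoint (z.filter fun e => e.2 = true ∧ e.1.1 = x ∧ y + 1 < e.1.2)
      (z.filter fun e => e = ((x, y + 1), true)) := by
    rw [Finset.disjoint_left]
    intro e h1 h2
    have h3 := (Finset.mem_filter.1 h1).2.2.2
    rw [(Finset.mem_filter.1 h2).2] at h3
    simp at h3
  unfold eb_cnt
  rw [e1, Finset.card_union_of_disjoint d, Finset.filter_eq']
  unfold eb_ind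
  split_ifs <;> simp

theorem eb_even {z : Finset UE} (hz : EvenSet z) (x y : ℤ) :
    (eb_ind z ((x + 1, y + 1), true) + eb_ind z ((x + 1, y + 1), false) +
      (eb_ind z ((x, y + 1), true) + eb_ind z ((x + 1, y), false))) % 2 = 0 := by
  have h := hz (x + 1, y + 1)
  rw [eb_card_two z _ ((x + 1, y + 1), true) ((x + 1, y + 1), false) (by simp),
    eb_card_two z _ ((x, y + 1), true) ((x + 1, y), false) (by simp)] at h
  · exact Nat.even_iff.1 h
  · rintro ⟨⟨a, b⟩, c⟩
    cases c <;> simp [tip]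
  · rintro ⟨⟨a, b⟩, c⟩
    cases c <;> simp

theorem eb_high {z : Finset UE} {y : ℤ} (h : ∀ e ∈ z, e.1.2 < y) (x : ℤ) : eb_cnt z x y = 0 := by
  unfold eb_cnt
  rw [Finset.card_eq_zero, Finset.filter_eq_empty_iff]
  intro e he hc
  have := h e he
  omega

theorem eb_row {z : Finset UE} (hz : EvenSet z) (x y : ℤ) :
    (eb_cnt z (x + 1) y + eb_cnt z x y + eb_ind z ((x + 1, y), false)) % 2 = 0 := by
  obtain ⟨M, hM⟩ := (z.image fun e => e.1.2).bddAbove
  have hb : ∀ e ∈ z, e.1.2 ≤ M := fun e he =>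
    hM (Finset.mem_coe.2 (Finset.mem_image_of_mem (fun e : UE => e.1.2) he))
  have high : ∀ y, M < y →
      (eb_cnt z (x + 1) y + eb_cnt z x y + eb_ind z ((x + 1, y), false)) % 2 = 0 := by
    intro y hy
    have h1 : ∀ e ∈ z, e.1.2 < y := fun e he => lt_of_le_of_lt (hb e he) hy
    have h2 : ((x + 1, y), false) ∉ z := fun hm => by simpa using h1 _ hm
    simp [eb_high h1, eb_ind, h2]
  have key : ∀ k : ℕ, ∀ y, M < y + k →
      (eb_cnt z (x + 1) y + eb_cnt z x y + eb_ind z ((x + 1, y), false)) % 2 = 0 := by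
    intro k
    induction k with
    | zero => intro y hy; exact high y (by simpa using hy)
    | succ k ih =>
      intro y hy
      have h1 := ih (y + 1) (by push_cast at hy; omega)
      have h2 := eb_even hz x y
      have h3 := eb_step z (x + 1) y
      have h4 := eb_step z x y
      omega
  exact key (M + 1 - y).toNat y (by omega)

theorem eb_par {a b : ℕ} {z : Finset UE} {e : UE} (h : (a + b + eb_ind z e) % 2 = 0) :
    decide (a % 2 = 1) ≠ decide (b % 2 = 1) ↔ e ∈ z := by
  unfold eb_ind at h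
  by_cases he : e ∈ z
  · simp only [he, if_true] at h
    simp only [he, iff_true, ne_eq, decide_eq_decide]
    omega
  · simp only [he, if_false] at h
    simp only [he, iff_false, ne_eq, decide_eq_decide]
    omega

theorem parity (z : Finset UE) (hz : EvenSet z) : ∃ f : Pt → Bool,
    (∀ q d, f (nb q d) ≠ f q ↔ side q d ∈ z) ∧ ∀ q, (∀ e ∈ z, e.1.2 < q.2) → f q = false := by
  refine ⟨fun q => decide (eb_cnt z q.1 q.2 % 2 = 1), ?_, fun q hq => by simp [eb_high hq]⟩
  have h0 : ∀ q : Pt, decide (eb_cnt z (nb q 0).1 (nb q 0).2 % 2 = 1) ≠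
      decide (eb_cnt z q.1 q.2 % 2 = 1) ↔ side q 0 ∈ z := by
    intro q
    have := eb_step z q.1 q.2
    refine eb_par ?_
    simp only [nb, side, Matrix.cons_val_zero]
    omega
  have h1 : ∀ q : Pt, decide (eb_cnt z (nb q 1).1 (nb q 1).2 % 2 = 1) ≠
      decide (eb_cnt z q.1 q.2 % 2 = 1) ↔ side q 1 ∈ z := by
    intro q
    refine eb_par ?_
    simpa only [nb, side, Matrix.cons_val_one, Matrix.cons_val_zero] using eb_row hz q.1 q.2
  intro q d
  fin_cases d
  · exact h0 q
  · exact h1 q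
  · have a := h0 (nb q 2)
    have b1 : nb (nb q 2) 0 = q := nb_nb q 2
    have b2 : side (nb q 2) 0 = side q 2 := side_nb q 2
    rw [b1, b2] at a
    exact ne_comm.trans a
  · have a := h1 (nb q 3)
    have b1 : nb (nb q 3) 1 = q := nb_nb q 3
    have b2 : side (nb q 3) 1 = side q 3 := side_nb q 3
    rw [b1, b2] at a
    exact ne_comm.trans a

end Pool.Agent.Lib.MP_1a3fd7_lc
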