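import Pool.Agent.Lib.MP_1a3fd7_lc.EA
import Pool.Agent.Lib.MP_1a3fd7_lc.EB

namespace Pool.Agent.Lib.MP_1a3fd7_lc

open Relation

/-- The coordinate along a direction. -/
def EC_ht (d : Fin 4) (q : Pt) : ℤ := ![q.2, q.1, -q.2, -q.1] d

/-- The coordinate across a direction. -/
def EC_tr (d : Fin 4) (q : Pt) : ℤ := ![q.1, q.2, q.1, q.2] d

theorem EC_ht_nb (d : Fin 4) (q : Pt) : EC_ht d (nb q d) = EC_ht d q + 1 := by
  fin_cases d <;> simp [EC_ht, nb] <;> ring

theorem EC_tr_nb (d : Fin 4) (q : Pt) : EC_tr d (nb q d) = EC_tr d q := by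
  fin_cases d <;> simp [EC_tr, nb]

theorem EC_tr_ne {d d' : Fin 4} (hd : d' = d + 1 ∨ d' = d + 3) (q : Pt) :
    EC_tr d (nb q d') ≠ EC_tr d q := by
  rcases hd with rfl | rfl <;> fin_cases d <;> simp [EC_tr, nb]

theorem EC_run (d : Fin 4) {S : Set Pt} (hS : S.Finite) (R : Pt → Prop)
    (hR : ∀ q ∈ S, R q → nb q d ∈ S) {w : Pt} (hw : w ∈ S) :
    ∃ t ∈ S, ¬ R t ∧ ReflTransGen (fun a b => R a ∧ b = nb a d) w t := by
  obtain ⟨t, ⟨ht, hp⟩, hm⟩ := Set.exists_max_image
    {q | q ∈ S ∧ ReflTransGen (fun a b => R a ∧ b = nb a d) w q} (EC_ht d)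
    (hS.subset fun _ h => h.1) ⟨w, hw, ReflTransGen.refl⟩
  refine ⟨t, ht, fun h => ?_, hp⟩
  have := hm (nb t d) ⟨hR t ht h, hp.tail ⟨h, rfl⟩⟩
  rw [EC_ht_nb] at this
  omega

theorem EC_line {d : Fin 4} {R : Pt → Prop} {w t : Pt}
    (h : ReflTransGen (fun a b => R a ∧ b = nb a d) w t) : EC_tr d t = EC_tr d w := by
  induction h with
  | refl => rfl
  | tail _ hb ih => rw [hb.2, EC_tr_nb, ih]

theorem EC_const {F z : Finset UE} (hz : z ⊆ F) {f : Pt → Bool}
    (hf : ∀ q d, f (nb q d) ≠ f q ↔ side q d ∈ z) {q r : Pt} (h : ReflTransGen (Free F) q r) :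
    f r = f q := by
  induction h with
  | refl => rfl
  | tail _ hb ih =>
    obtain ⟨d, rfl, hn⟩ := hb
    rw [← ih]
    by_contra c
    exact hn (hz ((hf _ d).1 c))

/-- A nonempty even subset of `F` has a cell inside, and every such cell lies in the line of a
cell inside whose side in direction `d` belongs to the subset. -/
theorem EC_top {F z : Finset UE} (hz : z ⊆ F) (he : EvenSet z) (hne : z ≠ ∅) (d : Fin 4) :
    ∃ f : Pt → Bool, (∀ q r, ReflTransGen (Free F) q r → f r = f q) ∧ (∃ w, f w = true) ∧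
      ∀ w, f w = true → ∃ t, f t = true ∧ side t d ∈ z ∧ side t d ∈ tops F d ∧
        EC_tr d t = EC_tr d w := by
  classical
  obtain ⟨f, hf, h0⟩ := parity z he
  have hin : ∀ q, f q = true → ¬ Outer F q := by
    rintro q hq ⟨r, h1, h2⟩
    have := EC_const hz hf h1
    rw [h0 r fun e he => h2 e (hz he), hq] at this
    exact Bool.false_ne_true this
  refine ⟨f, fun q r => EC_const hz hf, ?_, fun w hw => ?_⟩
  · obtain ⟨⟨p, b⟩, hp⟩ := Finset.nonempty_iff_ne_empty.2 hne
    have : ∃ c, side p c ∈ z := by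
      cases b
      · exact ⟨3, hp⟩
      · exact ⟨2, hp⟩
    obtain ⟨c, hc⟩ := this
    have h1 := (hf p c).2 hc
    cases h2 : f p
    · exact ⟨nb p c, by simpa [h2] using h1⟩
    · exact ⟨p, h2⟩
  · obtain ⟨t, ht, hn, hp⟩ := EC_run d (S := {q | f q = true})
      ((inner_fin F).subset fun q hq => hin q hq) (fun q => f (nb q d) = true)
      (fun _ _ h => h) hw
    have h1 : side t d ∈ z := (hf t d).1 (by rw [show f t = true from ht]; exact hn)
    exact ⟨t, ht, h1, Finset.mem_filter.2 ⟨hz h1, t, hin t ht, rfl⟩, EC_line hp⟩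

theorem tops_bound (F : Finset UE) (hne : F.Nonempty) (d : Fin 4) :
    F.card + 1 ≤ (ends F).card + (tops F d).card := by
  classical
  have hT : tops F d ⊆ F := Finset.filter_subset _ _
  have h1 := indep F (F \ tops F d) Finset.sdiff_subset hne fun z hz he => by
    by_contra c
    obtain ⟨f, -, ⟨w, hw⟩, h⟩ := EC_top (hz.trans Finset.sdiff_subset) he c d
    obtain ⟨t, -, h2, h3, -⟩ := h w hw
    exact (Finset.mem_sdiff.1 (hz h2)).2 h3
  have h2 := Finset.card_sdiff_add_card_eq_card hT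
  omega

theorem tops_strict (F : Finset UE) (hne : F.Nonempty) (d d' : Fin 4)
    (hd : d' = d + 1 ∨ d' = d + 3) {q : Pt} (hq : ¬ Outer F q) (hs : side q d' ∉ F) :
    F.card + 2 ≤ (ends F).card + (tops F d).card := by
  classical
  have hT : tops F d ⊆ F := Finset.filter_subset _ _
  obtain ⟨t, ht, hn, hp⟩ := EC_run d (inner_fin F) (fun a => side a d ∉ F)
    (fun a ha h c => ha ((outer_nb h).1 c)) (w := q) hq
  have htT : side t d ∈ tops F d := Finset.mem_filter.2 ⟨not_not.1 hn, t, ht, rfl⟩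
  have hfree : ReflTransGen (Free F) q t :=
    ReflTransGen.mono (r := fun a b => side a d ∉ F ∧ b = nb a d) (p := Free F)
      (fun a b h => ⟨d, h.2, h.1⟩) _ _ hp
  have h1 := indep F (F \ (tops F d).erase (side t d)) Finset.sdiff_subset hne fun z hz he => by
    by_contra c
    obtain ⟨f, hc, ⟨w, hw⟩, h⟩ := EC_top (hz.trans Finset.sdiff_subset) he c d
    have key : ∀ w, f w = true → f t = true ∧ EC_tr d t = EC_tr d w := by
      intro w hw
      obtain ⟨u, h1, h2, h3, h4⟩ := h w hw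
      have : side u d = side t d := by
        by_contra n
        exact (Finset.mem_sdiff.1 (hz h2)).2 (Finset.mem_erase.2 ⟨n, h3⟩)
      rw [← side_inj d this]
      exact ⟨h1, h4⟩
    have h2 : f q = true := (hc q t hfree).symm.trans (key w hw).1
    have h3 : f (nb q d') = true :=
      (hc q _ (ReflTransGen.single ⟨d', rfl, hs⟩)).trans h2
    exact EC_tr_ne hd q ((key _ h3).2.symm.trans (key _ h2).2)
  have h2 := Finset.card_sdiff_add_card_eq_card ((Finset.erase_subset (side t d) _).trans hT)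
  have h3 := Finset.card_erase_add_one htT
  omega

end Pool.Agent.Lib.MP_1a3fd7_lc
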