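import Pool.Agent.Lib.MP_1a3fd7_lc.CP

/-! A homeomorphism of the plane that is affine on the cells and bends all lattice lines. -/

namespace Pool.Agent.Lib.MP_1a3fd7_lc

open Finset

/-- The perturbed and scaled point. -/
def pert (N : ℤ) (p : Pt) : Pt := (N * p.1 + p.2 ^ 2, N * p.2 + 2 * p.1 ^ 2)

/-- The point lies in the box. -/
def Bx (B : ℕ) (p : Pt) : Prop := 0 ≤ p.1 ∧ p.1 < B ∧ 0 ≤ p.2 ∧ p.2 < B

/-- The set lies in the box. -/
def InBox (B : ℕ) (S : Finset Pt) : Prop := ∀ p ∈ S, Bx B p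

/-- The piecewise linear interpolation of the square on `[0, B]`. -/
noncomputable def gq (B : ℕ) (t : ℝ) : ℝ := ∑ k ∈ range B, (2 * k + 1 : ℝ) * max 0 (min 1 (t - k))

theorem gq_lip (B : ℕ) (s t : ℝ) : |gq B s - gq B t| ≤ B ^ 2 * |s - t| := by
  induction B with
  | zero => simp [gq]
  | succ B ih =>
    have h : |max 0 (min 1 (s - B)) - max 0 (min 1 (t - B))| ≤ |s - t| := by
      have a1 := le_abs_self (s - t)
      have a2 := neg_abs_le (s - t)
      have a3 := abs_nonneg (s - t)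
      rw [abs_le]
      constructor <;> simp only [max_def, min_def] <;> split_ifs <;> linarith
    have e : gq (B + 1) s - gq (B + 1) t = (gq B s - gq B t) +
        (2 * B + 1) * (max 0 (min 1 (s - B)) - max 0 (min 1 (t - B))) := by
      simp only [gq, sum_range_succ]
      ring
    have b0 : (0 : ℝ) ≤ 2 * B + 1 := by positivity
    rw [e]
    refine (abs_add_le _ _).trans ?_
    rw [abs_mul, abs_of_nonneg b0]
    have := mul_le_mul_of_nonneg_left h b0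
    push_cast
    linarith

theorem gq_eq (j B : ℕ) {t : ℝ} (h0 : 0 ≤ t) (h1 : t ≤ 1) :
    gq B (j + t) = if j < B then (j : ℝ) ^ 2 + (2 * j + 1) * t else (B : ℝ) ^ 2 := by
  induction B with
  | zero => simp [gq]
  | succ B ih =>
    rw [gq, sum_range_succ, ← gq, ih]
    rcases lt_trichotomy j B with h | rfl | h
    · have : (j : ℝ) + 1 ≤ B := by exact_mod_cast h
      rw [if_pos h, if_pos (by omega), max_eq_left (min_le_of_right_le (by linarith))]
      ring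
    · rw [if_neg (lt_irrefl _), if_pos (by omega), add_sub_cancel_left, min_eq_right h1,
        max_eq_right h0]
    · have : (B : ℝ) + 1 ≤ j := by exact_mod_cast h
      rw [if_neg (by omega), if_neg (by omega), min_eq_left (by linarith),
        max_eq_right zero_le_one]
      push_cast
      ring

theorem gq_int {B : ℕ} {j : ℤ} (a : 0 ≤ j) (b : j < B) {t : ℝ} (h0 : 0 ≤ t) (h1 : t ≤ 1) :
    gq B (j + t) = (j : ℝ) ^ 2 + (2 * j + 1) * t := by
  lift j to ℕ using a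
  have := gq_eq j B h0 h1
  rwa [if_pos (by exact_mod_cast b)] at this

theorem gp_phi {B N : ℕ} (hN : 2 * B ^ 2 < N) : ∃ Φ : ℝ × ℝ ≃ₜ ℝ × ℝ,
    ∀ z, Φ z = (N * z.1 + gq B z.2, N * z.2 + 2 * gq B z.1) := by
  have n0 : (0 : ℝ) < N := by exact_mod_cast (Nat.zero_le _).trans_lt hN
  have hN' : (2 * B ^ 2 : ℝ) < N := by exact_mod_cast hN
  have h : ApproximatesLinearOn (fun z : ℝ × ℝ => (z.1 + gq B z.2 / N, z.2 + 2 * gq B z.1 / N))
      (ContinuousLinearEquiv.refl ℝ (ℝ × ℝ) : ℝ × ℝ →L[ℝ] ℝ × ℝ) Set.univ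
      ⟨2 * B ^ 2 / N, by positivity⟩ := fun x _ y _ => by
    have a1 := (gq_lip B x.2 y.2).trans (mul_le_mul_of_nonneg_left (norm_snd_le (x - y))
      (by positivity))
    have a2 := (gq_lip B x.1 y.1).trans (mul_le_mul_of_nonneg_left (norm_fst_le (x - y))
      (by positivity))
    have a3 : 0 ≤ (B : ℝ) ^ 2 * ‖x - y‖ := by positivity
    change _ ≤ 2 * (B : ℝ) ^ 2 / N * _
    rw [div_mul_eq_mul_div]
    refine norm_prod_le_iff.2 ⟨?_, ?_⟩
    · change |x.1 + gq B x.2 / N - (y.1 + gq B y.2 / N) - (x.1 - y.1)| ≤ _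
      rw [show x.1 + gq B x.2 / N - (y.1 + gq B y.2 / N) - (x.1 - y.1) =
        (gq B x.2 - gq B y.2) / N by ring, abs_div, abs_of_pos n0]
      exact div_le_div_of_nonneg_right (by linarith) n0.le
    · change |x.2 + 2 * gq B x.1 / N - (y.2 + 2 * gq B y.1 / N) - (x.2 - y.2)| ≤ _
      rw [show x.2 + 2 * gq B x.1 / N - (y.2 + 2 * gq B y.1 / N) - (x.2 - y.2) =
        2 * (gq B x.1 - gq B y.1) / N by ring, abs_div, abs_of_pos n0, abs_mul, abs_two]
      exact div_le_div_of_nonneg_right (by linarith) n0.le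
  refine ⟨(h.toHomeomorph _ (Or.inr ?_)).trans (Homeomorph.smulOfNeZero (N : ℝ) n0.ne'),
    fun z => ?_⟩
  · refine lt_of_lt_of_eq (b := 1) (NNReal.coe_lt_coe.1 ((div_lt_one n0).2 hN')) ?_
    simp
  · change (N : ℝ) • (z.1 + gq B z.2 / N, z.2 + 2 * gq B z.1 / N) = _
    refine Prod.ext ?_ ?_ <;> simp only [Prod.smul_mk, smul_eq_mul] <;> field_simp

theorem gp_seg (u w : Pt) : seg s(u, w) = segment ℝ (toR u) (toR w) := by
  refine Set.ext fun z => ⟨?_, fun h => ⟨u, w, rfl, h⟩⟩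
  rintro ⟨u', w', e, h⟩
  rcases Sym2.eq_iff.1 e with ⟨rfl, rfl⟩ | ⟨rfl, rfl⟩
  · exact h
  · rwa [segment_symm]

/-- The homeomorphism maps points of the box and short edges as `pert` does. -/
theorem exists_phi {B N : ℕ} (hN : 2 * B ^ 2 < N) : ∃ Φ : ℝ × ℝ ≃ₜ ℝ × ℝ,
    (∀ p, Bx B p → Φ (toR p) = toR (pert N p)) ∧
    ∀ (p : Pt) (a b : ℤ), Bx B p → (a = 0 ∨ a = 1) → (b = 0 ∨ b = 1) →
      seg (s(p, (p.1 + a, p.2 + b)).map (pert N)) = Φ '' seg s(p, (p.1 + a, p.2 + b)) := by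
  obtain ⟨Φ, h⟩ := gp_phi hN
  refine ⟨Φ, fun p hp => ?_, fun p a b hp ha hb => ?_⟩
  · have a1 := gq_int hp.1 hp.2.1 le_rfl zero_le_one
    have a2 := gq_int hp.2.2.1 hp.2.2.2 le_rfl zero_le_one
    rw [add_zero] at a1 a2
    rw [h]
    refine Prod.ext ?_ ?_ <;> simp only [CP_fst, CP_snd, pert, a1, a2] <;> push_cast <;> ring
  · rw [Sym2.map_mk, gp_seg, gp_seg, segment_eq_image, segment_eq_image, Set.image_image]
    refine Set.image_congr fun t ht => ?_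
    have k : ∀ c : ℤ, c = 0 ∨ c = 1 → 0 ≤ t * c ∧ t * c ≤ 1 ∧ (c : ℝ) ^ 2 = c := by
      rintro c (rfl | rfl) <;> simp [ht.1, ht.2]
    have a1 := gq_int hp.1 hp.2.1 (k a ha).1 (k a ha).2.1
    have a2 := gq_int hp.2.2.1 hp.2.2.2 (k b hb).1 (k b hb).2.1
    have e : (1 - t) • toR p + t • toR (p.1 + a, p.2 + b) = (p.1 + t * a, p.2 + t * b) := by
      refine Prod.ext ?_ ?_ <;> simp only [CP_fst, CP_snd, Prod.fst_add, Prod.snd_add,
        Prod.smul_fst, Prod.smul_snd, smul_eq_mul] <;> push_cast <;> ring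
    rw [h, e, a1, a2]
    refine Prod.ext ?_ ?_ <;> simp only [CP_fst, CP_snd, Prod.fst_add, Prod.snd_add,
      Prod.smul_fst, Prod.smul_snd, smul_eq_mul, pert] <;> push_cast
    · linear_combination t * (k b hb).2.2
    · linear_combination 2 * t * (k a ha).2.2

/-- Lengths change by a factor close to `N`. -/
theorem gp_len {B N : ℕ} (hN : 8 * B ≤ N) (e : Sym2 Pt) (he : ∀ p ∈ e, Bx B p) :
    ((N : ℝ) - 4 * B) * len e ≤ len (e.map (pert N)) ∧
      len (e.map (pert N)) ≤ (N + 4 * B) * len e := by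
  induction e using Sym2.ind with
  | h u w =>
    obtain ⟨u1, u2, u3, u4⟩ := he u (Sym2.mem_mk_left _ _)
    obtain ⟨w1, w2, w3, w4⟩ := he w (Sym2.mem_mk_right _ _)
    have hN' : (8 * B : ℝ) ≤ N := by exact_mod_cast hN
    have B0 : (0 : ℝ) ≤ B := Nat.cast_nonneg _
    obtain ⟨s, hs⟩ : ∃ s : ℝ, s = u.2 + w.2 := ⟨_, rfl⟩
    obtain ⟨t, ht⟩ : ∃ t : ℝ, t = u.1 + w.1 := ⟨_, rfl⟩
    obtain ⟨a, ha⟩ : ∃ a : ℝ, a = u.1 - w.1 := ⟨_, rfl⟩
    obtain ⟨b, hb⟩ : ∃ b : ℝ, b = u.2 - w.2 := ⟨_, rfl⟩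
    have s0 : 0 ≤ s := hs ▸ by exact_mod_cast add_nonneg u3 w3
    have t0 : 0 ≤ t := ht ▸ by exact_mod_cast add_nonneg u1 w1
    have s1 : s ≤ 2 * B := hs ▸ by exact_mod_cast (show u.2 + w.2 ≤ 2 * (B : ℤ) by omega)
    have t1 : t ≤ 2 * B := ht ▸ by exact_mod_cast (show u.1 + w.1 ≤ 2 * (B : ℤ) by omega)
    have e1 : len s(u, w) = √(a ^ 2 + b ^ 2) := by rw [ha, hb]; rfl
    have e2 : len (s(u, w).map (pert N)) = √((N * a + s * b) ^ 2 + (N * b + 2 * t * a) ^ 2) := by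
      rw [Sym2.map_mk, ha, hb, hs, ht]
      simp only [len, Sym2.lift_mk, pert]
      push_cast
      congr 1
      ring
    have m0 : 0 ≤ a ^ 2 + b ^ 2 := by positivity
    have n0 : (0 : ℝ) ≤ N := Nat.cast_nonneg _
    have c1 := mul_nonneg (mul_nonneg n0 (show 0 ≤ 6 * B - s - 2 * t by linarith)) m0
    have c2 := mul_nonneg n0 (show 0 ≤ s + 2 * t by linarith)
    rw [e1, e2]
    refine ⟨Real.le_sqrt_of_sq_le ?_, Real.sqrt_le_iff.2 ⟨by positivity, ?_⟩⟩ <;>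
      rw [mul_pow, Real.sq_sqrt m0]
    · have c3 := mul_nonneg c2 (sq_nonneg (a + b))
      have c4 := mul_nonneg (mul_nonneg B0 (sub_nonneg.2 hN')) m0
      nlinarith [sq_nonneg (s * b), sq_nonneg (t * a)]
    · have c3 := mul_nonneg c2 (sq_nonneg (a - b))
      have c4 := mul_le_mul_of_nonneg_right (pow_le_pow_left₀ s0 s1 2) (sq_nonneg b)
      have c5 := mul_le_mul_of_nonneg_right (pow_le_pow_left₀ t0 t1 2) (sq_nonneg a)
      have c6 := mul_nonneg (mul_nonneg n0 B0) m0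
      nlinarith [sq_nonneg (B * b)]

end Pool.Agent.Lib.MP_1a3fd7_lc
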