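import Pool.Agent.Lib.MP_1a3fd7_lc.GA

/-! The perturbed points are in general position. -/

namespace Pool.Agent.Lib.MP_1a3fd7_lc

theorem gb_cube {a b : ℤ} (ha : a ≠ 0) : 2 * a ^ 3 ≠ b ^ 3 := fun h => by
  have hb : b ≠ 0 := fun e => ha (by simpa [e] using h)
  have h1 : 2 * a.natAbs ^ 3 = b.natAbs ^ 3 := by simpa [Int.natAbs_mul] using congrArg Int.natAbs h
  have h2 := congrArg (padicValNat 2) h1
  rw [padicValNat.mul two_ne_zero (pow_ne_zero _ (Int.natAbs_ne_zero.2 ha)), padicValNat.pow,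
    padicValNat.pow, padicValNat_self] at h2
  omega

theorem gb_d1 {a b c d : ℤ} (h : a * d = b * c) (h1 : ¬ (a = 0 ∧ b = 0)) (h2 : ¬ (c = 0 ∧ d = 0))
    (h3 : ¬ (a = c ∧ b = d)) : 2 * a * c * (c - a) + b * d * (b - d) ≠ 0 := fun e => by
  by_cases ha : a = 0
  · have hb : b ≠ 0 := fun k => h1 ⟨ha, k⟩
    have hc : c = 0 := by simpa [ha, hb] using h
    have : d = 0 ∨ b - d = 0 := by simpa [ha, hb] using e
    omega
  · have hc : c ≠ 0 := fun k => h2 ⟨k, by simpa [k, ha] using h⟩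
    have hca : c - a ≠ 0 := fun k => h3 ⟨by omega, mul_left_cancel₀ ha (by
      rw [h, show c = a by omega, mul_comm])⟩
    refine mul_ne_zero (mul_ne_zero hc hca) (sub_ne_zero.2 (gb_cube (b := b) ha)) ?_
    linear_combination a ^ 2 * e + b * (a * d + b * c - a * b) * h

theorem gb_abs {x y : ℤ} {X Y : ℤ} (hx : |x| ≤ X) (hy : |y| ≤ Y) : |x * y| ≤ X * Y := by
  rw [abs_mul]
  exact mul_le_mul hx hy (abs_nonneg _) ((abs_nonneg _).trans hx)

theorem gb_zero {N u v : ℤ} (h : N * u + v = 0) (h1 : -N < v) (h2 : v < N) : u = 0 := by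
  by_contra c
  rcases lt_or_gt_of_ne c with c | c <;> nlinarith

theorem gb_det {B N : ℕ} (hN : 20 * B ^ 4 ≤ N) {p q r : Pt} (hp : Bx B p) (hq : Bx B q)
    (hr : Bx B r) (h1 : p ≠ q) (h2 : p ≠ r) (h3 : q ≠ r) :
    ((pert N q).1 - (pert N p).1) * ((pert N r).2 - (pert N p).2) ≠
      ((pert N q).2 - (pert N p).2) * ((pert N r).1 - (pert N p).1) := fun e => by
  obtain ⟨x, y⟩ := p
  obtain ⟨a, b, rfl⟩ : ∃ a b, q = (x + a, y + b) := ⟨q.1 - x, q.2 - y, by simp⟩
  obtain ⟨c, d, rfl⟩ : ∃ c d, r = (x + c, y + d) := ⟨r.1 - x, r.2 - y, by simp⟩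
  simp only [Bx, pert, ne_eq, Prod.mk.injEq] at *
  have hN' : 20 * (B : ℤ) ^ 4 ≤ N := by exact_mod_cast hN
  have B1 : (1 : ℤ) ≤ B := by omega
  have k : ∀ t : ℤ, -B ≤ t → t ≤ B → |t| ≤ B := fun t u v => abs_le.2 ⟨u, v⟩
  have k' : ∀ t : ℤ, 0 ≤ t → t ≤ 2 * B → |t| ≤ 2 * B := fun t u v => abs_le.2 ⟨by omega, v⟩
  have ka := k a (by omega) (by omega)
  have kb := k b (by omega) (by omega)
  have kc := k c (by omega) (by omega)
  have kd := k d (by omega) (by omega)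
  have d1 := abs_le.1 (gb_abs (gb_abs ka kc) (k (c - a) (by omega) (by omega)))
  have d2 := abs_le.1 (gb_abs (gb_abs kb kd) (k (b - d) (by omega) (by omega)))
  have d3 := abs_le.1 (gb_abs (gb_abs kb (k' (2 * y + b) (by omega) (by omega)))
    (gb_abs kc (k' (2 * x + c) (by omega) (by omega))))
  have d4 := abs_le.1 (gb_abs (gb_abs ka (k' (2 * x + a) (by omega) (by omega)))
    (gb_abs kd (k' (2 * y + d) (by omega) (by omega))))
  have b3 : (B : ℤ) * B * B ≤ B ^ 4 :=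
    le_of_eq_of_le (by ring) (pow_le_pow_right₀ B1 (show 3 ≤ 4 by norm_num))
  have b4 : (1 : ℤ) ≤ B ^ 4 := one_le_pow₀ B1
  rw [show (B : ℤ) * (2 * B) * (B * (2 * B)) = 4 * B ^ 4 by ring] at d3 d4
  have k1 := gb_zero (N := N) (u := N * (a * d - b * c) + (2 * (a * c * (c - a)) + b * d * (b - d)))
    (v := 2 * (b * (2 * y + b) * (c * (2 * x + c))) - 2 * (a * (2 * x + a) * (d * (2 * y + d))))
    (by linear_combination e) (by omega) (by omega)
  have k2 := gb_zero k1 (by omega) (by omega)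
  exact gb_d1 (a := a) (b := b) (c := c) (d := d) (by linear_combination k2) (by omega) (by omega)
    (by omega) (by linear_combination k1 - N * k2)

theorem pert_gen {B N : ℕ} {S : Finset Pt} (hB : InBox B S) (hN : 20 * B ^ 4 ≤ N) :
    ∀ p ∈ S.image (pert N), ∀ q ∈ S.image (pert N), ∀ r ∈ S.image (pert N), p ≠ q → p ≠ r →
      q ≠ r → ¬ Collinear ℝ {toR p, toR q, toR r} := by
  simp only [Finset.forall_mem_image]
  intro p hp q hq r hr h1 h2 h3 h
  obtain ⟨v, hv⟩ := (collinear_iff_of_mem (Set.mem_insert _ _)).1 h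
  obtain ⟨s, hs⟩ := hv (toR (pert N q)) (by simp)
  obtain ⟨t, ht⟩ := hv (toR (pert N r)) (by simp)
  refine gb_det hN (hB p hp) (hB q hq) (hB r hr) (fun e => h1 (by rw [e])) (fun e => h2 (by rw [e]))
    (fun e => h3 (by rw [e])) ?_
  have s1 := congrArg Prod.fst hs
  have s2 := congrArg Prod.snd hs
  have t1 := congrArg Prod.fst ht
  have t2 := congrArg Prod.snd ht
  simp only [CP_fst, CP_snd, vadd_eq_add, Prod.fst_add, Prod.snd_add, Prod.smul_fst, Prod.smul_snd,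
    smul_eq_mul] at s1 s2 t1 t2
  have : (((pert N q).1 : ℝ) - (pert N p).1) * ((pert N r).2 - (pert N p).2) =
      ((pert N q).2 - (pert N p).2) * ((pert N r).1 - (pert N p).1) := by
    rw [s1, s2, t1, t2]
    ring
  exact_mod_cast this

end Pool.Agent.Lib.MP_1a3fd7_lc
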