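import Pool.Agent.Lib.MP_1a3fd7_lc.Comb

/-! A point on the frontier of the unbounded face touches an outer cell. -/

namespace Pool.Agent.Lib.MP_1a3fd7_lc

open Relation Topology Filter

theorem ts_vert {E : Finset (Sym2 Pt)} {F : Finset UE} (hF : ∀ e ∈ F, ue e ∈ E) {x : ℝ × ℝ}
    (hx : x ∉ drawing E) {a b : ℤ} (ha : x.1 = a) (h1 : (b : ℝ) ≤ x.2) (h2 : x.2 ≤ b + 1) :
    Outer F (a - 1, b) ↔ Outer F (a, b) := by
  refine outer_nb (q := (a, b)) (d := 3) fun hm => hx ⟨_, hF _ hm, (a, b), (a, b + 1), rfl, ?_⟩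
  refine ⟨b + 1 - x.2, x.2 - b, by linarith, by linarith, by ring, Prod.ext ?_ ?_⟩
  · simp only [toR, Prod.fst_add, Prod.smul_fst, smul_eq_mul, ha]
    ring
  · simp only [toR, Prod.snd_add, Prod.smul_snd, smul_eq_mul, Int.cast_add, Int.cast_one]
    ring

theorem ts_hor {E : Finset (Sym2 Pt)} {F : Finset UE} (hF : ∀ e ∈ F, ue e ∈ E) {x : ℝ × ℝ}
    (hx : x ∉ drawing E) {a b : ℤ} (hb : x.2 = b) (h1 : (a : ℝ) ≤ x.1) (h2 : x.1 ≤ a + 1) :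
    Outer F (a, b - 1) ↔ Outer F (a, b) := by
  refine outer_nb (q := (a, b)) (d := 2) fun hm => hx ⟨_, hF _ hm, (a, b), (a + 1, b), rfl, ?_⟩
  refine ⟨a + 1 - x.1, x.1 - a, by linarith, by linarith, by ring, Prod.ext ?_ ?_⟩
  · simp only [toR, Prod.fst_add, Prod.smul_fst, smul_eq_mul, Int.cast_add, Int.cast_one]
    ring
  · simp only [toR, Prod.snd_add, Prod.smul_snd, smul_eq_mul, hb]
    ring

theorem ts_floor (t : ℝ) : ∀ᶠ s in 𝓝 t, ⌊s⌋ = ⌊t⌋ ∨ (t = ⌊t⌋ ∧ ⌊s⌋ = ⌊t⌋ - 1) := by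
  rcases (Int.floor_le t).eq_or_lt with h | h
  · filter_upwards [Ioo_mem_nhds (show ((⌊t⌋ : ℤ) : ℝ) - 1 < t by linarith)
      (Int.lt_floor_add_one t)] with s hs
    by_cases c : ((⌊t⌋ : ℤ) : ℝ) ≤ s
    · exact Or.inl (Int.floor_eq_iff.2 ⟨c, hs.2⟩)
    · refine Or.inr ⟨h.symm, Int.floor_eq_iff.2 ⟨?_, ?_⟩⟩
      · push_cast
        exact hs.1.le
      · push_cast
        linarith [not_le.1 c]
  · filter_upwards [Ioo_mem_nhds h (Int.lt_floor_add_one t)] with s hs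
    exact Or.inl (Int.floor_eq_iff.2 ⟨hs.1.le, hs.2⟩)

theorem ts_near (x : ℝ × ℝ) : ∀ᶠ y in 𝓝 x,
    (⌊y.1⌋ = ⌊x.1⌋ ∨ (x.1 = ⌊x.1⌋ ∧ ⌊y.1⌋ = ⌊x.1⌋ - 1)) ∧
      (⌊y.2⌋ = ⌊x.2⌋ ∨ (x.2 = ⌊x.2⌋ ∧ ⌊y.2⌋ = ⌊x.2⌋ - 1)) :=
  ((continuous_fst.tendsto x).eventually (ts_floor x.1)).and
    ((continuous_snd.tendsto x).eventually (ts_floor x.2))

theorem ts_loc {E : Finset (Sym2 Pt)} {F : Finset UE} (hF : ∀ e ∈ F, ue e ∈ E) {x : ℝ × ℝ}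
    (hx : x ∉ drawing E) :
    ∀ᶠ y in 𝓝 x, Outer F (⌊y.1⌋, ⌊y.2⌋) ↔ Outer F (⌊x.1⌋, ⌊x.2⌋) := by
  filter_upwards [ts_near x] with y hy
  have a1 := Int.floor_le x.1
  have a2 := (Int.lt_floor_add_one x.1).le
  have b1 := Int.floor_le x.2
  have b2 := (Int.lt_floor_add_one x.2).le
  obtain ⟨h1 | ⟨e1, h1⟩, h2 | ⟨e2, h2⟩⟩ := hy <;> rw [h1, h2]
  · exact ts_hor hF hx e2 a1 a2
  · exact ts_vert hF hx e1 b1 b2
  · refine (ts_hor hF hx e2 ?_ ?_).trans (ts_vert hF hx e1 b1 b2)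
    · push_cast
      linarith
    · push_cast
      linarith

theorem touch {E : Finset (Sym2 Pt)} {F : Finset UE} (hF : ∀ e ∈ F, ue e ∈ E) {z : ℝ × ℝ}
    (hu : ¬ Bornology.IsBounded (face E z)) {p : Pt} (hp : toR p ∈ frontier (face E z)) :
    Touch F p := by
  have hs : ∀ x ∈ face E z, x ∉ drawing E := fun x hx => connectedComponentIn_subset _ _ hx
  have hc : IsPreconnected (face E z) := isPreconnected_connectedComponentIn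
  have key : ∀ x ∈ face E z, ∀ y ∈ face E z,
      (Outer F (⌊x.1⌋, ⌊x.2⌋) ↔ Outer F (⌊y.1⌋, ⌊y.2⌋)) := fun x hx y hy =>
    hc.induction₂' (fun x y : ℝ × ℝ => Outer F (⌊x.1⌋, ⌊x.2⌋) ↔ Outer F (⌊y.1⌋, ⌊y.2⌋))
      (fun x hx => ((ts_loc hF (hs x hx)).filter_mono nhdsWithin_le_nhds).mono
        fun _ h => ⟨h.symm, h⟩) (fun _ _ _ _ _ _ h h' => h.trans h') hx hy
  obtain ⟨R, hR⟩ := inner_bdd F
  have ex : ∃ x ∈ face E z, Outer F (⌊x.1⌋, ⌊x.2⌋) := by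
    by_contra c
    refine hu (((Metric.isBounded_Icc (-R : ℝ) (R + 1)).prod
      (Metric.isBounded_Icc (-R : ℝ) (R + 1))).subset fun x hx => ?_)
    obtain ⟨h1, h2⟩ := hR (⌊x.1⌋, ⌊x.2⌋) fun h => c ⟨x, hx, h⟩
    have k : ∀ t : ℝ, |⌊t⌋| ≤ R → t ∈ Set.Icc (-R : ℝ) (R + 1) := fun t ht => by
      obtain ⟨u, v⟩ := abs_le.1 ht
      have u' : (-R : ℝ) ≤ ((⌊t⌋ : ℤ) : ℝ) := by exact_mod_cast u
      have v' : ((⌊t⌋ : ℤ) : ℝ) ≤ R := by exact_mod_cast v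
      exact ⟨u'.trans (Int.floor_le t), by linarith [Int.lt_floor_add_one t]⟩
    exact ⟨k _ h1, k _ h2⟩
  obtain ⟨x, hx, ho⟩ := ex
  obtain ⟨y, hy, hn⟩ :=
    ((mem_closure_iff_frequently.1 (frontier_subset_closure hp)).and_eventually
      (ts_near (toR p))).exists
  have hy' := (key x hx y hy).1 ho
  simp only [toR, Int.floor_intCast, true_and] at hn
  obtain ⟨h1 | h1, h2 | h2⟩ := hn <;> rw [h1, h2] at hy'
  · exact Or.inl hy'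
  · exact Or.inr (Or.inr (Or.inr hy'))
  · exact Or.inr (Or.inl hy')
  · exact Or.inr (Or.inr (Or.inl hy'))

end Pool.Agent.Lib.MP_1a3fd7_lc
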