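import Pool.Agent.Lib.MP_1a3fd7_lc.ES
import Pool.Agent.Lib.MP_1a3fd7_lc.TS

namespace Pool.Agent.Lib.MP_1a3fd7_lc

open Relation

theorem SW_len_ue (e : UE) : len (ue e) = 1 := by
  obtain ⟨⟨x, y⟩, b⟩ := e
  cases b <;> simp [len, ue, tip]

theorem SW_int {a b : ℤ} (h0 : ¬ (a = 0 ∧ b = 0)) (h1 : ¬ (a = 0 ∧ b = 1))
    (h2 : ¬ (a = 0 ∧ b = -1)) (h3 : ¬ (a = 1 ∧ b = 0)) (h4 : ¬ (a = -1 ∧ b = 0)) :
    2 ≤ a ^ 2 + b ^ 2 := by
  by_contra c
  have ha : -1 ≤ a ∧ a ≤ 1 := by constructor <;> nlinarith [sq_nonneg b]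
  have hb : -1 ≤ b ∧ b ≤ 1 := by constructor <;> nlinarith [sq_nonneg a]
  obtain ⟨a1, a2⟩ := ha
  obtain ⟨b1, b2⟩ := hb
  interval_cases a <;> interval_cases b <;> simp_all

theorem SW_len_ge (e : Sym2 Pt) (hd : ¬ e.IsDiag) (hu : ∀ u : UE, ue u ≠ e) : √2 ≤ len e := by
  induction e using Sym2.ind with
  | h u w =>
    obtain ⟨x, y⟩ := u
    obtain ⟨x', y'⟩ := w
    have k1 := hu ((x, y), true)
    have k2 := hu ((x, y), false)
    have k3 := hu ((x', y'), true)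
    have k4 := hu ((x', y'), false)
    simp only [ue, tip, ne_eq, Sym2.eq_iff, Prod.mk.injEq, Sym2.mk_isDiag_iff, if_true,
      Bool.false_eq_true, if_false, true_and, and_true] at k1 k2 k3 k4 hd
    have key : 2 ≤ (x - x') ^ 2 + (y - y') ^ 2 :=
      SW_int (by omega) (by omega) (by omega) (by omega) (by omega)
    simp only [len, Sym2.lift_mk]
    refine Real.sqrt_le_sqrt ?_
    exact_mod_cast key

theorem sound {S : Finset Pt} {E : Finset (Sym2 Pt)} (h : OuterLaman S E) (h3 : 3 ≤ S.card)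
    (hw : weight E < 2 * S.card - 3 + (√2 - 1) * (S.card - 1) / 2) : Sol S := by
  classical
  set F : Finset UE := (S ×ˢ Finset.univ).filter fun e => ue e ∈ E with hFdef
  have hF : ∀ e ∈ F, ue e ∈ E := fun e he => (Finset.mem_filter.1 he).2
  have hF' : ∀ e : UE, ue e ∈ E → e ∈ F := fun e he =>
    Finset.mem_filter.2 ⟨Finset.mem_product.2
      ⟨(h.edges _ he).2 _ (Sym2.mem_mk_left _ _), Finset.mem_univ _⟩, he⟩
  obtain ⟨z, -, hz, hfr⟩ := h.outer
  refine struct S F (fun p hp => ?_) (fun p hp => touch hF hz (hfr p hp)) h3 ?_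
  · obtain ⟨e, he, rfl | rfl⟩ := mem_ends.1 hp
    · exact (h.edges _ (hF e he)).2 _ (Sym2.mem_mk_left _ _)
    · exact (h.edges _ (hF e he)).2 _ (Sym2.mem_mk_right _ _)
  by_contra c
  have hsub : F.image ue ⊆ E := fun x hx => by
    obtain ⟨e, he, rfl⟩ := Finset.mem_image.1 hx
    exact hF e he
  have hcard : (F.image ue).card = F.card :=
    Finset.card_image_of_injective _ fun _ _ => ue_inj
  have s1 : ∑ e ∈ F.image ue, len e = F.card := by
    rw [← hcard, Finset.card_eq_sum_ones, Nat.cast_sum]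
    refine Finset.sum_congr rfl fun x hx => ?_
    obtain ⟨e, -, rfl⟩ := Finset.mem_image.1 hx
    simp [SW_len_ue]
  have s2 : ((E \ F.image ue).card : ℝ) * √2 ≤ ∑ e ∈ E \ F.image ue, len e := by
    rw [← nsmul_eq_mul]
    refine Finset.card_nsmul_le_sum _ _ _ fun x hx => ?_
    obtain ⟨h1, h2⟩ := Finset.mem_sdiff.1 hx
    refine SW_len_ge x (h.edges x h1).1 fun u hu => h2 ?_
    exact Finset.mem_image.2 ⟨u, hF' u (hu ▸ h1), hu⟩
  have s3 : weight E = ∑ e ∈ E \ F.image ue, len e + ∑ e ∈ F.image ue, len e :=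
    (Finset.sum_sdiff hsub).symm
  have c1 : (E \ F.image ue).card + F.card + 3 = 2 * S.card := by
    rw [← hcard, Finset.card_sdiff_add_card_eq_card hsub]
    exact h.count
  have c2 : S.card ≤ 2 * (E \ F.image ue).card + 1 := by omega
  have r1 : ((E \ F.image ue).card : ℝ) + F.card + 3 = 2 * S.card := by exact_mod_cast c1
  have r2 : (S.card : ℝ) ≤ 2 * (E \ F.image ue).card + 1 := by exact_mod_cast c2
  have q : (1 : ℝ) ≤ √2 := Real.one_le_sqrt.2 (by norm_num)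
  have m := mul_nonneg (sub_nonneg.2 q) (sub_nonneg.2 r2)
  nlinarith

end Pool.Agent.Lib.MP_1a3fd7_lc
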