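import Pool.Agent.Lib.MP_1a3fd7_lc.GB
import Pool.Agent.Lib.MP_1a3fd7_lc.CM
import Pool.Agent.Lib.MP_1a3fd7_lc.SW

/-! Completeness and soundness for the perturbed points. -/

namespace Pool.Agent.Lib.MP_1a3fd7_lc

open Relation Topology Filter

theorem gc_bdd (Φ : ℝ × ℝ ≃ₜ ℝ × ℝ) {U : Set (ℝ × ℝ)} (h : Bornology.IsBounded U) :
    Bornology.IsBounded (Φ '' U) :=
  (h.isCompact_closure.image Φ.continuous).isBounded.subset (Set.image_mono subset_closure)

theorem gc_toR : Function.Injective toR := fun _ _ h =>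
  Prod.ext (Int.cast_injective (α := ℝ) (congrArg Prod.fst h))
    (Int.cast_injective (α := ℝ) (congrArg Prod.snd h))

theorem gc_map {P : Pt → Pt} {S : Finset Pt} (hP : Set.InjOn P S) {e f : Sym2 Pt}
    (he : ∀ p ∈ e, p ∈ S) (hf : ∀ p ∈ f, p ∈ S) (h : e.map P = f.map P) : e = f := by
  refine Sym2.ext fun p => ⟨fun hp => ?_, fun hp => ?_⟩
  · obtain ⟨q, hq, k⟩ := Sym2.mem_map.1 (h ▸ Sym2.mem_map.2 ⟨p, hp, rfl⟩ : P p ∈ f.map P)
    rwa [← hP (hf q hq) (he p hp) k]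
  · obtain ⟨q, hq, k⟩ := Sym2.mem_map.1 (h ▸ Sym2.mem_map.2 ⟨p, hp, rfl⟩ : P p ∈ e.map P)
    rwa [← hP (he q hq) (hf p hp) k]

/-- Transport along a homeomorphism that maps the edges to edges. -/
theorem gc_transfer (Φ : ℝ × ℝ ≃ₜ ℝ × ℝ) (P : Pt → Pt) {S : Finset Pt} {E : Finset (Sym2 Pt)}
    (hP : ∀ p ∈ S, Φ (toR p) = toR (P p)) (hE : ∀ e ∈ E, seg (e.map P) = Φ '' seg e)
    (h : OuterLaman S E) : OuterLaman (S.image P) (E.image (Sym2.map P)) := by
  classical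
  have i1 : Set.InjOn P S := fun p hp q hq e =>
    gc_toR (Φ.injective (by rw [hP p hp, hP q hq, e]))
  have i2 : Set.InjOn (Sym2.map P) E := fun e he f hf k =>
    gc_map i1 (h.edges e he).2 (h.edges f hf).2 k
  have hd : drawing (E.image (Sym2.map P)) = Φ '' drawing E := Set.ext fun z => by
    simp only [drawing, Set.mem_ofPred_eq, Finset.mem_image, Set.mem_image]
    constructor
    · rintro ⟨_, ⟨e, he, rfl⟩, hz⟩
      obtain ⟨w, hw, rfl⟩ := hE e he ▸ hz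
      exact ⟨w, ⟨e, he, hw⟩, rfl⟩
    · rintro ⟨w, ⟨e, he, hw⟩, rfl⟩
      exact ⟨_, ⟨e, he, rfl⟩, hE e he ▸ Set.mem_image_of_mem _ hw⟩
  refine ⟨?_, ?_, ?_, ?_, fun X hX h2 => ?_⟩
  · simp only [Finset.forall_mem_image]
    intro e he
    refine ⟨fun k => (h.edges e he).1 ?_, fun p hp => ?_⟩
    · induction e using Sym2.ind with
      | h u w =>
        rw [Sym2.map_mk, Sym2.mk_isDiag_iff] at k
        exact Sym2.mk_isDiag_iff.2 (i1 ((h.edges _ he).2 u (Sym2.mem_mk_left _ _))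
          ((h.edges _ he).2 w (Sym2.mem_mk_right _ _)) k)
    · obtain ⟨q, hq, rfl⟩ := Sym2.mem_map.1 hp
      exact Finset.mem_image_of_mem _ ((h.edges e he).2 q hq)
  · simp only [Finset.forall_mem_image]
    intro e he f hf hne z h1 h2
    obtain ⟨w, hw, rfl⟩ := hE e he ▸ h1
    rw [hE f hf, Φ.injective.mem_set_image] at h2
    obtain ⟨p, p1, p2, rfl⟩ := h.plane e he f hf (fun k => hne (by rw [k])) w hw h2
    exact ⟨P p, Sym2.mem_map.2 ⟨p, p1, rfl⟩, Sym2.mem_map.2 ⟨p, p2, rfl⟩,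
      hP p ((h.edges e he).2 p p1)⟩
  · obtain ⟨z, z1, z2, z3⟩ := h.outer
    have hf : face (E.image (Sym2.map P)) (Φ z) = Φ '' face E z := by
      rw [face, face, hd, Φ.image_connectedComponentIn z1, Φ.image_compl]
    refine ⟨Φ z, by rwa [hd, Φ.injective.mem_set_image], fun k => z2 ?_, ?_⟩
    · simpa [hf, Set.image_image] using gc_bdd Φ.symm k
    · simp only [Finset.forall_mem_image]
      intro p hp
      rw [hf, ← Φ.image_frontier, ← hP p hp]
      exact Set.mem_image_of_mem _ (z3 p hp)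
  · rw [Finset.card_image_of_injOn i1, Finset.card_image_of_injOn i2, h.count]
  · obtain ⟨Y, hY, rfl⟩ := Finset.subset_image_iff.1 hX
    rw [Finset.card_image_of_injOn (i1.mono hY)] at h2 ⊢
    refine le_trans (Nat.add_le_add_right ((Finset.card_le_card fun e he => ?_).trans
      (Finset.card_image_le (f := Sym2.map P))) _) (h.sparse Y hY h2)
    obtain ⟨a1, a2⟩ := Finset.mem_filter.1 he
    obtain ⟨f, hf, rfl⟩ := Finset.mem_image.1 a1
    refine Finset.mem_image_of_mem _ (Finset.mem_filter.2 ⟨hf, fun p hp => ?_⟩)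
    obtain ⟨q, hq, k⟩ := Finset.mem_image.1 (a2 _ (Sym2.mem_map.2 ⟨p, hp, rfl⟩))
    rwa [← i1 (hY hq) ((h.edges f hf).2 p hp) k]

theorem gc_num {B N : ℕ} (hB : 0 < B) (hN : 20 * B ^ 4 ≤ N) : 2 * B ^ 2 < N ∧ 8 * B ≤ N := by
  have h1 : B ^ 2 ≤ B ^ 4 := Nat.pow_le_pow_right hB (by norm_num)
  have h2 : B ≤ B ^ 4 := Nat.le_self_pow (by norm_num) B
  omega

theorem gc_pos {B : ℕ} {p : Pt} (h : Bx B p) : 0 < B := by
  obtain ⟨h1, h2, -⟩ := h
  omega

theorem pert_injOn {B N : ℕ} {S : Finset Pt} (hB : InBox B S) (hN : 20 * B ^ 4 ≤ N) :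
    Set.InjOn (pert N) S := fun p hp q hq e => by
  obtain ⟨Φ, h, -⟩ := exists_phi (gc_num (gc_pos (hB p hp)) hN).1
  exact gc_toR (Φ.injective (by rw [h p (hB p hp), h q (hB q hq), e]))

theorem pert_card {B N : ℕ} {S : Finset Pt} (hB : InBox B S) (hN : 20 * B ^ 4 ≤ N) :
    (S.image (pert N)).card = S.card := Finset.card_image_of_injOn (pert_injOn hB hN)

theorem Poly.complete' {B N : ℕ} {S I : Finset Pt} (hB : InBox B S) (hN : 20 * B ^ 4 ≤ N)
    (h : Poly S I) : ∃ E, OuterLaman (S.image (pert N)) E ∧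
      weight E ≤ (N + 4 * B) * (3 * I.card + 1 + √2 * I.card) := by
  obtain ⟨q, hq, -⟩ := h.conn
  obtain ⟨n1, n2⟩ := gc_num (gc_pos (hB q (h.cor q hq (mem_corners.2 (Or.inl rfl))))) hN
  obtain ⟨Φ, h1, h2⟩ := exists_phi n1
  obtain ⟨c1, c2⟩ := h.complete
  refine ⟨_, gc_transfer Φ _ (fun p hp => h1 p (hB p hp)) (fun e he => ?_) c1, ?_⟩
  · obtain ⟨p, a, b, ha, hb, -, rfl⟩ := CP_form he
    exact h2 p a b (hB p ((c1.edges _ he).2 p (Sym2.mem_mk_left _ _))) ha hb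
  · rw [← c2, weight, weight, Finset.mul_sum, Finset.sum_image fun e he f hf =>
      gc_map (pert_injOn hB hN) (c1.edges e he).2 (c1.edges f hf).2]
    exact Finset.sum_le_sum fun e he => (gp_len n2 e fun p hp => hB p ((c1.edges e he).2 p hp)).2

/-- A point in the closure of an unbounded connected set off the edges touches an outer cell. -/
theorem gc_touch {E : Finset (Sym2 Pt)} {F : Finset UE} (hF : ∀ e ∈ F, ue e ∈ E)
    {U : Set (ℝ × ℝ)} (hs : ∀ x ∈ U, x ∉ drawing E) (hc : IsPreconnected U)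
    (hu : ¬ Bornology.IsBounded U) {p : Pt} (hp : toR p ∈ closure U) : Touch F p := by
  have key : ∀ x ∈ U, ∀ y ∈ U,
      (Outer F (⌊x.1⌋, ⌊x.2⌋) ↔ Outer F (⌊y.1⌋, ⌊y.2⌋)) := fun x hx y hy =>
    hc.induction₂' (fun x y : ℝ × ℝ => Outer F (⌊x.1⌋, ⌊x.2⌋) ↔ Outer F (⌊y.1⌋, ⌊y.2⌋))
      (fun x hx => ((ts_loc hF (hs x hx)).filter_mono nhdsWithin_le_nhds).mono
        fun _ h => ⟨h.symm, h⟩) (fun _ _ _ _ _ _ h h' => h.trans h') hx hy
  obtain ⟨R, hR⟩ := inner_bdd F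
  have ex : ∃ x ∈ U, Outer F (⌊x.1⌋, ⌊x.2⌋) := by
    by_contra c
    refine hu (((Metric.isBounded_Icc (-R : ℝ) (R + 1)).prod
      (Metric.isBounded_Icc (-R : ℝ) (R + 1))).subset fun x hx => ?_)
    obtain ⟨h1, h2⟩ := hR (⌊x.1⌋, ⌊x.2⌋) fun h => c ⟨x, hx, h⟩
    have k : ∀ t : ℝ, |⌊t⌋| ≤ R → t ∈ Set.Icc (-R : ℝ) (R + 1) := fun t ht => by
      obtain ⟨u, v⟩ := abs_le.1 ht
      have u' : (-R : ℝ) ≤ ((⌊t⌋ : ℤ) : ℝ) := by exact_mod_cast u
      have v' : ((⌊t⌋ : ℤ) : ℝ) ≤ R := by exact_mod_cast v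
      exact ⟨u'.trans (Int.floor_le t), by linarith [Int.lt_floor_add_one t]⟩
    exact ⟨k _ h1, k _ h2⟩
  obtain ⟨x, hx, ho⟩ := ex
  obtain ⟨y, hy, hn⟩ := ((mem_closure_iff_frequently.1 hp).and_eventually (ts_near (toR p))).exists
  have hy' := (key x hx y hy).1 ho
  simp only [CP_fst, CP_snd, Int.floor_intCast, true_and] at hn
  obtain ⟨h1 | h1, h2 | h2⟩ := hn <;> rw [h1, h2] at hy'
  · exact Or.inl hy'
  · exact Or.inr (Or.inr (Or.inr hy'))
  · exact Or.inr (Or.inl hy')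
  · exact Or.inr (Or.inr (Or.inl hy'))

/-- Soundness from the count, the weight and the outer cells. -/
theorem gc_sound {S : Finset Pt} {E : Finset (Sym2 Pt)}
    (he : ∀ e ∈ E, ¬ e.IsDiag ∧ ∀ p ∈ e, p ∈ S) (hc : E.card + 3 = 2 * S.card)
    (ht : ∀ F : Finset UE, (∀ e ∈ F, ue e ∈ E) → ∀ p ∈ S, Touch F p) (h3 : 3 ≤ S.card)
    (hw : weight E < 2 * S.card - 3 + (√2 - 1) * (S.card - 1) / 2) : Sol S := by
  classical
  obtain ⟨F, hF⟩ : ∃ F : Finset UE, ∀ e, e ∈ F ↔ ue e ∈ E :=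
    ⟨(S ×ˢ Finset.univ).filter fun e => ue e ∈ E, fun e => ⟨fun h => (Finset.mem_filter.1 h).2,
      fun h => Finset.mem_filter.2 ⟨Finset.mem_product.2
        ⟨(he _ h).2 _ (Sym2.mem_mk_left _ _), Finset.mem_univ _⟩, h⟩⟩⟩
  refine struct S F (fun p hp => ?_) (ht F fun e => (hF e).1) h3 ?_
  · obtain ⟨e, h, rfl | rfl⟩ := mem_ends.1 hp
    · exact (he _ ((hF e).1 h)).2 _ (Sym2.mem_mk_left _ _)
    · exact (he _ ((hF e).1 h)).2 _ (Sym2.mem_mk_right _ _)
  by_contra c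
  have hsub : F.image ue ⊆ E := Finset.image_subset_iff.2 fun e => (hF e).1
  have hcard : (F.image ue).card = F.card := Finset.card_image_of_injective _ fun _ _ => ue_inj
  have s1 : ∑ e ∈ F.image ue, len e = F.card := by
    simp [Finset.sum_image fun _ _ _ _ => ue_inj, SW_len_ue]
  have s2 : ((E \ F.image ue).card : ℝ) * √2 ≤ ∑ e ∈ E \ F.image ue, len e := by
    rw [← nsmul_eq_mul]
    refine Finset.card_nsmul_le_sum _ _ _ fun x hx => ?_
    obtain ⟨h1, h2⟩ := Finset.mem_sdiff.1 hx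
    exact SW_len_ge x (he x h1).1 fun u hu => h2
      (Finset.mem_image.2 ⟨u, (hF u).2 (hu ▸ h1), hu⟩)
  have s3 : weight E = ∑ e ∈ E \ F.image ue, len e + ∑ e ∈ F.image ue, len e :=
    (Finset.sum_sdiff hsub).symm
  have c1 : (E \ F.image ue).card + F.card + 3 = 2 * S.card := by
    rwa [← hcard, Finset.card_sdiff_add_card_eq_card hsub]
  have c2 : S.card ≤ 2 * (E \ F.image ue).card + 1 := by omega
  have r1 : ((E \ F.image ue).card : ℝ) + F.card + 3 = 2 * S.card := by exact_mod_cast c1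
  have r2 : (S.card : ℝ) ≤ 2 * (E \ F.image ue).card + 1 := by exact_mod_cast c2
  have q : (1 : ℝ) ≤ √2 := Real.one_le_sqrt.2 (by norm_num)
  have m := mul_nonneg (sub_nonneg.2 q) (sub_nonneg.2 r2)
  nlinarith

theorem sound' {B N : ℕ} {S : Finset Pt} (hB : InBox B S) (hN : 20 * B ^ 4 ≤ N)
    {E : Finset (Sym2 Pt)} (h : OuterLaman (S.image (pert N)) E) (h3 : 3 ≤ S.card)
    (hw : weight E < (N - 4 * B) * (2 * S.card - 3 + (√2 - 1) * (S.card - 1) / 2)) : Sol S := by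
  classical
  obtain ⟨p₀, hp₀⟩ := Finset.card_pos.1 (show 0 < S.card by omega)
  have b0 := gc_pos (hB p₀ hp₀)
  obtain ⟨n1, n2⟩ := gc_num b0 hN
  obtain ⟨Φ, h1, h2⟩ := exists_phi n1
  have i1 := pert_injOn hB hN
  obtain ⟨G, g1, rfl⟩ : ∃ G : Finset (Sym2 Pt), (∀ e ∈ G, ∀ p ∈ e, p ∈ S) ∧
      E = G.image (Sym2.map (pert N)) := by
    refine ⟨S.sym2.filter fun e => e.map (pert N) ∈ E, fun e he =>
      Finset.mem_sym2_iff.1 (Finset.mem_filter.1 he).1, Finset.ext fun e => ⟨fun he => ?_, ?_⟩⟩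
    · induction e using Sym2.ind with
      | h u w =>
        obtain ⟨u, hu, rfl⟩ := Finset.mem_image.1 ((h.edges _ he).2 u (Sym2.mem_mk_left _ _))
        obtain ⟨w, hw, rfl⟩ := Finset.mem_image.1 ((h.edges _ he).2 w (Sym2.mem_mk_right _ _))
        exact Finset.mem_image.2 ⟨s(u, w), Finset.mem_filter.2
          ⟨Finset.mk_mem_sym2_iff.2 ⟨hu, hw⟩, he⟩, rfl⟩
    · intro he
      obtain ⟨f, hf, rfl⟩ := Finset.mem_image.1 he
      exact (Finset.mem_filter.1 hf).2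
  have i2 : Set.InjOn (Sym2.map (pert N)) G := fun e he f hf => gc_map i1 (g1 e he) (g1 f hf)
  refine gc_sound (E := G) (fun e he => ⟨fun k => (h.edges _ (Finset.mem_image_of_mem _ he)).1
    k.map, g1 e he⟩) ?_ (fun F hF p hp => ?_) h3 ?_
  · rw [← Finset.card_image_of_injOn i2, h.count, pert_card hB hN]
  · obtain ⟨z, -, z2, z3⟩ := h.outer
    refine gc_touch (E := F.image ue) (fun e => Finset.mem_image_of_mem _)
      (U := Φ.symm '' face _ z) ?_
      (isPreconnected_connectedComponentIn.image _ Φ.symm.continuous.continuousOn)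
      (fun k => z2 (by simpa [Set.image_image] using gc_bdd Φ k)) ?_
    · rintro _ ⟨x, hx, rfl⟩ ⟨_, hf, hs⟩
      obtain ⟨e, he, rfl⟩ := Finset.mem_image.1 hf
      refine connectedComponentIn_subset _ _ hx ⟨_, Finset.mem_image_of_mem _ (hF e he), ?_⟩
      have k : seg ((ue e).map (pert N)) = Φ '' seg (ue e) := by
        have b := hB _ (g1 _ (hF e he) _ (Sym2.mem_mk_left _ _))
        obtain ⟨q, _ | _⟩ := e
        · simpa [ue, tip] using h2 q 0 1 b (Or.inl rfl) (Or.inr rfl)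
        · simpa [ue, tip] using h2 q 1 0 b (Or.inr rfl) (Or.inl rfl)
      exact k ▸ ⟨_, hs, Φ.apply_symm_apply x⟩
    · rw [← Φ.symm.image_closure]
      exact ⟨_, frontier_subset_closure (z3 _ (Finset.mem_image_of_mem _ hp)), by
        rw [← h1 p (hB p hp), Φ.symm_apply_apply]⟩
  · have n3 : (0 : ℝ) < N - 4 * B := by
      have : (4 * B : ℝ) < N := by exact_mod_cast (show 4 * B < N by omega)
      linarith
    refine lt_of_mul_lt_mul_left (lt_of_le_of_lt ?_ hw) n3.le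
    rw [weight, weight, Finset.mul_sum, Finset.sum_image i2]
    exact Finset.sum_le_sum fun e he => (gp_len n2 e fun p hp => hB p (g1 e he p hp)).1

end Pool.Agent.Lib.MP_1a3fd7_lc
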