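import Pool.Agent.Lib.MP_1a3fd7_lc.Loc

namespace Pool.Agent.Lib.MP_1a3fd7_lc

open Relation

/-- Both cells of the column `x` of the wire `r` are in `I`. -/
def DD (I : Finset Pt) (r : ℕ) (x : ℤ) : Bool :=
  decide ((x, ((6 * r + 3 : ℕ) : ℤ)) ∈ I) && decide ((x, ((6 * r + 4 : ℕ) : ℤ)) ∈ I)

theorem dom_eq (I : Finset Pt) (r j : ℕ) : Dom I r j = DD I r (12 * j) := by
  simp [Dom, DD]

theorem GG_eq (I : Finset Pt) (r j n : ℕ) {x y : ℤ} (h1 : x = 12 * j + (n / 7 : ℕ) - 1)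
    (h2 : y = 6 * r + (n % 7 : ℕ) - 1) : GG I r j n = decide ((x, y) ∈ I) := by
  simp [GG, h1, h2]

theorem GG_DD (I : Finset Pt) (r j n : ℕ) (hn : n % 7 = 4) {x : ℤ}
    (h : x = 12 * j + (n / 7 : ℕ) - 1) : (GG I r j n && GG I r j (n + 1)) = DD I r x := by
  rw [DD, GG_eq I r j n h (y := ((6 * r + 3 : ℕ) : ℤ)) (by omega),
    GG_eq I r j (n + 1) (x := x) (y := ((6 * r + 4 : ℕ) : ℤ)) (by omega) (by omega)]

section

variable {v c : ℕ} {val : ℕ → ℕ → Bool} {I : Finset Pt}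
  (hc : ∀ q ∈ I, corners q ⊆ (ptsL v c val).toFinset)
  (hok : ∀ p ∈ (ptsL v c val).toFinset, Ok I p)

include hc hok

theorem ia_left {r j : ℕ} (hr : r < 2 * v) (h1 : 1 ≤ j) (h2 : j ≤ c + 1) :
    DD I r (12 * j - 1) = !DD I r (12 * j) ∧ DD I r (12 * j) = DD I r (12 * j + 4) := by
  have h := win_ok hc hok hr (j := j) (by omega) (by norm_num) (win1 _ (ty_lt c val r j))
  have t : 2 ≤ ty c val r j := by
    unfold ty
    split_ifs <;> omega
  simp only [fin1, if_neg (show ty c val r j ≠ 0 by omega), if_neg (show ty c val r j ≠ 1 by omega),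
    st_getD _ 42 _ (by norm_num : 41 - 4 < 42), st_getD _ 42 _ (by norm_num : 41 - 5 < 42),
    st_getD _ 42 _ (by norm_num : 41 - 11 < 42), st_getD _ 42 _ (by norm_num : 41 - 12 < 42),
    st_getD _ 42 _ (by norm_num : 41 - 39 < 42), st_getD _ 42 _ (by norm_num : 41 - 40 < 42)] at h
  have a := GG_DD I r j 4 rfl (x := 12 * j - 1) (by omega)
  have b := GG_DD I r j 11 rfl (x := 12 * j) (by omega)
  have d := GG_DD I r j 39 rfl (x := 12 * j + 4) (by omega)
  change (((GG I r j 4 && GG I r j (4 + 1)) != (GG I r j 11 && GG I r j (11 + 1))) &&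
    ((GG I r j 11 && GG I r j (11 + 1)) == (GG I r j 39 && GG I r j (39 + 1)))) = true at h
  rw [a, b, d] at h
  revert h
  cases DD I r (12 * j - 1) <;> cases DD I r (12 * j) <;> cases DD I r (12 * j + 4) <;> simp

theorem ia_right {r j : ℕ} (hr : r < 2 * v) (h2 : j ≤ c) :
    DD I r (12 * j + 11) = !DD I r (12 * j + 4) := by
  have t : ty c val r j < 4 := by
    unfold ty
    split_ifs <;> omega
  have h := win_ok hc hok hr (j := j) (by omega) (by norm_num) (win2 _ t)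
  simp only [fin2, Bool.and_eq_true, st_getD _ 56 _ (by norm_num : 55 - 4 < 56),
    st_getD _ 56 _ (by norm_num : 55 - 5 < 56), st_getD _ 56 _ (by norm_num : 55 - 53 < 56),
    st_getD _ 56 _ (by norm_num : 55 - 54 < 56)] at h
  have h := h.1
  have a := GG_DD I r j 39 rfl (x := 12 * j + 4) (by omega)
  have b := GG_DD I r j 88 rfl (x := 12 * j + 11) (by omega)
  change ((GG I r j 39 && GG I r j (39 + 1)) != (GG I r j 88 && GG I r j (88 + 1))) = true at h
  rw [a, b] at h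
  revert h
  cases DD I r (12 * j + 11) <;> cases DD I r (12 * j + 4) <;> simp

theorem ia_step {r j : ℕ} (hr : r < 2 * v) (h2 : j ≤ c) :
    DD I r (12 * (j + 1 : ℕ)) = DD I r (12 * j + 4) := by
  have a := ia_right hc hok hr h2
  have b := (ia_left hc hok hr (j := j + 1) (by omega) (by omega)).1
  rw [show (12 * (j + 1 : ℕ) - 1 : ℤ) = 12 * j + 11 by omega, a] at b
  simpa using b.symm

theorem ia_turn {r : ℕ} (hr : r + 1 < 2 * v) (he : r % 2 = 0) :
    DD I (r + 1) 4 = !DD I r 4 := by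
  have h := win_ok hc hok (r := r) (by omega) (j := 0) (by omega) (by norm_num)
    (win1 _ (ty_lt c val r 0))
  have h' := win_ok hc hok hr (j := 0) (by omega) (by norm_num) (win1 _ (ty_lt c val (r + 1) 0))
  have t : ty c val r 0 = 0 := by simp [ty, he]
  have t' : ty c val (r + 1) 0 = 1 := by
    simp only [ty, if_true]
    omega
  simp only [fin1, t, t', if_true, one_ne_zero, if_false,
    st_getD _ 42 _ (by norm_num : 41 - 20 < 42), st_getD _ 42 _ (by norm_num : 41 - 27 < 42),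
    st_getD _ 42 _ (by norm_num : 41 - 14 < 42), st_getD _ 42 _ (by norm_num : 41 - 21 < 42),
    st_getD _ 42 _ (by norm_num : 41 - 39 < 42), st_getD _ 42 _ (by norm_num : 41 - 40 < 42)]
    at h h'
  change ((GG I r 0 39 && GG I r 0 (39 + 1)) == (GG I r 0 20 && GG I r 0 27)) = true at h
  change ((GG I (r + 1) 0 39 && GG I (r + 1) 0 (39 + 1)) !=
    (GG I (r + 1) 0 14 && GG I (r + 1) 0 21)) = true at h'
  rw [GG_DD I r 0 39 rfl (x := 4) (by omega), GG_eq I r 0 20 (x := 1) (y := 6 * r + 5) (by omega)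
    (by omega), GG_eq I r 0 27 (x := 2) (y := 6 * r + 5) (by omega) (by omega)] at h
  rw [GG_DD I (r + 1) 0 39 rfl (x := 4) (by omega),
    GG_eq I (r + 1) 0 14 (x := 1) (y := 6 * r + 5) (by omega) (by omega),
    GG_eq I (r + 1) 0 21 (x := 2) (y := 6 * r + 5) (by omega) (by omega)] at h'
  rw [← beq_iff_eq.1 h] at h'
  revert h'
  cases DD I (r + 1) 4 <;> cases DD I r 4 <;> simp

theorem ia_row {r : ℕ} (hr : r < 2 * v) : ∀ j, j ≤ c → DD I r (12 * (j + 1 : ℕ)) = DD I r 4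
  | 0, h => by simpa using ia_step hc hok hr h
  | j + 1, h => by
    rw [ia_step hc hok hr h, ← (ia_left hc hok hr (j := j + 1) (by omega) (by omega)).2,
      ia_row hr j (by omega)]

end

theorem phase {v c : ℕ} {val : ℕ → ℕ → Bool} {I : Finset Pt}
    (hc : ∀ q ∈ I, corners q ⊆ (ptsL v c val).toFinset)
    (hok : ∀ p ∈ (ptsL v c val).toFinset, Ok I p) {r j : ℕ} (hr : r < 2 * v) (h1 : 1 ≤ j)
    (h2 : j ≤ c + 1) : Dom I r j = ph (fun i => Dom I (2 * i) 1) r := by
  obtain ⟨j, rfl⟩ : ∃ k, j = k + 1 := ⟨j - 1, by omega⟩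
  have e : ∀ r < 2 * v, ∀ j ≤ c, Dom I r (j + 1) = DD I r 4 := fun r hr j hj => by
    rw [dom_eq, ia_row hc hok hr j hj]
  rw [e r hr j (by omega), ph]
  have e1 := e (2 * (r / 2)) (by omega) 0 (by omega)
  rw [zero_add] at e1
  split_ifs with h
  · rw [e1, show 2 * (r / 2) = r by omega]
  · rw [e1, ← ia_turn hc hok (by omega) (by omega), show 2 * (r / 2) + 1 = r by omega]

end Pool.Agent.Lib.MP_1a3fd7_lc
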