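import Pool.Agent.Lib.MP_1a3fd7_lc.IA

namespace Pool.Agent.Lib.MP_1a3fd7_lc

open Relation

/-- The side of a point with respect to the wall in the column `j`. -/
def sdG (c : ℕ) (val : ℕ → ℕ → Bool) (I : Finset Pt) (j : ℕ) (p : Pt) : Bool :=
  if p.1 < 12 * j then true else
    sd (ty c val (p.2.toNat / 6) j) (Dom I (p.2.toNat / 6) j) (p.1 - 12 * j).toNat (p.2.toNat % 6)

theorem sd_big : ∀ t < 6, ∀ ph, ∀ ab ∈ leftL t ph, ab.1 < 12 := by decide +kernel

theorem sdG_left {c : ℕ} {val : ℕ → ℕ → Bool} {I : Finset Pt} {j : ℕ} {p : Pt}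
    (h : p.1 ≤ 12 * j + 5) : sdG c val I j p = true := by
  unfold sdG sd
  split_ifs
  · rfl
  · exact decide_eq_true (Or.inl (by omega))

theorem sdG_right {c : ℕ} {val : ℕ → ℕ → Bool} {I : Finset Pt} {j : ℕ} {p : Pt}
    (h : 12 * j + 12 ≤ p.1) : sdG c val I j p = false := by
  unfold sdG sd
  rw [if_neg (by omega)]
  refine decide_eq_false ?_
  rintro (a | a)
  · omega
  · have := sd_big _ (ty_lt ..) _ _ a
    simp only at this
    omega

theorem sdG_loc {c : ℕ} {val : ℕ → ℕ → Bool} {I : Finset Pt} {j r a b : ℕ} {p : Pt} (hb : b < 6)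
    (h1 : p.1 = 12 * j + a) (h2 : p.2 = 6 * r + b) :
    sdG c val I j p = sd (ty c val r j) (Dom I r j) a b := by
  unfold sdG
  rw [if_neg (by omega), show p.2.toNat / 6 = r by omega, show p.2.toNat % 6 = b by omega,
    show (p.1 - 12 * j).toNat = a by omega]

theorem barrier {v c : ℕ} {val : ℕ → ℕ → Bool} {I : Finset Pt}
    (hc : ∀ q ∈ I, corners q ⊆ (ptsL v c val).toFinset)
    (hok : ∀ p ∈ (ptsL v c val).toFinset, Ok I p) {j : ℕ} (hj : j < c)
    (hf : ∀ r < 2 * v, val r j = true → Dom I r (j + 1) = false) :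
    ∃ s : Pt → Bool, (∀ q ∈ I, ∀ p ∈ corners q, s p = s q) ∧ s (1, 3) = true ∧
      s (((12 * (c + 1) : ℕ) : ℤ), 3) = false := by
  refine ⟨sdG c val I (j + 1), fun q hq p hp => ?_, sdG_left (by simp only; omega),
    sdG_right (by simp only; omega)⟩
  have hp' := mem_corners.1 hp
  by_cases c1 : q.1 ≤ 12 * (j + 1 : ℕ) + 4
  · rw [sdG_left (p := q) (by omega), sdG_left (by rcases hp' with rfl | rfl | rfl | rfl <;> omega)]
  by_cases c2 : 12 * (j + 1 : ℕ) + 12 ≤ q.1
  · rw [sdG_right (p := q) c2, sdG_right (by rcases hp' with rfl | rfl | rfl | rfl <;> omega)]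
  have hb := tiles_box (small_pat c val) (List.mem_toFinset.1 (hc q hq (mem_corners.2 (Or.inl rfl))))
  obtain ⟨r, j', a, b, ha, hb', e1, e2⟩ := exists_loc hb.1 hb.2.2.1
  obtain rfl : j' = j + 1 := by omega
  have hr : r < 2 * v := by omega
  have t : ty c val r (j + 1) = if val r j then 3 else 2 := by
    unfold ty
    rw [if_neg (by omega), if_neg (by omega)]
    rfl
  have t4 : ty c val r (j + 1) < 4 := by
    rw [t]
    split_ifs <;> omega
  have h := win_ok hc hok hr (j := j + 1) (by omega) (by norm_num) (win2 _ t4)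
  have d : (GG I r (j + 1) (4 + 7 * 5) && GG I r (j + 1) (5 + 7 * 5)) = Dom I r (j + 1) := by
    rw [dom_eq, (ia_left hc hok hr (j := j + 1) (by omega) (by omega)).2]
    exact GG_DD I r (j + 1) 39 rfl (by omega)
  simp only [fin2, Bool.and_eq_true, st_getD _ 56 _ (by norm_num : 55 - 4 < 56),
    st_getD _ 56 _ (by norm_num : 55 - 5 < 56), show 56 - 1 - (55 - 4) = 4 from rfl,
    show 56 - 1 - (55 - 5) = 5 from rfl, d] at h
  have h3 : (ty c val r (j + 1) == 2 || (ty c val r (j + 1) == 3 && !Dom I r (j + 1))) = true := by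
    rw [t]
    cases hv : val r j
    · rfl
    · rw [hf r hr hv]
      rfl
  have h := h.2
  rw [h3, Bool.not_true, Bool.false_or, List.all_eq_true] at h
  have h := h (7 * (a - 4) + (b + 1)) (List.mem_range.2 (by omega))
  rw [st_getD _ 56 _ (by omega), GG_eq I r (j + 1) _ (x := q.1) (y := q.2) (by omega) (by omega),
    decide_eq_true hq, decide_eq_false (show ¬ 7 * (a - 4) + (b + 1) < 7 by omega),
    show (7 * (a - 4) + (b + 1)) / 7 + 5 = a + 1 by omega,
    show (7 * (a - 4) + (b + 1)) / 7 + 4 = a by omega,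
    show (7 * (a - 4) + (b + 1)) % 7 = b + 1 by omega, Nat.add_sub_cancel] at h
  simp only [Bool.not_true, Bool.false_or, Bool.and_eq_true, decide_eq_true_eq, beq_iff_eq] at h
  obtain ⟨⟨⟨⟨-, k0⟩, k1⟩, k2⟩, k3⟩ := h
  rw [sdG_loc (p := q) hb' e1 e2]
  rcases hp' with rfl | rfl | rfl | rfl
  · exact sdG_loc hb' e1 e2
  · rw [← k1]
    exact sdG_loc hb' (by simp only; omega) e2
  · rw [← k2]
    exact sdG_loc (by omega) e1 (by simp only; omega)
  · rw [← k3]
    exact sdG_loc (by omega) (by simp only; omega) (by simp only; omega)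

end Pool.Agent.Lib.MP_1a3fd7_lc
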