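import Pool.Agent.Lib.MP_1a3fd7_lc.Inst

namespace Pool.Agent.Lib.MP_1a3fd7_lc

open Relation

/-- Types of a tile and of the tile above it. -/
def IC_up (t t' : ℕ) : Bool :=
  (t == 0 && t' == 1) || (t == 1 && t' == 0) || (t == 4 && t' == 5) || (t == 5 && t' == 4) ||
    ((t == 2 || t == 3) && (t' == 2 || t' == 3))

theorem IC_ty_up (c : ℕ) (val : ℕ → ℕ → Bool) (r j : ℕ) :
    IC_up (ty c val r j) (ty c val (r + 1) j) = true := by
  unfold ty
  rcases Nat.mod_two_eq_zero_or_one r with h | h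
  · have h' : (r + 1) % 2 = 1 := by omega
    rw [h, h']
    split_ifs <;> rfl
  · have h' : (r + 1) % 2 = 0 := by omega
    rw [h, h']
    split_ifs <;> rfl

theorem IC_ty_even {c : ℕ} {val : ℕ → ℕ → Bool} {r j : ℕ}
    (h : ty c val r j = 0 ∨ ty c val r j = 4) : r % 2 = 0 := by
  unfold ty at h
  split_ifs at h <;> first | omega | simp at h

theorem IC_ty_odd {c : ℕ} {val : ℕ → ℕ → Bool} {r j : ℕ}
    (h : ty c val r j = 1 ∨ ty c val r j = 5) : r % 2 = 1 := by
  unfold ty at h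
  split_ifs at h <;> first | omega | simp at h

theorem IC_ty_two {c : ℕ} {val : ℕ → ℕ → Bool} {r j : ℕ} : 2 ≤ ty c val r j ↔ j ≠ 0 := by
  unfold ty
  split_ifs <;> omega

theorem IC_ty_four {c : ℕ} {val : ℕ → ℕ → Bool} {r j : ℕ} : ty c val r j < 4 ↔ j ≠ c + 1 := by
  unfold ty
  split_ifs <;> omega

theorem IC_ph {ρ : ℕ → Bool} {r : ℕ} (h : (r + 1) % 2 = 1) : ph ρ r = !ph ρ (r + 1) := by
  have h0 : r % 2 = 0 := by omega
  have h1 : (r + 1) / 2 = r / 2 := by omega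
  simp [ph, h, h0, h1]

set_option synthInstance.maxSize 2048 in
theorem IC_c1 : ∀ t < 6, ∀ b op, ∀ ab ∈ inL t b op, ab ∈ patL t ∧
    (ab.1 + 1 < 12 → (ab.1 + 1, ab.2) ∈ patL t) ∧ (ab.2 + 1 < 6 → (ab.1, ab.2 + 1) ∈ patL t) ∧
    (ab.1 + 1 < 12 → ab.2 + 1 < 6 → (ab.1 + 1, ab.2 + 1) ∈ patL t) := by
  decide +kernel

set_option synthInstance.maxSize 2048 in
theorem IC_c2 : ∀ t < 6, ∀ b op, ∀ ab ∈ inL t b op, ab.1 = 11 → t < 4 ∧ ab.2 + 1 < 6 ∧
    ∀ t' < 6, 2 ≤ t' → (0, ab.2) ∈ patL t' ∧ (0, ab.2 + 1) ∈ patL t' := by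
  decide +kernel

set_option synthInstance.maxSize 2048 in
theorem IC_c3 : ∀ t < 6, ∀ b op, ∀ ab ∈ inL t b op, ab.2 = 5 → ab.1 + 1 < 12 ∧
    (ab = (1, 5) ∨ t = 0 ∨ t = 4) ∧
    ∀ t' < 6, IC_up t t' = true → (ab.1, 0) ∈ patL t' ∧ (ab.1 + 1, 0) ∈ patL t' := by
  decide +kernel

theorem IC_k1 : ∀ t < 6, ∀ b op up, (t = 0 ∨ t = 4 → up = true) → ∀ ab ∈ patL t, 1 ≤ ab.1 →
    1 ≤ ab.2 → okb (decide ((ab.1 - 1, ab.2) ∈ cellT t b op up)) (decide (ab ∈ cellT t b op up))
      (decide ((ab.1 - 1, ab.2 - 1) ∈ cellT t b op up))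
      (decide ((ab.1, ab.2 - 1) ∈ cellT t b op up)) = true := by
  decide +kernel

theorem IC_k2 : ∀ t < 6, ∀ ab ∈ patL t, ab.1 = 0 → 2 ≤ t ∧ 1 ≤ ab.2 ∧ ∀ t' < 4, ∀ b op op' up,
    okb (decide ((11, ab.2) ∈ cellT t' b op' up)) (decide (ab ∈ cellT t b op up))
      (decide ((11, ab.2 - 1) ∈ cellT t' b op' up))
      (decide ((0, ab.2 - 1) ∈ cellT t b op up)) = true := by
  decide +kernel

set_option synthInstance.maxSize 2048 in
theorem IC_k3 : ∀ t < 6, ∀ ab ∈ patL t, ab.2 = 0 → ∀ t' < 6, IC_up t' t = true →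
    ∀ b b' op op' up, (t = 1 ∨ t = 5 → b' = !b) →
    okb (decide ((ab.1 - 1, 0) ∈ cellT t b op up)) (decide (ab ∈ cellT t b op up))
      (decide ((ab.1 - 1, 5) ∈ cellT t' b' op' true))
      (decide ((ab.1, 5) ∈ cellT t' b' op' true)) = true := by
  decide +kernel

theorem IC_k4 : ∀ t < 6, ∀ ab ∈ patL t, ab.2 = 0 → ¬ (t = 1 ∨ t = 5) → ∀ b op up,
    okb (decide ((ab.1 - 1, 0) ∈ cellT t b op up)) (decide (ab ∈ cellT t b op up))
      false false = true := by
  decide +kernel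

theorem IC_pt {v c : ℕ} {val : ℕ → ℕ → Bool} {r j a b : ℕ} (hr : r < 2 * v) (hj : j < c + 2)
    (hm : (a, b) ∈ patL (ty c val r j)) {p : Pt} (h1 : p.1 = 12 * j + a) (h2 : p.2 = 6 * r + b) :
    p ∈ (ptsL v c val).toFinset := by
  obtain ⟨k1, k2⟩ := small_pat c val r j _ hm
  exact List.mem_toFinset.2 ((mem_tiles' (small_pat c val) k1 k2 h1 h2).2 ⟨hr, hj, hm⟩)

theorem IC_mem {v c : ℕ} {val : ℕ → ℕ → Bool} {ρ : ℕ → Bool} {σ : ℕ → ℕ} {r j a b : ℕ}
    (hr : r < 2 * v) (hj : j < c + 2) (ha : a < 12) (hb : b < 6) {p : Pt}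
    (h1 : p.1 = 12 * j + a) (h2 : p.2 = 6 * r + b) :
    decide (p ∈ cells v c val ρ σ) = decide ((a, b) ∈ cellTab v c val ρ σ r j) := by
  rw [decide_eq_decide, cells, List.mem_toFinset,
    mem_tiles' (small_cell v c val ρ σ) ha hb h1 h2]
  exact ⟨fun h => h.2.2, fun h => ⟨hr, hj, h⟩⟩

theorem IC_neg {v c : ℕ} {val : ℕ → ℕ → Bool} {ρ : ℕ → Bool} {σ : ℕ → ℕ} {p : Pt}
    (h : p.2 < 0) : decide (p ∈ cells v c val ρ σ) = false := by
  rw [decide_eq_false_iff_not, cells, List.mem_toFinset]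
  intro hp
  have := tiles_box (small_cell v c val ρ σ) hp
  omega

theorem cells_cor {v c : ℕ} {val : ℕ → ℕ → Bool} {ρ : ℕ → Bool} {σ : ℕ → ℕ}
    (h : Wit v c val ρ σ) : ∀ q ∈ cells v c val ρ σ, corners q ⊆ (ptsL v c val).toFinset := by
  intro q hq p hp
  obtain ⟨r, hr, j, hj, ⟨a, b⟩, hm, rfl⟩ := mem_tiles.1 (List.mem_toFinset.1 hq)
  obtain ⟨ha, hb⟩ := small_cell v c val ρ σ r j _ hm
  obtain ⟨hi, hf⟩ := List.mem_filter.1 hm
  have ht := ty_lt c val r j
  obtain ⟨c0, c1, c2, c3⟩ := IC_c1 _ ht _ _ _ hi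
  have d2 := IC_c2 _ ht _ _ _ hi
  have d3 := IC_c3 _ ht _ _ _ hi
  simp only at ha hb c1 c2 c3 d2 d3
  have eR : a = 11 → j + 1 < c + 2 ∧ b + 1 < 6 ∧ (0, b) ∈ patL (ty c val r (j + 1)) ∧
      (0, b + 1) ∈ patL (ty c val r (j + 1)) := fun e => by
    obtain ⟨x1, x2, x3⟩ := d2 e
    have := IC_ty_four.1 x1
    exact ⟨by omega, x2, x3 _ (ty_lt ..) (IC_ty_two.2 (by omega))⟩
  have eU : b = 5 → r + 1 < 2 * v ∧ a + 1 < 12 ∧ (a, 0) ∈ patL (ty c val (r + 1) j) ∧
      (a + 1, 0) ∈ patL (ty c val (r + 1) j) := fun e => by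
    obtain ⟨x1, x2, x3⟩ := d3 e
    refine ⟨?_, x1, x3 _ (ty_lt ..) (IC_ty_up ..)⟩
    rcases x2 with x2 | x2
    · rw [x2] at hf
      simpa using hf
    · have := IC_ty_even x2
      omega
  rcases mem_corners.1 hp with rfl | rfl | rfl | rfl
  · exact IC_pt hr hj c0 (by simp) (by simp)
  · by_cases e : a = 11
    · obtain ⟨x1, -, x3, -⟩ := eR e
      exact IC_pt hr x1 x3 (by simp only; omega) (by simp)
    · exact IC_pt hr hj (c1 (by omega)) (by simp only; omega) (by simp)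
  · by_cases e : b = 5
    · obtain ⟨x1, -, x3, -⟩ := eU e
      exact IC_pt x1 hj x3 (by simp) (by simp only; omega)
    · exact IC_pt hr hj (c2 (by omega)) (by simp) (by simp only; omega)
  · by_cases e : a = 11
    · obtain ⟨x1, -, -, x3⟩ := eR e
      exact IC_pt hr x1 x3 (by simp only; omega) (by simp only; omega)
    · by_cases e' : b = 5
      · obtain ⟨x1, -, -, x3⟩ := eU e'
        exact IC_pt x1 hj x3 (by simp only; omega) (by simp only; omega)
      · exact IC_pt hr hj (c3 (by omega) (by omega)) (by simp only; omega) (by simp only; omega)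

theorem cells_ok {v c : ℕ} {val : ℕ → ℕ → Bool} {ρ : ℕ → Bool} {σ : ℕ → ℕ}
    (h : Wit v c val ρ σ) : ∀ p ∈ (ptsL v c val).toFinset, Ok (cells v c val ρ σ) p := by
  intro p hp
  obtain ⟨r, hr, j, hj, ⟨a, b⟩, hm, rfl⟩ := mem_tiles.1 (List.mem_toFinset.1 hp)
  obtain ⟨ha, hb⟩ := small_pat c val r j _ hm
  have ht := ty_lt c val r j
  simp only at ha hb
  unfold Ok
  by_cases ea : a = 0
  · obtain ⟨x1, x2, x3⟩ := IC_k2 _ ht _ hm ea
    simp only at x2 x3
    obtain ⟨j, rfl⟩ : ∃ k, j = k + 1 := ⟨j - 1, by have := IC_ty_two.1 x1; omega⟩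
    rw [IC_mem (j := j) (a := 11) (b := b) hr (by omega) (by omega) hb (by simp only; omega)
        (by simp only; omega),
      IC_mem hr hj ha hb (by simp only; omega) (by simp only; omega),
      IC_mem (j := j) (a := 11) (b := b - 1) hr (by omega) (by omega) (by omega)
        (by simp only; omega) (by simp only; omega),
      IC_mem (a := 0) (b := b - 1) hr hj (by omega) (by omega) (by simp only; omega)
        (by simp only; omega)]
    exact x3 _ (IC_ty_four.2 (by omega)) _ _ _ _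
  by_cases eb : b = 0
  · rw [IC_mem (a := a - 1) (b := 0) hr hj (by omega) (by omega) (by simp only; omega)
        (by simp only; omega),
      IC_mem hr hj ha hb (by simp only; omega) (by simp only; omega)]
    rcases r with _ | r
    · rw [IC_neg (by simp only; omega), IC_neg (by simp only; omega)]
      exact IC_k4 _ ht _ hm eb (fun x => by have := IC_ty_odd x; omega) _ _ _
    · rw [IC_mem (r := r) (a := a - 1) (b := 5) (by omega) hj (by omega) (by omega)
          (by simp only; omega) (by simp only; omega),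
        IC_mem (r := r) (a := a) (b := 5) (by omega) hj ha (by omega)
          (by simp only; omega) (by simp only; omega)]
      have := IC_k3 _ ht _ hm eb _ (ty_lt c val r j) (IC_ty_up ..) (ph ρ (r + 1)) (ph ρ r)
        (decide (1 ≤ j ∧ j ≤ c ∧ σ (j - 1) = r + 1)) (decide (1 ≤ j ∧ j ≤ c ∧ σ (j - 1) = r))
        (decide (r + 1 + 1 < 2 * v)) (fun x => IC_ph (IC_ty_odd x))
      unfold cellTab
      rw [decide_eq_true hr]
      exact this
  rw [IC_mem (a := a - 1) (b := b) hr hj (by omega) hb (by simp only; omega)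
      (by simp only; omega),
    IC_mem hr hj ha hb (by simp only; omega) (by simp only; omega),
    IC_mem (a := a - 1) (b := b - 1) hr hj (by omega) (by omega)
      (by simp only; omega) (by simp only; omega),
    IC_mem (a := a) (b := b - 1) hr hj ha (by omega) (by simp only; omega)
      (by simp only; omega)]
  exact IC_k1 _ ht _ _ _ (fun x => decide_eq_true (by have := IC_ty_even x; omega)) _ hm
    (by simp only; omega) (by simp only; omega)

end Pool.Agent.Lib.MP_1a3fd7_lc
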