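import Pool.Agent.Lib.MP_1a3fd7_lc.Inst

namespace Pool.Agent.Lib.MP_1a3fd7_lc

open Relation

/-- Adjacency of local cells. -/
def ID_adj (x y : ℕ × ℕ) : Bool :=
  (x.1 == y.1 && (x.2 == y.2 + 1 || y.2 == x.2 + 1)) ||
    (x.2 == y.2 && (x.1 == y.1 + 1 || y.1 == x.1 + 1))

/-- Breadth first search inside a list of local cells. -/
def ID_grow (L : List (ℕ × ℕ)) : ℕ → List (ℕ × ℕ) → List (ℕ × ℕ)
  | 0, S => S
  | n + 1, S => ID_grow L n (L.filter fun x => S.contains x || S.any (ID_adj x))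

/-- The cells of a tile through which it is joined to the rest. -/
def ID_root (t : ℕ) : List (ℕ × ℕ) :=
  if t = 0 then [(11, 4), (1, 5)] else if t = 1 then [(11, 4)] else if t = 4 then [(0, 4), (9, 5)]
  else if t = 5 then [(0, 4)] else [(0, 4), (11, 4)]

/-- The global cell with given tile and local coordinates. -/
def ID_pos (r j : ℕ) (x : ℕ × ℕ) : Pt := (((12 * j + x.1 : ℕ) : ℤ), ((6 * r + x.2 : ℕ) : ℤ))

theorem ID_grow_ind {L : List (ℕ × ℕ)} {P : ℕ × ℕ → Prop}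
    (hP : ∀ x ∈ L, ∀ y ∈ L, ID_adj x y = true → P y → P x) :
    ∀ (n : ℕ) (S : List (ℕ × ℕ)), (∀ x ∈ S, x ∈ L ∧ P x) → ∀ x ∈ ID_grow L n S, P x
  | 0, _, h, x, hx => (h x hx).2
  | n + 1, S, h, x, hx => by
    refine ID_grow_ind hP n _ (fun y hy => ?_) x hx
    obtain ⟨h1, h2⟩ := List.mem_filter.1 hy
    refine ⟨h1, ?_⟩
    rcases Bool.or_eq_true_iff.1 h2 with h3 | h3
    · exact (h y (List.contains_iff_mem.1 h3)).2
    · obtain ⟨z, hz, h4⟩ := List.any_eq_true.1 h3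
      exact hP y h1 z (h z hz).1 h4 (h z hz).2

theorem ID_s0 : ∀ t < 6, ∀ b op up, 2 ≤ t → ∀ x ∈ [(0, 4), (1, 0), (1, 5)],
    (x = (1, 5) → up = true) → ((cellT t b op up).contains x &&
      (ID_grow (cellT t b op up) 8 [(0, 4)]).contains x) = true := by
  decide +kernel

theorem ID_t0 (t : ℕ) (ht : t < 6) (b op up : Bool) (h : 2 ≤ t) (x : ℕ × ℕ)
    (hx : x ∈ [(0, 4), (1, 0), (1, 5)]) (hu : x = (1, 5) → up = true) :
    x ∈ cellT t b op up ∧ x ∈ ID_grow (cellT t b op up) 8 [(0, 4)] := by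
  simpa using ID_s0 t ht b op up h x hx hu

theorem ID_t2 : ∀ up, (11, 4) ∈ ID_grow (cellT 3 true true up) 14 [(0, 4)] := by
  decide +kernel

theorem ID_t3 : ∀ t < 6, ∀ b op up, (t = 0 ∨ t = 4 → up = true) →
    (∀ x ∈ ID_root t, x ∈ cellT t b op up) ∧
    (cellT t b op up).all (ID_grow (cellT t b op up) 16 (ID_root t)).contains = true := by
  decide +kernel

theorem ID_t4 : ∀ b op up, (1, 0) ∈ cellT 1 b op up ∧ (9, 0) ∈ cellT 5 b op up := by
  decide +kernel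

theorem ID_t5 : ∀ t < 4, ∀ b op up, (11, 4) ∈ cellT t b op up := by
  decide +kernel

theorem ID_symm {I : Finset Pt} {p q : Pt} (h : ReflTransGen (AdjIn I) p q) :
    ReflTransGen (AdjIn I) q p := by
  induction h with
  | refl => exact ReflTransGen.refl
  | tail _ hb ih =>
    obtain ⟨h1, h2, d, rfl⟩ := hb
    exact ReflTransGen.head ⟨h2, h1, d + 2, (nb_nb _ d).symm⟩ ih

section

variable {v c : ℕ} {val : ℕ → ℕ → Bool} {ρ : ℕ → Bool} {σ : ℕ → ℕ}

theorem ID_mem {r j : ℕ} (hr : r < 2 * v) (hj : j < c + 2) {x : ℕ × ℕ}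
    (hx : x ∈ cellTab v c val ρ σ r j) : ID_pos r j x ∈ cells v c val ρ σ :=
  List.mem_toFinset.2 (mem_tiles.2 ⟨r, hr, j, hj, x, hx, rfl⟩)

/-- A search inside one tile gives paths in the polyomino. -/
theorem ID_loc {r j : ℕ} (hr : r < 2 * v) (hj : j < c + 2) {z : Pt} {S : List (ℕ × ℕ)} {n : ℕ}
    (hS : ∀ x ∈ S, x ∈ cellTab v c val ρ σ r j ∧
      ReflTransGen (AdjIn (cells v c val ρ σ)) (ID_pos r j x) z)
    {x : ℕ × ℕ} (hx : x ∈ ID_grow (cellTab v c val ρ σ r j) n S) :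
    ReflTransGen (AdjIn (cells v c val ρ σ)) (ID_pos r j x) z := by
  refine ID_grow_ind (P := fun x => ReflTransGen (AdjIn (cells v c val ρ σ)) (ID_pos r j x) z)
    (fun x hx y hy ha h => ReflTransGen.head ⟨ID_mem hr hj hx, ID_mem hr hj hy, ?_⟩ h) n S hS x hx
  simp only [ID_adj, Bool.or_eq_true, Bool.and_eq_true, beq_iff_eq] at ha
  rcases ha with ⟨h1, h2 | h2⟩ | ⟨h1, h2 | h2⟩
  · exact ⟨2, by simp [nb, ID_pos, h1, h2]; omega⟩
  · exact ⟨0, by simp [nb, ID_pos, h1, h2]; omega⟩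
  · exact ⟨3, by simp [nb, ID_pos, h1, h2]; omega⟩
  · exact ⟨1, by simp [nb, ID_pos, h1, h2]; omega⟩

theorem ID_ty {r j : ℕ} (hj : 1 ≤ j) : 2 ≤ ty c val r j := by
  unfold ty
  split_ifs <;> omega

theorem ID_hub {r j : ℕ} (hj : 1 ≤ j) : (0, 4) ∈ cellTab v c val ρ σ r j :=
  (ID_t0 _ (ty_lt c val r j) _ _ _ (ID_ty hj) (0, 4) (by simp) (by simp)).1

/-- The ladder joins the hubs of one column. -/
theorem ID_col {j : ℕ} (h1 : 1 ≤ j) (hj : j < c + 2) : ∀ r < 2 * v,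
    ReflTransGen (AdjIn (cells v c val ρ σ)) (ID_pos r j (0, 4)) (ID_pos 0 j (0, 4)) := by
  intro r
  induction r with
  | zero => exact fun _ => ReflTransGen.refl
  | succ r ih =>
    intro hr
    have hr' : r < 2 * v := by omega
    obtain ⟨m1, g1⟩ : (1, 0) ∈ cellTab v c val ρ σ (r + 1) j ∧
        (1, 0) ∈ ID_grow (cellTab v c val ρ σ (r + 1) j) 8 [(0, 4)] :=
      ID_t0 _ (ty_lt c val _ j) _ _ _ (ID_ty h1) (1, 0) (by simp) (by simp)
    obtain ⟨m2, g2⟩ : (1, 5) ∈ cellTab v c val ρ σ r j ∧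
        (1, 5) ∈ ID_grow (cellTab v c val ρ σ r j) 8 [(0, 4)] :=
      ID_t0 _ (ty_lt c val _ j) _ _ _ (ID_ty h1) (1, 5) (by simp) (by simp [hr])
    have a1 := ID_loc (z := ID_pos (r + 1) j (0, 4)) hr hj
      (by simpa using ⟨ID_hub h1, ReflTransGen.refl⟩) g1
    have a2 := ID_loc (z := ID_pos 0 j (0, 4)) hr' hj (by simpa using ⟨ID_hub h1, ih hr'⟩) g2
    refine (ID_symm a1).trans (ReflTransGen.head ⟨ID_mem hr hj m1, ID_mem hr' hj m2, 2, ?_⟩ a2)
    simp [nb, ID_pos]; omega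

/-- The last cell of the wire is next to the following hub. -/
theorem ID_end {r j : ℕ} (hr : r < 2 * v) (hj : j ≤ c) :
    AdjIn (cells v c val ρ σ) (ID_pos r j (11, 4)) (ID_pos r (j + 1) (0, 4)) := by
  refine ⟨ID_mem hr (by omega) (ID_t5 _ ?_ _ _ _), ID_mem hr (by omega) (ID_hub (by omega)), 1, ?_⟩
  · unfold ty
    split_ifs <;> omega
  · simp [nb, ID_pos]; omega

/-- All hubs are joined. -/
theorem ID_hubs (h : Wit v c val ρ σ) : ∀ j ≤ c, ∀ r < 2 * v,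
    ReflTransGen (AdjIn (cells v c val ρ σ)) (ID_pos r (j + 1) (0, 4)) (ID_pos 0 1 (0, 4)) := by
  intro j
  induction j with
  | zero => exact fun _ => ID_col le_rfl (by omega)
  | succ j ih =>
    intro hj r hr
    obtain ⟨s1, s2, s3⟩ := h j hj
    have e : cellTab v c val ρ σ (σ j) (j + 1) = cellT 3 true true (decide (σ j + 1 < 2 * v)) := by
      have : j ≠ c := by omega
      simp [cellTab, ty, s2, s3, this, Nat.succ_le_of_lt hj]
    have a : ReflTransGen (AdjIn (cells v c val ρ σ)) (ID_pos (σ j) (j + 1) (11, 4))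
        (ID_pos 0 1 (0, 4)) :=
      ID_loc s1 (by omega) (S := [(0, 4)]) (n := 14)
        (by simpa using ⟨ID_hub (by omega), ih (by omega) _ s1⟩) (e ▸ ID_t2 _)
    exact (ID_col (by omega) (by omega) r hr).trans
      ((ID_symm (ID_col (by omega) (by omega) _ s1)).trans
        ((ID_symm (ReflTransGen.single (ID_end s1 hj))).trans a))

/-- A tile whose roots reach `z` reaches `z`. -/
theorem ID_tile {r j : ℕ} (hr : r < 2 * v) (hj : j < c + 2) {z : Pt}
    (hS : ∀ x ∈ ID_root (ty c val r j), x ∈ cellTab v c val ρ σ r j →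
      ReflTransGen (AdjIn (cells v c val ρ σ)) (ID_pos r j x) z)
    {x : ℕ × ℕ} (hx : x ∈ cellTab v c val ρ σ r j) :
    ReflTransGen (AdjIn (cells v c val ρ σ)) (ID_pos r j x) z := by
  obtain ⟨a, b⟩ := ID_t3 _ (ty_lt c val r j) (ph ρ r) (decide (1 ≤ j ∧ j ≤ c ∧ σ (j - 1) = r))
    (decide (r + 1 < 2 * v)) (by
      unfold ty
      rw [decide_eq_true_iff]
      split_ifs <;> first | omega | simp)
  exact ID_loc hr hj (fun y hy => ⟨a y hy, hS y hy (a y hy)⟩)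
    (List.contains_iff_mem.1 (List.all_eq_true.1 b x hx))

end

theorem cells_conn {v c : ℕ} {val : ℕ → ℕ → Bool} {ρ : ℕ → Bool} {σ : ℕ → ℕ} (hv : 0 < v)
    (h : Wit v c val ρ σ) : ∃ q0 ∈ cells v c val ρ σ, ∀ q ∈ cells v c val ρ σ,
      ReflTransGen (AdjIn (cells v c val ρ σ)) q q0 := by
  refine ⟨ID_pos 0 1 (0, 4), ID_mem (by omega) (by omega) (ID_hub le_rfl), fun q hq => ?_⟩
  have e1 : ∀ j ≤ c, ∀ r < 2 * v, ReflTransGen (AdjIn (cells v c val ρ σ)) (ID_pos r j (11, 4))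
      (ID_pos 0 1 (0, 4)) := fun j hj r hr => ReflTransGen.head (ID_end hr hj) (ID_hubs h j hj r hr)
  have odd : ∀ r < 2 * v, r % 2 = 1 → ∀ j, j = 0 ∨ j = c + 1 → ∀ x ∈ cellTab v c val ρ σ r j,
      ReflTransGen (AdjIn (cells v c val ρ σ)) (ID_pos r j x) (ID_pos 0 1 (0, 4)) := by
    rintro r hr h2 j (rfl | rfl) x hx
    · refine ID_tile hr (by omega) (fun y hy _ => ?_) hx
      obtain rfl : y = (11, 4) := by simpa [ID_root, ty, h2] using hy
      exact e1 0 (by omega) r hr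
    · refine ID_tile hr (by omega) (fun y hy _ => ?_) hx
      obtain rfl : y = (0, 4) := by simpa [ID_root, ty, h2] using hy
      exact ID_hubs h c le_rfl r hr
  obtain ⟨r, hr, j, hj, x, hx, rfl⟩ := mem_tiles.1 (List.mem_toFinset.1 hq)
  by_cases h0 : j = 0 ∨ j = c + 1
  · by_cases h2 : r % 2 = 1
    · exact odd r hr h2 j h0 x hx
    have h3 : r % 2 = 0 := by omega
    have h4 : (r + 1) % 2 = 1 := by omega
    have h5 : r + 1 < 2 * v := by omega
    refine ID_tile hr hj (fun y hy hm => ?_) hx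
    rcases h0 with rfl | rfl
    · obtain rfl | rfl : y = (11, 4) ∨ y = (1, 5) := by simpa [ID_root, ty, h3] using hy
      · exact e1 0 (by omega) r hr
      have m : (1, 0) ∈ cellTab v c val ρ σ (r + 1) 0 := by
        simpa [cellTab, ty, h4] using (ID_t4 _ _ _).1
      refine ReflTransGen.head ⟨ID_mem hr hj hm, ID_mem h5 hj m, 0, ?_⟩
        (odd _ h5 h4 0 (Or.inl rfl) _ m)
      simp [nb, ID_pos]; omega
    · obtain rfl | rfl : y = (0, 4) ∨ y = (9, 5) := by simpa [ID_root, ty, h3] using hy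
      · exact ID_hubs h c le_rfl r hr
      have m : (9, 0) ∈ cellTab v c val ρ σ (r + 1) (c + 1) := by
        simpa [cellTab, ty, h4] using (ID_t4 _ _ _).2
      refine ReflTransGen.head ⟨ID_mem hr hj hm, ID_mem h5 hj m, 0, ?_⟩
        (odd _ h5 h4 _ (Or.inr rfl) _ m)
      simp [nb, ID_pos]; omega
  obtain ⟨j, rfl⟩ : ∃ k, j = k + 1 := ⟨j - 1, by omega⟩
  refine ID_tile hr hj (fun y hy _ => ?_) hx
  have hc : j ≠ c := by omega
  obtain rfl | rfl : y = (0, 4) ∨ y = (11, 4) := by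
    cases hb : val r j <;> simpa [ID_root, ty, hc, hb] using hy
  · exact ID_hubs h j (by omega) r hr
  · exact e1 _ (by omega) r hr

end Pool.Agent.Lib.MP_1a3fd7_lc
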