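import Pool.Agent.Lib.MP_1a3fd7_lc.Inst

namespace Pool.Agent.Lib.MP_1a3fd7_lc

open Relation

/-- The bit mask of a list. -/
def IE_mk (l : List ℕ) : ℕ := l.foldr (fun n m => 2 ^ n ||| m) 0

theorem IE_mk_iff {l : List ℕ} {n : ℕ} : (IE_mk l).testBit n = true ↔ n ∈ l := by
  induction l with
  | nil => simp [IE_mk]
  | cons a l ih =>
    have : IE_mk (a :: l) = 2 ^ a ||| IE_mk l := rfl
    rw [this, Nat.testBit_or, Bool.or_eq_true, ih, Nat.testBit_two_pow]
    simp [eq_comm]

/-- The mask of the local cells outside a table. -/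
def IE_fr (L : List (ℕ × ℕ)) : ℕ :=
  IE_mk ((List.range 72).filter fun n => !L.contains (n % 12, n / 12))

theorem IE_fr_iff {L : List (ℕ × ℕ)} {n : ℕ} :
    (IE_fr L).testBit n = true ↔ n < 72 ∧ (n % 12, n / 12) ∉ L := by
  rw [IE_fr, IE_mk_iff]
  simp

/-- One round of the search. -/
def IE_stp (F S : ℕ) : ℕ :=
  (S ||| ((S <<< 1) &&& 0xFFEFFEFFEFFEFFEFFE) ||| ((S >>> 1) &&& 0x7FF7FF7FF7FF7FF7FF) |||
    (S <<< 12) ||| (S >>> 12)) &&& F

/-- The search. -/
def IE_bfs (F : ℕ) : ℕ → ℕ → ℕ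
  | 0, S => S
  | k + 1, S => IE_bfs F k (IE_stp F S)

theorem IE_cols : ∀ n < 72, (Nat.testBit 0xFFEFFEFFEFFEFFEFFE n = true → n % 12 ≠ 0) ∧
    (Nat.testBit 0x7FF7FF7FF7FF7FF7FF n = true → n % 12 ≠ 11) := by
  decide +kernel

/-- The exits of a tile. -/
def IE_tg (t : ℕ) : List ℕ :=
  if t = 0 then [0, 60] else if t = 1 then [0, 60, 7] else if t = 4 then [0, 60, 11]
  else if t = 5 then [0, 60, 11, 5] else [0, 60, 7, 67]

theorem IE_full : ∀ t < 6, ∀ b op up, IE_bfs (IE_fr (cellT t b op up)) 40 (IE_mk (IE_tg t)) =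
    IE_fr (cellT t b op up) := by
  decide +kernel

theorem IE_thru : ∀ t ∈ [2, 3], ∀ b up,
    (IE_bfs (IE_fr (cellT t b false up)) 40 (IE_mk [7])).testBit 67 = true ∧
    (IE_bfs (IE_fr (cellT t b false up)) 40 (IE_mk [67])).testBit 7 = true := by
  decide +kernel

theorem IE_outs : ∀ t < 6, ∀ b op up, ∀ n ∈ [0, 60, 7, 67, 11, 71, 5, 65],
    n < 72 ∧ (n % 12, n / 12) ∉ cellT t b op up := by
  decide +kernel

/-- The cell is outside `I` and reaches the cell `(-1, -1)` outside `I`. -/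
def IE_R (I : Finset Pt) (q : Pt) : Prop := q ∉ I ∧ ReflTransGen (AdjOut I) q (-1, -1)

theorem IE_step {I : Finset Pt} {q q' : Pt} (d : Fin 4) (hq : q ∉ I) (e : q' = nb q d)
    (h : IE_R I q') : IE_R I q :=
  ⟨hq, ReflTransGen.head ⟨hq, h.1, d, e⟩ h.2⟩

theorem IE_box {I : Finset Pt} {X Y : ℤ}
    (hb : ∀ p ∈ I, 0 ≤ p.1 ∧ p.1 < X ∧ 0 ≤ p.2 ∧ p.2 < Y) {x y : ℤ}
    (h : x < 0 ∨ X ≤ x ∨ y < 0 ∨ Y ≤ y) : IE_R I (x, y) := by
  have no : ∀ x y : ℤ, x < 0 ∨ X ≤ x ∨ y < 0 ∨ Y ≤ y → (x, y) ∉ I := fun x y h m => by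
    have := hb _ m
    simp only at this
    omega
  have a0 : IE_R I (-1, -1) := ⟨no _ _ (by omega), ReflTransGen.refl⟩
  have a1 : ∀ x : ℤ, IE_R I (x, -1) := fun x => by
    rcases le_total x (-1) with hx | hx
    · induction x, hx using Int.leInductionDown with
      | base => exact a0
      | pred n _ ih => exact IE_step 1 (no _ _ (by omega)) (by simp [nb]) ih
    · induction x, hx using Int.leInduction with
      | base => exact a0
      | succ n _ ih => exact IE_step 3 (no _ _ (by omega)) (by simp [nb]) ih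
  have a2 : ∀ x y : ℤ, y ≤ -1 → IE_R I (x, y) := fun x y hy => by
    induction y, hy using Int.leInductionDown with
    | base => exact a1 x
    | pred n _ ih => exact IE_step 0 (no _ _ (by omega)) (by simp [nb]) ih
  have a3 : ∀ x y : ℤ, x < 0 ∨ X ≤ x → IE_R I (x, y) := fun x y hx => by
    rcases le_total y (-1) with hy | hy
    · exact a2 x y hy
    · induction y, hy using Int.leInduction with
      | base => exact a1 x
      | succ n _ ih => exact IE_step 2 (no _ _ (by omega)) (by simp [nb]) ih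
  have a4 : ∀ x y : ℤ, Y ≤ y → IE_R I (x, y) := fun x y hy => by
    rcases le_total x (-1) with hx | hx
    · exact a3 x y (by omega)
    · induction x, hx using Int.leInduction with
      | base => exact a3 _ y (by omega)
      | succ n _ ih => exact IE_step 3 (no _ _ (by omega)) (by simp [nb]) ih
  rcases h with h | h | h | h
  · exact a3 x y (Or.inl h)
  · exact a3 x y (Or.inr h)
  · exact a2 x y (by omega)
  · exact a4 x y h

/-- The cell number `n` of the tile `(r, j)`. -/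
def IE_g (r j n : ℕ) : Pt := (((12 * j + n % 12 : ℕ) : ℤ), ((6 * r + n / 12 : ℕ) : ℤ))

theorem IE_tile {I : Finset Pt} {r j : ℕ} {L : List (ℕ × ℕ)}
    (hI : ∀ n < 72, (n % 12, n / 12) ∉ L → IE_g r j n ∉ I) (k : ℕ) : ∀ S : ℕ,
    (∀ n, S.testBit n = true → IE_R I (IE_g r j n)) →
      ∀ n, (IE_bfs (IE_fr L) k S).testBit n = true → IE_R I (IE_g r j n) := by
  induction k with
  | zero => exact fun S h => h
  | succ k ih =>
    refine fun S h => ih _ fun n hn => ?_
    simp only [IE_stp, Nat.testBit_and, Nat.testBit_or, Nat.testBit_shiftLeft,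
      Nat.testBit_shiftRight, Bool.and_eq_true, Bool.or_eq_true, decide_eq_true_eq,
      IE_fr_iff] at hn
    obtain ⟨hn, h72, hL⟩ := hn
    have ho := hI n h72 hL
    obtain ⟨c1, c2⟩ := IE_cols n h72
    rcases hn with (((hn | ⟨⟨h1, hn⟩, hc⟩) | ⟨hn, hc⟩) | ⟨h1, hn⟩) | hn
    · exact h n hn
    · have := c1 hc
      refine IE_step 3 ho (Prod.ext ?_ ?_) (h _ hn) <;> simp [IE_g, nb] <;> omega
    · have := c2 hc
      refine IE_step 1 ho (Prod.ext ?_ ?_) (h _ hn) <;> simp [IE_g, nb] <;> omega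
    · refine IE_step 2 ho (Prod.ext ?_ ?_) (h _ hn) <;> simp [IE_g, nb] <;> omega
    · refine IE_step 0 ho (Prod.ext ?_ ?_) (h _ hn) <;> simp [IE_g, nb] <;> omega

section

variable {v c : ℕ} {val : ℕ → ℕ → Bool} {ρ : ℕ → Bool} {σ : ℕ → ℕ}

theorem IE_notin {r j n : ℕ} (hn : n < 72) (h : (n % 12, n / 12) ∉ cellTab v c val ρ σ r j) :
    IE_g r j n ∉ cells v c val ρ σ := fun m =>
  h ((mem_tiles' (small_cell v c val ρ σ) (a := n % 12) (b := n / 12) (r := r) (j := j)
    (by omega) (by omega) (by simp [IE_g]) (by simp [IE_g])).1 (List.mem_toFinset.1 m)).2.2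

theorem IE_lt {n : ℕ} (hn : n ∈ [0, 60, 7, 67, 11, 71, 5, 65]) : n < 72 :=
  (IE_outs 0 (by omega) true true true n hn).1

theorem IE_exit (r j : ℕ) {n : ℕ} (hn : n ∈ [0, 60, 7, 67, 11, 71, 5, 65]) :
    (n % 12, n / 12) ∉ cellTab v c val ρ σ r j :=
  (IE_outs _ (ty_lt c val r j) _ _ _ n hn).2

theorem IE_exit' (r j : ℕ) {n : ℕ} (hn : n ∈ [0, 60, 7, 67, 11, 71, 5, 65]) :
    IE_g r j n ∉ cells v c val ρ σ :=
  IE_notin (IE_lt hn) (IE_exit r j hn)

theorem IE_far {x y : ℤ} (h : x < 0 ∨ (12 * (c + 2) : ℤ) ≤ x ∨ y < 0 ∨ (12 * v : ℤ) ≤ y) :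
    IE_R (cells v c val ρ σ) (x, y) :=
  IE_box (fun p hp => by
    have := tiles_box (small_cell v c val ρ σ) (List.mem_toFinset.1 hp)
    push_cast at this
    omega) h

/-- All cells of the tile outside the polyomino reach the far cell. -/
def IE_T (v c : ℕ) (val : ℕ → ℕ → Bool) (ρ : ℕ → Bool) (σ : ℕ → ℕ) (r j : ℕ) : Prop :=
  ∀ n < 72, (n % 12, n / 12) ∉ cellTab v c val ρ σ r j → IE_R (cells v c val ρ σ) (IE_g r j n)

theorem IE_all {r j : ℕ}
    (h : ∀ n ∈ IE_tg (ty c val r j), IE_R (cells v c val ρ σ) (IE_g r j n)) :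
    IE_T v c val ρ σ r j := fun n hn hL => by
  refine IE_tile (L := cellTab v c val ρ σ r j) (fun n => IE_notin) 40
    (IE_mk (IE_tg (ty c val r j))) (fun n hn => h n (IE_mk_iff.1 hn)) n ?_
  unfold cellTab at hL ⊢
  rw [IE_full _ (ty_lt c val r j)]
  exact IE_fr_iff.2 ⟨hn, hL⟩

theorem IE_pass {r j : ℕ} (hj : j < c) (hr : σ j ≠ r) :
    IE_R (cells v c val ρ σ) (IE_g r (j + 1) 7) ↔ IE_R (cells v c val ρ σ) (IE_g r (j + 1) 67) := by
  have ht : ty c val r (j + 1) ∈ [2, 3] := by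
    have hc : j ≠ c := by omega
    by_cases hv : val r j = true <;> simp [ty, hc, hv]
  have e : cellTab v c val ρ σ r (j + 1) =
      cellT (ty c val r (j + 1)) (ph ρ r) false (decide (r + 1 < 2 * v)) := by
    simp [cellTab, hr]
  obtain ⟨p1, p2⟩ := IE_thru _ ht (ph ρ r) (decide (r + 1 < 2 * v))
  rw [← e] at p1 p2
  constructor
  · intro h
    refine IE_tile (fun n => IE_notin) 40 _ (fun n hn => ?_) 67 p1
    rw [List.mem_singleton.1 (IE_mk_iff.1 hn)]
    exact h
  · intro h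
    refine IE_tile (fun n => IE_notin) 40 _ (fun n hn => ?_) 7 p2
    rw [List.mem_singleton.1 (IE_mk_iff.1 hn)]
    exact h

theorem IE_down {j : ℕ} (hj : j < c) : ∀ r ≤ σ j, IE_R (cells v c val ρ σ) (IE_g r (j + 1) 7) := by
  intro r
  induction r with
  | zero =>
    intro _
    refine IE_step 2 (IE_exit' _ _ (by simp)) rfl ?_
    simp only [nb, IE_g]
    exact IE_far (by simp)
  | succ r ih =>
    intro h
    refine IE_step 2 (IE_exit' _ _ (by simp)) (Prod.ext ?_ ?_)
      ((IE_pass hj (by omega)).1 (ih (by omega))) <;> simp [IE_g, nb] <;> omega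

theorem IE_up {j : ℕ} (hj : j < c) (k : ℕ) : ∀ r, r + k + 1 = 2 * v → σ j ≤ r →
    IE_R (cells v c val ρ σ) (IE_g r (j + 1) 67) := by
  induction k with
  | zero =>
    intro r hr _
    refine IE_step 0 (IE_exit' _ _ (by simp)) rfl ?_
    simp only [nb, IE_g]
    exact IE_far (by simp; omega)
  | succ k ih =>
    intro r hr h
    refine IE_step 0 (IE_exit' _ _ (by simp)) (Prod.ext ?_ ?_)
      ((IE_pass hj (by omega)).2 (ih (r + 1) (by omega) (by omega))) <;> simp [IE_g, nb] <;> omega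

theorem IE_below {r j n : ℕ} (hn : n = 5 ∨ n = 7) (h : IE_T v c val ρ σ r j) :
    IE_R (cells v c val ρ σ) (IE_g (r + 1) j n) := by
  have h1 : n ∈ [0, 60, 7, 67, 11, 71, 5, 65] := by rcases hn with rfl | rfl <;> simp
  have h2 : n + 60 ∈ [0, 60, 7, 67, 11, 71, 5, 65] := by rcases hn with rfl | rfl <;> simp
  refine IE_step 2 (IE_exit' _ _ h1) (Prod.ext ?_ ?_)
    (h (n + 60) (IE_lt h2) (IE_exit r j h2)) <;> simp [IE_g, nb] <;> omega

theorem IE_col (j : ℕ) : j < c + 2 → ∀ r < 2 * v, IE_T v c val ρ σ r j := by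
  induction j with
  | zero =>
    intro _
    have l : ∀ r, ∀ n, n = 0 ∨ n = 60 → IE_R (cells v c val ρ σ) (IE_g r 0 n) := fun r n hn => by
      refine IE_step 3 (IE_exit' _ _ (by rcases hn with rfl | rfl <;> simp)) rfl ?_
      simp only [nb, IE_g]
      exact IE_far (by rcases hn with rfl | rfl <;> simp)
    have ev : ∀ r, r % 2 = 0 → IE_T v c val ρ σ r 0 := fun r hr =>
      IE_all fun n hn => l r n (by simpa [ty, hr, IE_tg] using hn)
    intro r _
    rcases Nat.mod_two_eq_zero_or_one r with hr | hr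
    · exact ev r hr
    · obtain ⟨r, rfl⟩ : ∃ r', r = r' + 1 := ⟨r - 1, by omega⟩
      refine IE_all fun n hn => ?_
      have : n = 0 ∨ n = 60 ∨ n = 7 := by simpa [ty, hr, IE_tg] using hn
      rcases this with h | h | h
      · exact l _ n (Or.inl h)
      · exact l _ n (Or.inr h)
      · exact IE_below (Or.inr h) (ev r (by omega))
  | succ j ih =>
    intro hj
    have l : ∀ r < 2 * v, ∀ n, n = 0 ∨ n = 60 →
        IE_R (cells v c val ρ σ) (IE_g r (j + 1) n) := fun r hr n hn => by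
      have h1 : n ∈ [0, 60, 7, 67, 11, 71, 5, 65] := by rcases hn with rfl | rfl <;> simp
      have h2 : n + 11 ∈ [0, 60, 7, 67, 11, 71, 5, 65] := by rcases hn with rfl | rfl <;> simp
      refine IE_step 3 (IE_exit' _ _ h1) (Prod.ext ?_ ?_)
        (ih (by omega) r hr (n + 11) (IE_lt h2) (IE_exit r j h2)) <;>
        simp [IE_g, nb] <;> omega
    by_cases hc : j = c
    · subst hc
      have l2 : ∀ r, IE_R (cells v j val ρ σ) (IE_g r (j + 1) 11) := fun r => by
        refine IE_step 1 (IE_exit' _ _ (by simp)) rfl ?_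
        simp only [nb, IE_g]
        exact IE_far (by simp; omega)
      have ev : ∀ r < 2 * v, r % 2 = 0 → IE_T v j val ρ σ r (j + 1) := fun r h hr =>
        IE_all fun n hn => by
          have : n = 0 ∨ n = 60 ∨ n = 11 := by simpa [ty, hr, IE_tg] using hn
          rcases this with h1 | h1 | rfl
          · exact l r h n (Or.inl h1)
          · exact l r h n (Or.inr h1)
          · exact l2 r
      intro r h
      rcases Nat.mod_two_eq_zero_or_one r with hr | hr
      · exact ev r h hr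
      · obtain ⟨r, rfl⟩ : ∃ r', r = r' + 1 := ⟨r - 1, by omega⟩
        refine IE_all fun n hn => ?_
        have : n = 0 ∨ n = 60 ∨ n = 11 ∨ n = 5 := by simpa [ty, hr, IE_tg] using hn
        rcases this with h1 | h1 | rfl | h1
        · exact l _ h n (Or.inl h1)
        · exact l _ h n (Or.inr h1)
        · exact l2 _
        · exact IE_below (Or.inl h1) (ev r (by omega) (by omega))
    · have hj' : j < c := by omega
      intro r hr
      refine IE_all fun n hn => ?_
      have : n = 0 ∨ n = 60 ∨ n = 7 ∨ n = 67 := by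
        by_cases hv : val r j = true <;> simpa [ty, hc, hv, IE_tg] using hn
      have u : σ j ≤ r → IE_R (cells v c val ρ σ) (IE_g r (j + 1) 67) :=
        IE_up hj' (2 * v - r - 1) r (by omega)
      rcases this with h1 | h1 | rfl | rfl
      · exact l r hr n (Or.inl h1)
      · exact l r hr n (Or.inr h1)
      · by_cases hs : r ≤ σ j
        · exact IE_down hj' r hs
        · exact (IE_pass hj' (by omega)).2 (u (by omega))
      · by_cases hs : σ j ≤ r
        · exact u hs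
        · exact (IE_pass hj' (by omega)).1 (IE_down hj' r (by omega))

end

theorem cells_out {v c : ℕ} {val : ℕ → ℕ → Bool} {ρ : ℕ → Bool} {σ : ℕ → ℕ}
    (h : Wit v c val ρ σ) : ∃ o : Pt, (∀ k : ℕ, (o.1, o.2 + k) ∉ cells v c val ρ σ) ∧
      ∀ q ∉ cells v c val ρ σ, ReflTransGen (AdjOut (cells v c val ρ σ)) q o := by
  refine ⟨(-1, -1), fun k => (IE_far (Or.inl (by simp))).1, fun q hq => ?_⟩
  by_cases hb : q.1 < 0 ∨ (12 * (c + 2) : ℤ) ≤ q.1 ∨ q.2 < 0 ∨ (12 * v : ℤ) ≤ q.2
  · exact (IE_far hb).2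
  obtain ⟨r, j, a, b, ha, hb', e1, e2⟩ := exists_loc (p := q) (by omega) (by omega)
  have e : q = IE_g r j (12 * b + a) := by
    refine Prod.ext ?_ ?_ <;> simp [IE_g] <;> omega
  have hr : r < 2 * v := by omega
  have hj : j < c + 2 := by omega
  have k1 : (12 * b + a) % 12 = a := by omega
  have k2 : (12 * b + a) / 12 = b := by omega
  rw [e]
  refine (IE_col j hj r hr (12 * b + a) (by omega) fun m => hq ?_).2
  rw [k1, k2] at m
  exact List.mem_toFinset.2 ((mem_tiles' (small_cell v c val ρ σ) ha hb' e1 e2).2 ⟨hr, hj, m⟩)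

end Pool.Agent.Lib.MP_1a3fd7_lc
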