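import Pool.Agent.Lib.MP_1a3fd7_lc.Comb

/-!
The instance attached to a formula. Rows `r < 2 v` are literals, column 0 and column `c + 1` hold
the turns, column `j + 1` is clause `j`; `val r j` says that literal `r` occurs in clause `j`.
-/

namespace Pool.Agent.Lib.MP_1a3fd7_lc

/-- The points of the six tiles: left ends, wall, valve, right ends. -/
def patL (t : ℕ) : List (ℕ × ℕ) :=
  if t = 0 then
    [(1, 3), (2, 3), (3, 3), (4, 3), (5, 3), (6, 3), (7, 3), (8, 3), (9, 3), (10, 3), (11, 3),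
     (1, 4), (2, 4), (3, 4), (4, 4), (5, 4), (6, 4), (7, 4), (8, 4), (9, 4), (10, 4), (11, 4),
     (1, 5), (2, 5), (3, 5), (4, 5), (5, 5), (6, 5), (7, 5), (8, 5), (9, 5), (10, 5), (11, 5)]
  else if t = 1 then
    [(1, 0), (2, 0), (3, 0), (1, 1), (2, 1), (3, 1), (1, 2), (2, 2), (3, 2), (1, 3), (2, 3),
     (3, 3), (4, 3), (5, 3), (6, 3), (7, 3), (8, 3), (9, 3), (10, 3), (11, 3), (1, 4), (2, 4),
     (3, 4), (4, 4), (5, 4), (6, 4), (7, 4), (8, 4), (9, 4), (10, 4), (11, 4), (1, 5), (2, 5),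
     (3, 5), (4, 5), (5, 5), (6, 5), (7, 5), (8, 5), (9, 5), (10, 5), (11, 5)]
  else if t = 2 then
    [(1, 0), (2, 0), (1, 1), (2, 1), (3, 1), (1, 2), (2, 2), (3, 2), (8, 2), (9, 2), (10, 2),
     (0, 3), (1, 3), (2, 3), (3, 3), (4, 3), (5, 3), (6, 3), (7, 3), (8, 3), (9, 3), (10, 3),
     (11, 3), (0, 4), (1, 4), (2, 4), (3, 4), (4, 4), (5, 4), (6, 4), (7, 4), (8, 4), (9, 4),
     (10, 4), (11, 4), (0, 5), (1, 5), (2, 5), (3, 5), (4, 5), (5, 5), (6, 5), (7, 5), (8, 5),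
     (10, 5), (11, 5)]
  else if t = 3 then
    [(1, 0), (2, 0), (1, 1), (2, 1), (3, 1), (1, 2), (2, 2), (3, 2), (6, 2), (7, 2), (8, 2),
     (9, 2), (10, 2), (0, 3), (1, 3), (2, 3), (3, 3), (4, 3), (5, 3), (6, 3), (7, 3), (8, 3),
     (9, 3), (10, 3), (11, 3), (0, 4), (1, 4), (2, 4), (3, 4), (4, 4), (5, 4), (6, 4), (7, 4),
     (8, 4), (9, 4), (10, 4), (11, 4), (0, 5), (1, 5), (2, 5), (3, 5), (4, 5), (5, 5), (6, 5),
     (7, 5), (8, 5), (10, 5), (11, 5)]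
  else if t = 4 then
    [(1, 0), (2, 0), (1, 1), (2, 1), (3, 1), (1, 2), (2, 2), (3, 2), (0, 3), (1, 3), (2, 3),
     (3, 3), (4, 3), (5, 3), (6, 3), (7, 3), (8, 3), (9, 3), (10, 3), (0, 4), (1, 4), (2, 4),
     (3, 4), (4, 4), (5, 4), (6, 4), (7, 4), (8, 4), (9, 4), (10, 4), (0, 5), (1, 5), (2, 5),
     (3, 5), (4, 5), (5, 5), (6, 5), (7, 5), (8, 5), (9, 5), (10, 5)]
  else
    [(1, 0), (2, 0), (8, 0), (9, 0), (10, 0), (1, 1), (2, 1), (3, 1), (8, 1), (9, 1), (10, 1),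
     (1, 2), (2, 2), (3, 2), (8, 2), (9, 2), (10, 2), (0, 3), (1, 3), (2, 3), (3, 3), (4, 3),
     (5, 3), (6, 3), (7, 3), (8, 3), (9, 3), (10, 3), (0, 4), (1, 4), (2, 4), (3, 4), (4, 4),
     (5, 4), (6, 4), (7, 4), (8, 4), (9, 4), (10, 4), (0, 5), (1, 5), (2, 5), (3, 5), (4, 5),
     (5, 5), (6, 5), (7, 5), (8, 5), (9, 5), (10, 5)]

/-- The cells of a tile of type `t` in phase `b`; `op` opens the valve. -/
def inL (t : ℕ) (b op : Bool) : List (ℕ × ℕ) :=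
  if t = 0 then if b then
    [(1, 3), (2, 3), (4, 3), (6, 3), (8, 3), (10, 3), (2, 4), (4, 4), (5, 4), (6, 4), (7, 4),
     (8, 4), (9, 4), (10, 4), (11, 4), (1, 5), (2, 5)]
    else
    [(1, 3), (3, 3), (5, 3), (7, 3), (9, 3), (11, 3), (1, 4), (3, 4), (4, 4), (5, 4), (6, 4),
     (7, 4), (8, 4), (9, 4), (10, 4), (11, 4), (1, 5)]
  else if t = 1 then if b then
    [(1, 0), (2, 0), (2, 1), (1, 2), (2, 2), (2, 3), (4, 3), (6, 3), (8, 3), (10, 3), (1, 4),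
     (2, 4), (3, 4), (4, 4), (5, 4), (6, 4), (7, 4), (8, 4), (9, 4), (10, 4), (11, 4)]
    else
    [(1, 0), (1, 1), (2, 1), (1, 2), (1, 3), (3, 3), (5, 3), (7, 3), (9, 3), (11, 3), (1, 4),
     (2, 4), (3, 4), (4, 4), (5, 4), (6, 4), (7, 4), (8, 4), (9, 4), (10, 4), (11, 4)]
  else if t = 2 then if b then
    [(1, 0), (1, 1), (2, 1), (2, 2), (8, 2), (9, 2), (0, 3), (2, 3), (4, 3), (6, 3), (9, 3),
     (10, 3), (0, 4), (1, 4), (2, 4), (3, 4), (4, 4), (5, 4), (6, 4), (7, 4), (10, 4), (11, 4),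
     (1, 5)]
    else
    [(1, 0), (1, 1), (2, 1), (1, 2), (8, 2), (9, 2), (1, 3), (3, 3), (5, 3), (7, 3), (8, 3),
     (11, 3), (0, 4), (1, 4), (2, 4), (3, 4), (4, 4), (5, 4), (6, 4), (7, 4), (10, 4), (11, 4),
     (1, 5)]
  else if t = 3 then if b then if op then
    [(1, 0), (1, 1), (2, 1), (2, 2), (6, 2), (7, 2), (9, 2), (0, 3), (2, 3), (4, 3), (7, 3),
     (8, 3), (9, 3), (10, 3), (0, 4), (1, 4), (2, 4), (3, 4), (4, 4), (5, 4), (6, 4), (7, 4),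
     (10, 4), (11, 4), (1, 5)]
    else
    [(1, 0), (1, 1), (2, 1), (2, 2), (6, 2), (7, 2), (8, 2), (9, 2), (0, 3), (2, 3), (4, 3),
     (9, 3), (10, 3), (0, 4), (1, 4), (2, 4), (3, 4), (4, 4), (5, 4), (6, 4), (7, 4), (10, 4),
     (11, 4), (1, 5)]
    else
    [(1, 0), (1, 1), (2, 1), (1, 2), (6, 2), (8, 2), (9, 2), (1, 3), (3, 3), (5, 3), (6, 3),
     (7, 3), (8, 3), (11, 3), (0, 4), (1, 4), (2, 4), (3, 4), (4, 4), (5, 4), (7, 4), (10, 4),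
     (11, 4), (1, 5)]
  else if t = 4 then if b then
    [(1, 0), (1, 1), (2, 1), (2, 2), (0, 3), (2, 3), (4, 3), (6, 3), (8, 3), (9, 3), (0, 4),
     (1, 4), (2, 4), (4, 4), (5, 4), (6, 4), (7, 4), (8, 4), (1, 5), (8, 5), (9, 5)]
    else
    [(1, 0), (1, 1), (2, 1), (1, 2), (1, 3), (3, 3), (5, 3), (7, 3), (9, 3), (0, 4), (1, 4),
     (3, 4), (4, 4), (5, 4), (6, 4), (7, 4), (8, 4), (9, 4), (1, 5), (9, 5)]
  else if b then
    [(1, 0), (8, 0), (9, 0), (1, 1), (2, 1), (9, 1), (2, 2), (8, 2), (9, 2), (0, 3), (2, 3),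
     (4, 3), (6, 3), (9, 3), (0, 4), (1, 4), (2, 4), (3, 4), (4, 4), (5, 4), (6, 4), (7, 4),
     (8, 4), (9, 4), (1, 5)]
    else
    [(1, 0), (9, 0), (1, 1), (2, 1), (8, 1), (9, 1), (1, 2), (9, 2), (1, 3), (3, 3), (5, 3),
     (7, 3), (9, 3), (0, 4), (1, 4), (2, 4), (3, 4), (4, 4), (5, 4), (6, 4), (7, 4), (8, 4),
     (9, 4), (1, 5)]

/-- The type of the tile in row `r` and column `j`. -/
def ty (c : ℕ) (val : ℕ → ℕ → Bool) (r j : ℕ) : ℕ :=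
  if j = 0 then r % 2 else if j = c + 1 then 4 + r % 2 else if val r (j - 1) then 3 else 2

/-- A table of local points placed in an array of tiles of size 12 by 6. -/
def tiles (R C : ℕ) (tab : ℕ → ℕ → List (ℕ × ℕ)) : List Pt :=
  (List.range R).flatMap fun r => (List.range C).flatMap fun j =>
    (tab r j).map fun ab => (((12 * j + ab.1 : ℕ) : ℤ), ((6 * r + ab.2 : ℕ) : ℤ))

/-- The points of the instance. -/
def ptsL (v c : ℕ) (val : ℕ → ℕ → Bool) : List Pt :=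
  tiles (2 * v) (c + 2) fun r j => patL (ty c val r j)

/-- The value of the literal `r`. -/
def ph (ρ : ℕ → Bool) (r : ℕ) : Bool := if r % 2 = 0 then ρ (r / 2) else !ρ (r / 2)

/-- The formula is satisfiable. -/
def SatM (v c : ℕ) (val : ℕ → ℕ → Bool) : Prop :=
  ∃ ρ : ℕ → Bool, ∀ j < c, ∃ r < 2 * v, val r j = true ∧ ph ρ r = true

/-- The cells of a tile; the ladder cell (1, 5) needs a tile above. -/
def cellT (t : ℕ) (b op up : Bool) : List (ℕ × ℕ) :=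
  (inL t b op).filter fun ab => up || ab != (1, 5)

/-- The table of cells for the assignment `ρ` and the choice `σ` of true literals. -/
def cellTab (v c : ℕ) (val : ℕ → ℕ → Bool) (ρ : ℕ → Bool) (σ : ℕ → ℕ) (r j : ℕ) : List (ℕ × ℕ) :=
  cellT (ty c val r j) (ph ρ r) (decide (1 ≤ j ∧ j ≤ c ∧ σ (j - 1) = r)) (decide (r + 1 < 2 * v))

/-- The polyomino. -/
def cells (v c : ℕ) (val : ℕ → ℕ → Bool) (ρ : ℕ → Bool) (σ : ℕ → ℕ) : Finset Pt :=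
  (tiles (2 * v) (c + 2) (cellTab v c val ρ σ)).toFinset

/-- `σ` chooses a true literal in each clause. -/
def Wit (v c : ℕ) (val : ℕ → ℕ → Bool) (ρ : ℕ → Bool) (σ : ℕ → ℕ) : Prop :=
  ∀ j < c, σ j < 2 * v ∧ val (σ j) j = true ∧ ph ρ (σ j) = true

/-- The first column of cells of the wire in the tile `(r, j)` is full. -/
def Dom (I : Finset Pt) (r j : ℕ) : Bool :=
  decide ((((12 * j : ℕ) : ℤ), ((6 * r + 3 : ℕ) : ℤ)) ∈ I ∧
    (((12 * j : ℕ) : ℤ), ((6 * r + 4 : ℕ) : ℤ)) ∈ I)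

theorem mem_tiles {R C : ℕ} {tab : ℕ → ℕ → List (ℕ × ℕ)} {p : Pt} : p ∈ tiles R C tab ↔
    ∃ r < R, ∃ j < C, ∃ ab ∈ tab r j,
      p = (((12 * j + ab.1 : ℕ) : ℤ), ((6 * r + ab.2 : ℕ) : ℤ)) := by
  simp only [tiles, List.mem_flatMap, List.mem_range, List.mem_map, eq_comm (a := p)]

/-- All entries of the table are local coordinates. -/
def Small (tab : ℕ → ℕ → List (ℕ × ℕ)) : Prop := ∀ r j, ∀ ab ∈ tab r j, ab.1 < 12 ∧ ab.2 < 6

theorem mem_tiles' {R C : ℕ} {tab : ℕ → ℕ → List (ℕ × ℕ)} (h : Small tab) {r j a b : ℕ}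
    (ha : a < 12) (hb : b < 6) {p : Pt} (h1 : p.1 = 12 * j + a) (h2 : p.2 = 6 * r + b) :
    p ∈ tiles R C tab ↔ r < R ∧ j < C ∧ (a, b) ∈ tab r j := by
  rw [mem_tiles]
  constructor
  · rintro ⟨r', hr, j', hj, ⟨a', b'⟩, hm, rfl⟩
    obtain ⟨k1, k2⟩ := h _ _ _ hm
    simp only at h1 h2 k1 k2
    obtain ⟨rfl, rfl⟩ : r' = r ∧ b' = b := by omega
    obtain ⟨rfl, rfl⟩ : j' = j ∧ a' = a := by omega
    exact ⟨hr, hj, hm⟩
  · rintro ⟨hr, hj, hm⟩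
    exact ⟨r, hr, j, hj, (a, b), hm, Prod.ext (by simp [h1]) (by simp [h2])⟩

theorem tiles_box {R C : ℕ} {tab : ℕ → ℕ → List (ℕ × ℕ)} (h : Small tab) {p : Pt}
    (hp : p ∈ tiles R C tab) : 0 ≤ p.1 ∧ p.1 < 12 * C ∧ 0 ≤ p.2 ∧ p.2 < 6 * R := by
  obtain ⟨r, hr, j, hj, ab, hm, rfl⟩ := mem_tiles.1 hp
  obtain ⟨k1, k2⟩ := h _ _ _ hm
  simp only
  omega

/-- Every point of the first quadrant has tile coordinates. -/
theorem exists_loc {p : Pt} (h1 : 0 ≤ p.1) (h2 : 0 ≤ p.2) :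
    ∃ r j a b : ℕ, a < 12 ∧ b < 6 ∧ p.1 = 12 * j + a ∧ p.2 = 6 * r + b :=
  ⟨p.2.toNat / 6, p.1.toNat / 12, p.1.toNat % 12, p.2.toNat % 6, by omega, by omega, by omega,
    by omega⟩

theorem ty_lt (c : ℕ) (val : ℕ → ℕ → Bool) (r j : ℕ) : ty c val r j < 6 := by
  unfold ty
  split_ifs <;> omega

theorem patL_ok : ∀ t < 6, (patL t).Nodup ∧ ∀ ab ∈ patL t, ab.1 < 12 ∧ ab.2 < 6 := by
  decide +kernel

theorem inL_small : ∀ t < 6, ∀ b op, ∀ ab ∈ inL t b op, ab.1 < 12 ∧ ab.2 < 6 := by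
  decide +kernel

theorem small_pat (c : ℕ) (val : ℕ → ℕ → Bool) : Small fun r j => patL (ty c val r j) :=
  fun r j => (patL_ok _ (ty_lt c val r j)).2

theorem small_cell (v c : ℕ) (val : ℕ → ℕ → Bool) (ρ : ℕ → Bool) (σ : ℕ → ℕ) :
    Small (cellTab v c val ρ σ) :=
  fun r j ab h => inL_small _ (ty_lt c val r j) _ _ ab (List.mem_filter.1 h).1

end Pool.Agent.Lib.MP_1a3fd7_lc
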