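import Pool.Agent.Lib.MP_1a3fd7_lc.Inst

/-!
Exhaustive search of the local solutions inside a window of a tile. The cell with local
coordinates (a - 1, b - 1), b < 7, has the number 7 a + b.
-/

namespace Pool.Agent.Lib.MP_1a3fd7_lc

/-- The values of the first `k` cells, the last one first. -/
def st (G : ℕ → Bool) : ℕ → List Bool
  | 0 => []
  | k + 1 => G k :: st G k

/-- The condition at the lower left corner of the cell `n`. -/
def ck (pt : ℕ → Bool) (n : ℕ) (l : List Bool) : Bool :=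
  !pt n || okb (l.getD 7 false) (l.getD 0 false) (l.getD 8 false) (l.getD 1 false)

/-- Depth first search. -/
def dfs (al pt : ℕ → Bool) (fin : List Bool → Bool) : ℕ → ℕ → List Bool → Bool
  | 0, _, l => fin l
  | f + 1, n, l => (!(al n && ck pt n (true :: l)) || dfs al pt fin f (n + 1) (true :: l)) &&
      (!ck pt n (false :: l) || dfs al pt fin f (n + 1) (false :: l))

theorem st_getD (G : ℕ → Bool) : ∀ k i, i < k → (st G k).getD i false = G (k - 1 - i)
  | k + 1, 0, _ => by simp [st]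
  | k + 1, i + 1, h => by
    rw [st, List.getD_cons_succ, st_getD G k i (by omega)]
    congr 1
    omega

theorem dfs_ok {al pt : ℕ → Bool} {fin : List Bool → Bool} {G : ℕ → Bool} {N : ℕ}
    (h1 : ∀ n < N, G n = true → al n = true)
    (h2 : ∀ n < N, pt n = true → 8 ≤ n ∧ okb (G (n - 7)) (G n) (G (n - 8)) (G (n - 1)) = true) :
    ∀ f n, n + f = N → dfs al pt fin f n (st G n) = true → fin (st G N) = true
  | 0, n, e, h => by
    obtain rfl : n = N := e
    exact h
  | f + 1, n, e, h => by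
    have c : ck pt n (st G (n + 1)) = true := by
      unfold ck
      cases hp : pt n
      · rfl
      · obtain ⟨a, b⟩ := h2 n (by omega) hp
        rw [st_getD G _ 7 (by omega), st_getD G _ 0 (by omega), st_getD G _ 8 (by omega),
          st_getD G _ 1 (by omega)]
        simpa using b
    refine dfs_ok h1 h2 f (n + 1) (by omega) ?_
    rw [dfs, Bool.and_eq_true] at h
    rw [st] at c ⊢
    cases hg : G n
    · rw [hg] at c
      simpa [c] using h.2
    · rw [hg] at c
      simpa [c, h1 n (by omega) hg] using h.1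

/-- The points that the lowest row of the tile above can have. -/
def upL (t : ℕ) : List ℕ :=
  if t = 0 then [1, 2, 3] else if t = 1 then [] else if t = 4 then [1, 2, 8, 9, 10] else [1, 2]

/-- The point (a - 1, b - 1) is not excluded. -/
def ext (t a b : ℕ) : Bool :=
  if a = 0 ∨ a = 13 ∨ b = 0 then true else if b = 7 then decide (a - 1 ∈ upL t)
  else decide ((a - 1, b - 1) ∈ patL t)

/-- The cell `n` is not excluded. -/
def alw (t n : ℕ) : Bool := ext t (n / 7) (n % 7) && ext t (n / 7 + 1) (n % 7) &&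
  ext t (n / 7) (n % 7 + 1) && ext t (n / 7 + 1) (n % 7 + 1)

/-- The lower left corner of the cell `n` is a point of the tile. -/
def ptb (t n : ℕ) : Bool :=
  decide (1 ≤ n / 7 ∧ 1 ≤ n % 7 ∧ (n / 7 - 1, n % 7 - 1) ∈ patL t)

/-- The cell `n` of the tile `(r, j)` is in `I`. -/
def GG (I : Finset Pt) (r j n : ℕ) : Bool :=
  decide ((((12 * j + n / 7 : ℕ) : ℤ) - 1, ((6 * r + n % 7 : ℕ) : ℤ) - 1) ∈ I)

theorem up_ok : ∀ t < 6, ∀ t' < 6, ∀ a < 12, (t + t' = 1 ∨ t + t' = 9 ∨ t / 2 = 1 ∧ t' / 2 = 1) ∧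
    (a, 0) ∈ patL t' → a ∈ upL t := by
  intro t ht t' ht'
  interval_cases t <;> interval_cases t' <;> decide +kernel

theorem ty_half (c : ℕ) (val : ℕ → ℕ → Bool) (r j : ℕ) :
    ty c val r j + ty c val (r + 1) j = 1 ∨ ty c val r j + ty c val (r + 1) j = 9 ∨
      ty c val r j / 2 = 1 ∧ ty c val (r + 1) j / 2 = 1 := by
  unfold ty
  split_ifs <;> omega

theorem ext_of_mem {v c : ℕ} {val : ℕ → ℕ → Bool} {r j a b : ℕ} (ha : a ≤ 13) (hb : b ≤ 7)
    {p : Pt} (h1 : p.1 = 12 * j + a - 1) (h2 : p.2 = 6 * r + b - 1)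
    (hp : p ∈ (ptsL v c val).toFinset) : ext (ty c val r j) a b = true := by
  rw [List.mem_toFinset] at hp
  unfold ext
  split_ifs with c1 c2
  · rfl
  · have := (mem_tiles' (small_pat c val) (r := r + 1) (j := j) (a := a - 1) (b := 0) (by omega)
      (by omega) (by omega) (by push_cast; omega)).1 hp
    exact decide_eq_true (up_ok _ (ty_lt ..) _ (ty_lt ..) _ (by omega) ⟨ty_half .., this.2.2⟩)
  · exact decide_eq_true ((mem_tiles' (small_pat c val) (r := r) (j := j) (a := a - 1) (b := b - 1)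
      (by omega) (by omega) (by omega) (by omega)).1 hp).2.2

/-- The search in the window of `N` cells that starts at the column `w - 1`. -/
def win (t w N : ℕ) (fin : List Bool → Bool) : Bool :=
  dfs (fun n => alw t (n + 7 * w)) (fun n => decide (8 ≤ n) && ptb t (n + 7 * w)) fin N 0 []

theorem win_ok {v c : ℕ} {val : ℕ → ℕ → Bool} {I : Finset Pt}
    (hc : ∀ q ∈ I, corners q ⊆ (ptsL v c val).toFinset)
    (hok : ∀ p ∈ (ptsL v c val).toFinset, Ok I p) {r j : ℕ} (hr : r < 2 * v) (hj : j < c + 2)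
    {w N : ℕ} (hN : N + 7 * w ≤ 91) {fin : List Bool → Bool}
    (h : win (ty c val r j) w N fin = true) :
    fin (st (fun n => GG I r j (n + 7 * w)) N) = true := by
  refine dfs_ok (fun n hn hg => ?_) (fun n hn hp => ?_) N 0 (by omega) h
  · have hq := hc _ (of_decide_eq_true hg)
    simp only [alw, Bool.and_eq_true]
    refine ⟨⟨⟨ext_of_mem (by omega) (by omega) ?_ ?_ (hq (mem_corners.2 (Or.inl rfl))),
      ext_of_mem (by omega) (by omega) ?_ ?_ (hq (mem_corners.2 (Or.inr (Or.inl rfl))))⟩,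
      ext_of_mem (by omega) (by omega) ?_ ?_ (hq (mem_corners.2 (Or.inr (Or.inr (Or.inl rfl)))))⟩,
      ext_of_mem (by omega) (by omega) ?_ ?_ (hq (mem_corners.2 (Or.inr (Or.inr (Or.inr rfl)))))⟩
      <;> simp only <;> omega
  · simp only [ptb, Bool.and_eq_true, decide_eq_true_eq] at hp
    obtain ⟨h8, a1, a2, a3⟩ := hp
    refine ⟨h8, ?_⟩
    have hm := hok (((12 * j + (n + 7 * w) / 7 : ℕ) : ℤ) - 1, ((6 * r + (n + 7 * w) % 7 : ℕ) : ℤ) - 1)
      (List.mem_toFinset.2 ((mem_tiles' (small_pat c val) (r := r) (j := j)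
        (a := (n + 7 * w) / 7 - 1) (b := (n + 7 * w) % 7 - 1) (by omega) (by omega)
        (by simp only; omega) (by simp only; omega)).2 ⟨hr, hj, a3⟩))
    have e1 : ((12 * j + (n - 7 + 7 * w) / 7 : ℕ) : ℤ) - 1 =
      ((12 * j + (n + 7 * w) / 7 : ℕ) : ℤ) - 1 - 1 := by omega
    have e2 : (n - 7 + 7 * w) % 7 = (n + 7 * w) % 7 := by omega
    have e3 : ((12 * j + (n - 8 + 7 * w) / 7 : ℕ) : ℤ) - 1 =
      ((12 * j + (n + 7 * w) / 7 : ℕ) : ℤ) - 1 - 1 := by omega
    have e4 : ((6 * r + (n - 8 + 7 * w) % 7 : ℕ) : ℤ) - 1 =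
      ((6 * r + (n + 7 * w) % 7 : ℕ) : ℤ) - 1 - 1 := by omega
    have e5 : (n - 1 + 7 * w) / 7 = (n + 7 * w) / 7 := by omega
    have e6 : ((6 * r + (n - 1 + 7 * w) % 7 : ℕ) : ℤ) - 1 =
      ((6 * r + (n + 7 * w) % 7 : ℕ) : ℤ) - 1 - 1 := by omega
    simp only [GG, e1, e2, e3, e4, e5, e6]
    exact hm

/-- The points right of column 5 that go to the left side of the wall. -/
def leftL (t : ℕ) (b : Bool) : List (ℕ × ℕ) :=
  if t = 3 then [(6, 2), (6, 3), (6, 4), (6, 5), (7, 2), (7, 3), (7, 4), (7, 5), (8, 2), (8, 3),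
    (8, 4), (8, 5), (9, 2), (9, 3), (9, 4), (10, 2), (10, 3)]
  else if b then [(6, 3), (6, 4), (6, 5), (7, 3), (7, 4), (7, 5), (8, 4), (8, 5)]
  else [(6, 3), (6, 4), (6, 5), (7, 3), (7, 4), (7, 5), (8, 2), (8, 3), (8, 4), (8, 5), (9, 2),
    (9, 3), (9, 4), (10, 2), (10, 3)]

/-- The side of the local point (a, b). -/
def sd (t : ℕ) (ph : Bool) (a b : ℕ) : Bool := decide (a ≤ 5 ∨ (a, b) ∈ leftL t ph)

/-- The conclusion in the left window (columns -1 to 4). -/
def fin1 (t : ℕ) (l : List Bool) : Bool :=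
  let g : ℕ → Bool := fun n => l.getD (41 - n) false
  if t = 0 then (g 39 && g 40) == (g 20 && g 27)
  else if t = 1 then (g 39 && g 40) != (g 14 && g 21)
  else ((g 4 && g 5) != (g 11 && g 12)) && ((g 11 && g 12) == (g 39 && g 40))

/-- The conclusion in the right window (columns 4 to 11). -/
def fin2 (t : ℕ) (l : List Bool) : Bool :=
  let g : ℕ → Bool := fun n => l.getD (55 - n) false
  ((g 4 && g 5) != (g 53 && g 54)) && (!(t == 2 || (t == 3 && !(g 4 && g 5))) ||
    (List.range 56).all fun n => n < 7 || !g n || (1 ≤ n % 7 && n % 7 ≤ 5 &&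
      sd t (g 4 && g 5) (n / 7 + 5) (n % 7 - 1) == sd t (g 4 && g 5) (n / 7 + 4) (n % 7 - 1) &&
      sd t (g 4 && g 5) (n / 7 + 4) (n % 7) == sd t (g 4 && g 5) (n / 7 + 4) (n % 7 - 1) &&
      sd t (g 4 && g 5) (n / 7 + 5) (n % 7) == sd t (g 4 && g 5) (n / 7 + 4) (n % 7 - 1)))

theorem win1 : ∀ t < 6, win t 0 42 (fin1 t) = true := by decide +kernel

theorem win2 : ∀ t < 4, win t 5 56 (fin2 t) = true := by decide +kernel

end Pool.Agent.Lib.MP_1a3fd7_lc
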