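import Pool.Agent.Lib.Common.CookLevin.Count
import Pool.Agent.Lib.MP_73cdf8_lc.Sim
import Pool.Agent.Lib.MP_acf5a6_lc.Check

/-!
Satisfiability as a table of occurrences of literals, and the rational threshold.
-/

set_option autoImplicit false

namespace Pool.Agent.Lib.MP_1a3fd7_lc

open Pool.Agent.Lib.MP_acf5a6_lc Pool.Agent.Lib.Common.CookLevin N487b59b3 Finset

/-- The literal of row `r` occurs in clause `j`. -/
def occ (V : List Var) (φ : List Clause) (j r : ℕ) : Bool :=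
  decide (r / 2 < V.length) && memb (φ.getD j []) (V.getD (r / 2) (0, []), decide (r % 2 = 0))

theorem occ_sol {V : List Var} (hV : V.Nodup) {φ : List Clause} (h : ∀ C ∈ φ, ∀ l ∈ C, l.1 ∈ V) :
    (∃ ρ : ℕ → Bool, ∀ j < φ.length, ∃ r < 2 * (V.length + 1), occ V φ j r = true ∧
      ρ (r / 2) = decide (r % 2 = 0)) ↔
      ∃ U ∈ V.toFinset.powerset, ∀ C ∈ φ, Sat (fun v => decide (v ∈ U)) C := by
  have e : ∀ j r, (hc : j < φ.length) → (occ V φ j r = true ↔
      ∃ hu : r / 2 < V.length, (V[r / 2], decide (r % 2 = 0)) ∈ φ[j]) := fun j r hc => by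
    rw [occ, Bool.and_eq_true, decide_eq_true_iff, memb_iff, List.getD_eq_getElem _ _ hc]
    exact ⟨fun ⟨a, b⟩ => ⟨a, by rwa [List.getD_eq_getElem _ _ a] at b⟩,
      fun ⟨a, b⟩ => ⟨a, by rwa [List.getD_eq_getElem _ _ a]⟩⟩
  constructor
  · rintro ⟨x, hx⟩
    refine ⟨V.toFinset.filter fun v => x (V.idxOf v) = true, mem_powerset.2 (filter_subset _ _),
      fun C hC => ?_⟩
    obtain ⟨c, hc, rfl⟩ := List.getElem_of_mem hC
    obtain ⟨r, -, a, b⟩ := hx c hc
    obtain ⟨hu, a⟩ := (e _ _ hc).1 a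
    exact ⟨_, a, by simp [hV.idxOf_getElem, b]⟩
  · rintro ⟨U, -, hU⟩
    refine ⟨fun u => decide (V.getD u (0, []) ∈ U), fun c hc => ?_⟩
    obtain ⟨⟨v, b⟩, a1, a2⟩ := hU _ (List.getElem_mem hc)
    obtain ⟨u, hu, rfl⟩ := List.getElem_of_mem (h _ (List.getElem_mem hc) _ a1)
    obtain ⟨r, r1, r2⟩ : ∃ r, r / 2 = u ∧ decide (r % 2 = 0) = b := by
      cases b
      exacts [⟨2 * u + 1, by omega, by simp⟩, ⟨2 * u, by omega, by simp⟩]
    subst r1 r2
    refine ⟨r, by omega, (e _ _ hc).2 ⟨hu, a1⟩, ?_⟩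
    simp only [List.getD_eq_getElem _ _ hu]
    exact a2

open Classical in
theorem np_grid {L : N68a2faeb.DecisionProblem} (hL : L ∈ N68a2faeb.NP) :
    ∃ (v c : List Bool → Un) (o : List Bool → ℕ → ℕ → Bool), PT v ∧ PT c ∧
      PT (fun z : List Bool × ℕ × ℕ => o z.1 z.2.1 z.2.2) ∧ ∀ x, 0 < (v x).n ∧
      (L x = true ↔ ∃ ρ : ℕ → Bool, ∀ j < (c x).n, ∃ r < 2 * (v x).n, o x j r = true ∧
        ρ (r / 2) = decide (r % 2 = 0)) := by
  obtain ⟨p, R, hR, H⟩ := hL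
  have hR' : PT (fun z : List Bool × List Bool => R (z.1, (Raw.mk (sfst z.2)).s)) :=
    PT.comp (MP_73cdf8_lc.PT_of_isPolyTime hR)
      (PT.prodMk (PT.fst PT.id') (PT.rawBits (PT.rawFst (PT.rawMk (PT.snd PT.id')))))
  obtain ⟨V, φ, hV, hφ, hc⟩ := count_hard hR'.isPolyTime (2 * p + 1)
  refine ⟨fun x => (ulen (V x)).add ⟨1⟩, fun x => ulen (φ x), fun x => occ (V x) (φ x),
    by fun_prop, by fun_prop, by unfold occ; fun_prop, fun x => ⟨Nat.succ_pos _, ?_⟩⟩
  obtain ⟨c1, c2, c3⟩ := hc x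
  refine (H x).trans (Iff.trans ?_ (occ_sol c1 c2).symm)
  rw [← filter_nonempty_iff, ← card_pos, c3, card_pos]
  have e : (2 * p + 1).eval x.length = 2 * p.eval x.length + 1 := by simp
  constructor
  · rintro ⟨w, h1, h2⟩
    let w' := delimit w ++ List.replicate (2 * (p.eval x.length - w.length)) false
    have h3 : w'.length = (2 * p + 1).eval x.length := by
      simp only [w', List.length_append, length_delimit, List.length_replicate, e]
      omega
    refine ⟨fun i => w'[i], Finset.mem_filter.2 ⟨Finset.mem_univ _, ?_⟩⟩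
    have h4 : (List.ofFn fun i : Fin ((2 * p + 1).eval x.length) => w'[i]) = w' :=
      List.ext_getElem (by simp [h3]) fun i _ _ => List.getElem_ofFn _
    simp only [h4, w', sfst_delimit]
    exact h2
  · rintro ⟨w, hw⟩
    refine ⟨_, ?_, (Finset.mem_filter.1 hw).2⟩
    have := length_sfst_ssnd (List.ofFn w)
    simp only [List.length_ofFn] at this ⊢
    omega

/-- An integer just above `5 √2 n`. -/
def thr (n : Un) : ℕ := ((urange (n.mul ⟨8⟩)).filter fun i => decide (i * i < 50 * (n.n * n.n))).length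

@[fun_prop] theorem thr_PT {α : Type} [N487b59b3 α] {n : α → Un} (h : PT n) :
    PT fun x => thr (n x) := by
  unfold thr
  fun_prop

theorem thr_spec (n : Un) : 5 * √2 * n.n ≤ thr n ∧ (thr n : ℝ) ≤ 5 * √2 * n.n + 1 := by
  have h0 : (0 : ℝ) ≤ 5 * √2 * n.n := by positivity
  have h1 : (5 * √2 * n.n : ℝ) ^ 2 = ((50 * (n.n * n.n) : ℕ) : ℝ) := by
    rw [mul_pow, mul_pow, Real.sq_sqrt zero_le_two]
    push_cast
    ring
  have h2 : ∀ i : ℕ, i * i < 50 * (n.n * n.n) ↔ i < ⌈(5 * √2 * n.n : ℝ)⌉₊ := fun i => by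
    rw [Nat.lt_ceil, ← pow_lt_pow_iff_left₀ i.cast_nonneg h0 two_ne_zero, h1, ← Nat.cast_pow,
      Nat.cast_lt, sq]
  have h3 : thr n = ⌈(5 * √2 * n.n : ℝ)⌉₊ := by
    have h4 : ⌈(5 * √2 * n.n : ℝ)⌉₊ ≤ (n.mul ⟨8⟩).n := not_lt.1 fun h => by
      have := (h2 _).2 h
      simp only [Un.mul] at this
      nlinarith
    simp only [thr, h2]
    exact (congrArg List.length (rng_eq h4)).trans List.length_range
  rw [h3]
  exact ⟨Nat.le_ceil _, (Nat.ceil_lt_add_one h0).le⟩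

end Pool.Agent.Lib.MP_1a3fd7_lc
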