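import Pool.Agent.Lib.MP_1a3fd7_lc.IA
import Pool.Agent.Lib.MP_1a3fd7_lc.IB
import Pool.Agent.Lib.MP_1a3fd7_lc.IC
import Pool.Agent.Lib.MP_1a3fd7_lc.ID
import Pool.Agent.Lib.MP_1a3fd7_lc.IE
import Pool.Agent.Lib.MP_1a3fd7_lc.NpGrid

/-!
The reduction to tree polyominoes.
-/

namespace Pool.Agent.Lib.MP_1a3fd7_lc

open Pool.Agent.Lib.MP_acf5a6_lc Pool.Agent.Lib.Common.CookLevin N487b59b3

theorem mem_left {v c : ℕ} {val : ℕ → ℕ → Bool} (hv : 0 < v) {a : ℕ} (ha : a ∈ [1, 2, 3]) :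
    ((a : ℤ), 3) ∈ (ptsL v c val).toFinset := by
  have h : a < 12 ∧ (a, 3) ∈ patL 0 := by
    revert a
    decide
  rw [List.mem_toFinset, ptsL, mem_tiles' (small_pat c val) (r := 0) (j := 0) (a := a) (b := 3)
    h.1 (by norm_num) (by simp) (by simp)]
  exact ⟨by omega, by omega, by simpa [ty] using h.2⟩

theorem mem_right {v c : ℕ} {val : ℕ → ℕ → Bool} (hv : 0 < v) :
    (((12 * (c + 1) : ℕ) : ℤ), 3) ∈ (ptsL v c val).toFinset := by
  rw [List.mem_toFinset, ptsL, mem_tiles' (small_pat c val) (r := 0) (j := c + 1) (a := 0) (b := 3)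
    (by norm_num) (by norm_num) (by simp) (by simp)]
  have h : (0, 3) ∈ patL 4 := by decide
  exact ⟨by omega, by omega, by simpa [ty] using h⟩

theorem three_le {v c : ℕ} {val : ℕ → ℕ → Bool} (hv : 0 < v) :
    3 ≤ (ptsL v c val).toFinset.card :=
  Finset.two_lt_card.2 ⟨_, mem_left hv (a := 1) (by simp), _, mem_left hv (a := 2) (by simp), _,
    mem_left hv (a := 3) (by simp), by simp, by simp, by simp⟩

theorem sat_of_sol {v c : ℕ} {val : ℕ → ℕ → Bool} (hv : 0 < v)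
    (h : Sol (ptsL v c val).toFinset) : SatM v c val := by
  obtain ⟨I, hc, hok, hs⟩ := h
  refine ⟨fun i => Dom I (2 * i) 1, fun j hj => ?_⟩
  by_contra hn
  obtain ⟨s, s1, s2, s3⟩ := barrier hc hok hj fun r hr hv => by
    rw [phase hc hok hr (by omega) (by omega)]
    exact Bool.eq_false_iff.2 fun k => hn ⟨r, hr, hv, k⟩
  have := hs s s1 _ (mem_left hv (a := 1) (by simp)) _ (mem_right hv)
  rw [s3, Nat.cast_one, s2] at this
  exact Bool.noConfusion this

theorem poly_of_sat {v c : ℕ} {val : ℕ → ℕ → Bool} (hv : 0 < v) (h : SatM v c val) :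
    ∃ I, Poly (ptsL v c val).toFinset I := by
  obtain ⟨ρ, h⟩ := h
  choose! σ h using h
  exact ⟨_, cells_cor h, cells_ok h, cells_conn hv h, cells_out h⟩

@[fun_prop] theorem patL_PT {α : Type} [N487b59b3 α] {t : α → ℕ} (h : PT t) :
    PT fun x => patL (t x) := by
  unfold patL
  fun_prop

theorem np_pts {L : N68a2faeb.DecisionProblem} (hL : L ∈ N68a2faeb.NP) :
    ∃ S : List Bool → List Pt, PT S ∧ ∀ x, 3 ≤ (S x).toFinset.card ∧
      (∀ p ∈ S x, 0 ≤ p.1 ∧ 0 ≤ p.2) ∧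
      (L x = true → ∃ I, Poly (S x).toFinset I) ∧ (Sol (S x).toFinset → L x = true) := by
  obtain ⟨v, c, o, hv, hc, ho, H⟩ := np_grid hL
  have e : ∀ (ρ : ℕ → Bool) r, ph ρ r = true ↔ ρ (r / 2) = decide (r % 2 = 0) := fun ρ r => by
    unfold ph
    split_ifs with h <;> simp [h]
  refine ⟨fun x => ptsL (v x).n (c x).n fun r j => o x j r, ?_, fun x => ?_⟩
  · have ho' : ∀ {α : Type} [N487b59b3 α] {x : α → List Bool} {j r : α → ℕ}, PT x → PT j → PT r →
        PT fun a => o (x a) (j a) (r a) := fun h1 h2 h3 =>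
      PT.comp ho (PT.prodMk h1 (PT.prodMk h2 h3))
    change PT fun x => (urange ((Un.mk 2).mul (v x))).flatMap fun r =>
      (urange ((c x).add ⟨2⟩)).flatMap fun j => (patL (ty (c x).n (fun r j => o x j r) r j)).map
        fun ab => (((12 * j + ab.1 : ℕ) : ℤ), ((6 * r + ab.2 : ℕ) : ℤ))
    unfold ty
    refine PT.flatMap (PT.flatMap (PT.map (by fun_prop) (patL_PT (PT.ite' (by fun_prop)
      (by fun_prop) (PT.ite' (by fun_prop) (by fun_prop) (PT.ite' (PT.decide_eq_true'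
      (ho' (by fun_prop) (by fun_prop) (by fun_prop))) (by fun_prop) (by fun_prop))))))
      (by fun_prop)) (by fun_prop)
  · obtain ⟨h1, h2⟩ := H x
    simp only [← e] at h2
    exact ⟨three_le h1, fun p hp => ⟨(tiles_box (small_pat _ _) hp).1,
      (tiles_box (small_pat _ _) hp).2.2.1⟩, fun h => poly_of_sat h1 (h2.1 h),
      fun h => h2.2 (sat_of_sol h1 h)⟩

end Pool.Agent.Lib.MP_1a3fd7_lc
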