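import Pool.Agent.Lib.MP_1a3fd7_lc.GC
import Pool.Agent.Lib.MP_1a3fd7_lc.Red

/-!
Hardness for points in general position, with a gap.
-/

namespace Pool.Agent.Lib.MP_1a3fd7_lc

open Pool.Agent.Lib.MP_acf5a6_lc Pool.Agent.Lib.Common.CookLevin N487b59b3

/-- Ten times the threshold for a list of points. -/
def bound (S : List Pt) : ℕ := 15 * (uniq S).length - 20 + thr (ulen (uniq S).tail.tail)

theorem bound_spec {S : List Pt} (h : 3 ≤ S.toFinset.card) :
    15 * (S.toFinset.card : ℝ) - 20 + 5 * √2 * (S.toFinset.card - 2) ≤ bound S ∧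
      (bound S : ℝ) ≤ 15 * S.toFinset.card - 20 + 5 * √2 * (S.toFinset.card - 2) + 1 := by
  have e : (uniq S).length = S.toFinset.card := by
    rw [← List.toFinset_card_of_nodup (uniq_spec S).1]
    exact congrArg _ (Finset.ext fun p => by simp [(uniq_spec S).2])
  obtain ⟨m, hm⟩ : ∃ m, S.toFinset.card = m + 2 := ⟨S.toFinset.card - 2, by omega⟩
  have h1 := thr_spec (ulen (uniq S).tail.tail)
  have h2 : (ulen (uniq S).tail.tail).n = m := by simp [ulen, e, hm]
  have h3 : 15 * (m + 2) - 20 = 15 * m + 10 := by omega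
  rw [h2] at h1
  rw [bound, e, hm, h3]
  push_cast
  constructor <;> linarith [h1.1, h1.2]

/-- A bound for the coordinates and the number of the points. -/
def box (S : List Pt) : ℕ := (S.map fun p => p.1.natAbs + p.2.natAbs).sum + S.length + 1

/-- The scale of the perturbation. -/
def scale (S : List Pt) : ℕ := 400 * (box S * box S * (box S * box S))

theorem np_gap {L : N68a2faeb.DecisionProblem} (hL : L ∈ N68a2faeb.NP) :
    ∃ f : List Bool → List Pt × ℕ, N68a2faeb.IsPolyTime f ∧ ∀ x,
      (∀ p ∈ (f x).1, ∀ q ∈ (f x).1, ∀ r ∈ (f x).1, p ≠ q → p ≠ r → q ≠ r →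
        ¬ Collinear ℝ {toR p, toR q, toR r}) ∧
      (L x = true → ∃ E, OuterLaman (f x).1.toFinset E ∧ weight E ≤ (f x).2) ∧
      (L x = false → ∀ E, OuterLaman (f x).1.toFinset E → (f x).2 + 1 ≤ weight E) := by
  obtain ⟨S, hS, H⟩ := np_pts hL
  refine ⟨fun x => ((S x).map (pert (scale (S x))),
    (scale (S x) + 4 * box (S x)) * bound (S x) / 10 + 1), PT.isPolyTime ?_, fun x => ?_⟩
  · unfold pert scale box bound
    simp only [sq]
    fun_prop
  obtain ⟨h3, h0, h1, h2⟩ := H x
  obtain ⟨b1, b2⟩ := bound_spec h3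
  beta_reduce
  generalize S x = T at *
  have hB : InBox (box T) T.toFinset := fun p hp => by
    have hp := List.mem_toFinset.1 hp
    have := List.single_le_sum (l := T.map fun p => p.1.natAbs + p.2.natAbs) (by simp) _
      (List.mem_map_of_mem hp)
    have := h0 p hp
    unfold Bx box
    omega
  have hN : 20 * box T ^ 4 ≤ scale T :=
    Nat.mul_le_mul (by norm_num) (le_of_eq (by ring))
  have hn : T.toFinset.card ≤ box T := (List.toFinset_card_le T).trans (by unfold box; omega)
  have e : (T.map (pert (scale T))).toFinset = T.toFinset.image (pert (scale T)) := by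
    ext p
    simp
  have a1 : (((scale T + 4 * box T) * bound T / 10 : ℕ) : ℝ) ≤
      ((scale T + 4 * box T) * bound T : ℕ) / (10 : ℕ) := Nat.cast_div_le
  have a2 : (((scale T + 4 * box T) * bound T : ℕ) : ℝ) ≤
      (10 * ((scale T + 4 * box T) * bound T / 10 + 1) : ℕ) := Nat.cast_le.2 (by omega)
  simp only [e, ← List.mem_toFinset]
  generalize (scale T + 4 * box T) * bound T / 10 = a at *
  push_cast at a1 a2 ⊢
  refine ⟨pert_gen hB hN, fun h => ?_, fun h E hE => ?_⟩
  · obtain ⟨I, hI⟩ := h1 h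
    obtain ⟨E, k1, k2⟩ := hI.complete' hB hN
    refine ⟨E, k1, k2.trans ?_⟩
    rw [hI.counts.1] at b1
    push_cast at b1
    have := mul_le_mul_of_nonneg_left b1 (show (0 : ℝ) ≤ scale T + 4 * box T by positivity)
    linarith
  · by_contra k
    have := h2 (sound' hB hN hE h3 ((not_le.1 k).trans_le ?_))
    · simp [h] at this
    have s1 : (1.4 : ℝ) < √2 := Real.lt_sqrt_of_sq_lt (by norm_num)
    have s2 : √2 < (1.5 : ℝ) := (Real.sqrt_lt' (by norm_num)).2 (by norm_num)
    have c3 : (3 : ℝ) ≤ T.toFinset.card := by exact_mod_cast h3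
    have cn : (T.toFinset.card : ℝ) ≤ box T := by exact_mod_cast hn
    have sc : (scale T : ℝ) = 400 * (box T * box T * (box T * box T)) := by simp [scale]
    have := mul_le_mul_of_nonneg_left b2 (show (0 : ℝ) ≤ scale T + 4 * box T by positivity)
    generalize (T.toFinset.card : ℝ) = n at *
    generalize (box T : ℝ) = B at *
    generalize (scale T : ℝ) = N at *
    have q1 : 9 ≤ B * B := by nlinarith
    have q2 : 9 * (B * B) ≤ B * B * (B * B) := by nlinarith
    have q3 : B * n ≤ B * B := by nlinarith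
    have q4 : √2 * (B * n) ≤ 1.5 * (B * B) := by nlinarith
    have q5 : 1.4 * N ≤ √2 * N := by nlinarith
    have q6 : 0 ≤ √2 * B := by nlinarith
    have q7 : 3 * B ≤ B * B := by nlinarith
    linarith

end Pool.Agent.Lib.MP_1a3fd7_lc
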